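import Pool.Agent.H99.N2.AField

/-!
# MODULE ATr: rules for the map from smooth functions to the differential field

Φ is the componentwise map on vector valued functions.
Proofs: smoothness of components (`contDiffOn_euclidean`), `real_inner` in E4 is the sum over the
components (`PiLp.inner_apply`, `EuclideanSpace.inner_eq_star_dotProduct`), pd of a component is the
component of pd on Om (fderiv of the continuous linear map `EuclideanSpace.proj k`).
-/

namespace Pool.Agent.H99.N2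

open scoped ContDiff
open Filter Matrix

theorem contDiffOn_pd {Om : Set E2} (hO : IsOpen Om) {F : Type} [NormedAddCommGroup F]
    [NormedSpace ℝ F] {f : E2 → F} (hf : ContDiffOn ℝ ∞ f Om) (i : Fin 2) :
    ContDiffOn ℝ ∞ (pd i f) Om := by
  have h1 : ContDiffOn ℝ ∞ (fderiv ℝ f) Om :=
    hf.fderiv_of_isOpen hO (by simp)
  exact h1.clm_apply contDiffOn_const

theorem contDiffOn_comp {Om : Set E2} {f : E2 → E4} (hf : ContDiffOn ℝ ∞ f Om) (k : Fin 4) :
    ContDiffOn ℝ ∞ (fun x => f x k) Om := by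
  exact (contDiffOn_euclidean.1 hf) k

theorem pd_comp {Om : Set E2} (hO : IsOpen Om) {f : E2 → E4} (hf : ContDiffOn ℝ ∞ f Om)
    (i : Fin 2) (k : Fin 4) {x : E2} (hx : x ∈ Om) :
    pd i (fun y => f y k) x = pd i f x k := by
  have hd : DifferentiableAt ℝ f x :=
    (hf.contDiffAt (hO.mem_nhds hx)).differentiableAt (by simp)
  have h1 : HasFDerivAt (fun y => f y k)
      ((EuclideanSpace.proj k : E4 →L[ℝ] ℝ).comp (fderiv ℝ f x)) x :=
    ((EuclideanSpace.proj k : E4 →L[ℝ] ℝ).hasFDerivAt).comp x hd.hasFDerivAt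
  unfold pd
  rw [h1.fderiv]
  rfl

namespace Bridge

variable {Om : Set E2} {K : Type} [Field K]

/-- vector valued functions -/
def Φ (B : Bridge Om K) (f : E2 → E4) : Fin 4 → K := fun k => B.φ (fun x => f x k)

theorem zero (B : Bridge Om K) : B.φ (fun _ => 0) = 0 := by
  have h := B.add (fun _ => 0) (fun _ => 0) contDiffOn_const contDiffOn_const
  simp only [add_zero] at h
  exact left_eq_add.1 h

theorem neg (B : Bridge Om K) {f : E2 → ℝ} (hf : ContDiffOn ℝ ∞ f Om) :
    B.φ (fun x => -f x) = -B.φ f := by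
  have h := B.add f (fun x => -f x) hf hf.neg
  simp only [add_neg_cancel] at h
  rw [B.zero] at h
  exact (neg_eq_of_add_eq_zero_right h.symm).symm

theorem sub (B : Bridge Om K) {f g : E2 → ℝ} (hf : ContDiffOn ℝ ∞ f Om)
    (hg : ContDiffOn ℝ ∞ g Om) : B.φ (fun x => f x - g x) = B.φ f - B.φ g := by
  have h := B.add f (fun x => -g x) hf hg.neg
  rw [B.neg hg] at h
  simpa only [← sub_eq_add_neg] using h

theorem sum (B : Bridge Om K) {ι : Type} (s : Finset ι) (f : ι → E2 → ℝ)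
    (hf : ∀ i ∈ s, ContDiffOn ℝ ∞ (f i) Om) :
    B.φ (fun x => ∑ i ∈ s, f i x) = ∑ i ∈ s, B.φ (f i) := by
  classical
  induction s using Finset.induction_on with
  | empty => simpa using B.zero
  | insert a s ha ih =>
    have h1 : ContDiffOn ℝ ∞ (fun x => ∑ i ∈ s, f i x) Om :=
      ContDiffOn.sum fun i hi => hf i (Finset.mem_insert_of_mem hi)
    have h2 := B.add (f a) (fun x => ∑ i ∈ s, f i x) (hf a (Finset.mem_insert_self a s)) h1
    rw [ih (fun i hi => hf i (Finset.mem_insert_of_mem hi))] at h2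
    rw [Finset.sum_insert ha, ← h2]
    congr 1
    funext x
    rw [Finset.sum_insert ha]

theorem inv (B : Bridge Om K) {f : E2 → ℝ} (hf : ContDiffOn ℝ ∞ f Om)
    (h : ∀ x ∈ Om, f x ≠ 0) : B.φ (fun x => (f x)⁻¹) = (B.φ f)⁻¹ := by
  have h1 : ContDiffOn ℝ ∞ (fun x => (f x)⁻¹) Om := hf.inv h
  have h2 := B.mul f (fun x => (f x)⁻¹) hf h1
  have h3 : B.φ (fun x => f x * (f x)⁻¹) = 1 := by
    rw [← B.one]
    exact B.congr _ _ (hf.mul h1) contDiffOn_const fun x hx => mul_inv_cancel₀ (h x hx)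
  rw [h3] at h2
  exact eq_inv_of_mul_eq_one_right h2.symm

theorem two (B : Bridge Om K) : B.φ (fun _ => 2) = 2 := by
  have h := B.add (fun _ => 1) (fun _ => 1) contDiffOn_const contDiffOn_const
  rw [B.one] at h
  rw [← one_add_one_eq_two (R := K), ← h]
  congr 1
  funext x
  norm_num

theorem const_der (B : Bridge Om K) (c : ℝ) (i : Fin 2) : B.D.d i (B.φ (fun _ => c)) = 0 := by
  rw [← B.der i (fun _ => c) contDiffOn_const, ← B.zero]
  congr 1
  funext x
  simp [pd]

theorem const_ne (B : Bridge Om K) (hne : Om.Nonempty) {c : ℝ} (hc : c ≠ 0) :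
    B.φ (fun _ => c) ≠ 0 :=
  B.ne _ contDiffOn_const fun _ _ => hc

theorem Φ_add (B : Bridge Om K) {f g : E2 → E4} (hf : ContDiffOn ℝ ∞ f Om)
    (hg : ContDiffOn ℝ ∞ g Om) : B.Φ (fun x => f x + g x) = B.Φ f + B.Φ g := by
  funext k
  exact B.add (fun x => f x k) (fun x => g x k) (contDiffOn_comp hf k) (contDiffOn_comp hg k)

theorem Φ_sub (B : Bridge Om K) {f g : E2 → E4} (hf : ContDiffOn ℝ ∞ f Om)
    (hg : ContDiffOn ℝ ∞ g Om) : B.Φ (fun x => f x - g x) = B.Φ f - B.Φ g := by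
  funext k
  exact B.sub (contDiffOn_comp hf k) (contDiffOn_comp hg k)

theorem Φ_sum (B : Bridge Om K) {ι : Type} (s : Finset ι) (f : ι → E2 → E4)
    (hf : ∀ i ∈ s, ContDiffOn ℝ ∞ (f i) Om) :
    B.Φ (fun x => ∑ i ∈ s, f i x) = ∑ i ∈ s, B.Φ (f i) := by
  funext k
  have h := B.sum s (fun i x => f i x k) fun i hi => contDiffOn_comp (hf i hi) k
  rw [Finset.sum_apply]
  change B.φ (fun x => (∑ i ∈ s, f i x) k) = ∑ i ∈ s, B.φ (fun x => f i x k)
  rw [← h]
  congr 1
  funext x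
  simp

theorem Φ_smul (B : Bridge Om K) {a : E2 → ℝ} {f : E2 → E4} (ha : ContDiffOn ℝ ∞ a Om)
    (hf : ContDiffOn ℝ ∞ f Om) : B.Φ (fun x => a x • f x) = B.φ a • B.Φ f := by
  funext k
  exact B.mul a (fun x => f x k) ha (contDiffOn_comp hf k)

theorem Φ_pd (B : Bridge Om K) (hO : IsOpen Om) {f : E2 → E4} (hf : ContDiffOn ℝ ∞ f Om)
    (i : Fin 2) : B.Φ (pd i f) = dv (B.D.d i) (B.Φ f) := by
  funext k
  change B.φ (fun x => pd i f x k) = B.D.d i (B.φ (fun x => f x k))
  rw [← B.der i _ (contDiffOn_comp hf k)]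
  exact B.congr _ _ (contDiffOn_comp (contDiffOn_pd hO hf i) k)
    (contDiffOn_pd hO (contDiffOn_comp hf k) i) fun x hx => (pd_comp hO hf i k hx).symm

theorem φ_inner (B : Bridge Om K) {f g : E2 → E4} (hf : ContDiffOn ℝ ∞ f Om)
    (hg : ContDiffOn ℝ ∞ g Om) :
    B.φ (fun x => inner ℝ (f x) (g x)) = B.Φ f ⬝ᵥ B.Φ g := by
  have h := B.sum Finset.univ (fun k x => f x k * g x k) fun k _ =>
    (contDiffOn_comp hf k).mul (contDiffOn_comp hg k)
  have h2 : (fun x => inner ℝ (f x) (g x)) = fun x => ∑ k, f x k * g x k := by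
    funext x
    rw [PiLp.inner_apply]
    refine Finset.sum_congr rfl fun k _ => ?_
    simp [mul_comm]
  rw [h2, h]
  refine Finset.sum_congr rfl fun k _ => ?_
  exact B.mul (fun x => f x k) (fun x => g x k) (contDiffOn_comp hf k) (contDiffOn_comp hg k)

theorem Φ_congr (B : Bridge Om K) {f g : E2 → E4} (hf : ContDiffOn ℝ ∞ f Om)
    (hg : ContDiffOn ℝ ∞ g Om) (h : ∀ x ∈ Om, f x = g x) : B.Φ f = B.Φ g := by
  funext k
  exact B.congr _ _ (contDiffOn_comp hf k) (contDiffOn_comp hg k) fun x hx => by rw [h x hx]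

theorem Φ_single (B : Bridge Om K) (k : Fin 4) :
    B.Φ (fun _ => EuclideanSpace.single k 1) = Pi.single k 1 := by
  funext j
  change B.φ (fun _ => (EuclideanSpace.single k (1 : ℝ) : E4) j) = (Pi.single k 1 : Fin 4 → K) j
  by_cases hjk : j = k
  · subst hjk
    simpa using B.one
  · simpa [hjk] using B.zero

end Bridge

end Pool.Agent.H99.N2
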