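import Pool.Agent.H99.N2.AlgA5

/-!
# Branch A: the case xi^2 + eta^2 = 4
-/

namespace Pool.Agent.H99.N2.BA

variable {K : Type} [Field K]

theorem ax_false_of_eq [CharZero K] (D : Ax K) (h4 : D.xi ^ 2 + D.eta ^ 2 = 4) : False := by
  have hX := D.CX
  have hY := D.CY
  have hR := D.R0
  have g1 := congrArg D.d1 h4
  have g2 := congrArg D.d2 h4
  rw [map_add, der_sq, der_sq, D.d1xi, D.d1eta, der_ofNat] at g1
  rw [map_add, der_sq, der_sq, D.d2xi, D.d2eta, der_ofNat] at g2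
  have hq : D.q = -3 / 4 * D.eta := by
    linear_combination (1 / 16) * g1 - (1 / 16) * (4 * D.q + 2 * D.eta) * h4
  have hp : D.p = 3 / 4 * D.eta := by
    linear_combination (1 / 16) * g2 - (1 / 16) * (4 * D.p - 2 * D.eta) * h4
  rw [hp, hq] at hX hY
  have h : D.eta ^ 2 * (3 * D.W - 2 * D.c) = 0 := by
    linear_combination (2 / 3) * hX - (2 / 3) * hY - (2 / 3) * (-2*D.xi^2*D.W - 14*D.xi*D.X
      + 14*D.xi*D.Y - 3*D.eta^2*D.X - 3*D.eta^2*D.Y + 1/2*D.eta^2*D.W - 24*D.X - 24*D.Y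
      + 5/2*D.W + D.c + 3 * D.c - 9 / 2 * D.W) * h4
  have h2 := (mul_eq_zero.mp h).resolve_left (pow_ne_zero 2 D.heta)
  have h3 := congrArg D.d1 h2
  rw [map_sub, der_mul, der_mul, der_ofNat, der_ofNat, D.hc1, D.d1W, map_zero] at h3
  have h5 : D.eta * D.W = 0 := by
    have : (6 : K) * (D.eta * D.W) = 0 := by linear_combination -h3
    exact (mul_eq_zero.mp this).resolve_left (by norm_num)
  exact (mul_ne_zero D.heta D.hW) h5

theorem ax_false [CharZero K] (D : Ax K) : False := by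
  by_cases h : 4 - D.xi ^ 2 - D.eta ^ 2 = 0
  · exact ax_false_of_eq D (by linear_combination -h)
  · exact ax_false_of_ne D h

end Pool.Agent.H99.N2.BA
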