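import Pool.Agent.H99.N2.AlgC
import Pool.Agent.H99.N2.AlgA6

/-!
# The algebraic theorem: in a differential field of characteristic 0 the structure equations of a
surface in E^4 with flat normal bundle and Delta H = c H, c ≠ 0, imply that |H| is constant
-/

namespace Pool.Agent.H99.N2

theorem alg {K : Type} [Field K] [CharZero K] (D : NF K) : D.e1 D.w = 0 ∧ D.e2 D.w = 0 := by
  rcases D.hrho with hrho | ⟨h1, h2⟩
  swap
  · exact branchU D h1 h2
  rcases D.re1 with r1 | ⟨h1, h2⟩
  swap
  · exact branchB D h1 h2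
  rcases D.re2 with r2 | ⟨h1, h2⟩
  swap
  · have h := branchB D.swap (by
      change 2 + -D.xi = 0
      linear_combination h1) (by
      change -D.eta = 0
      rw [h2, neg_zero])
    exact ⟨h.2, h.1⟩
  by_contra hw
  obtain ⟨E, hE⟩ := exists_xy D hrho r1 r2 hw
  by_cases hx : E.x = 0
  · have hy : E.y ≠ 0 := fun hy => hE ⟨hx, hy⟩
    exact BC.branchC E.swap hx hy
  · by_cases hy : E.y = 0
    · exact BC.branchC E hy hx
    · obtain ⟨A⟩ := exists_ax E hx hy
      exact BA.ax_false A

end Pool.Agent.H99.N2
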