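import Pool.Agent.H99.N2.GFrame

/-!
# MODULE GBra: bracket of the frame and the Laplace operator in the frame

Proofs. B_i := e1 (b i) - e2 (a i).  e1 (e2 f) - e2 (e1 f) = Σ_i B_i d_i f (the second order terms
cancel by D.comm).  For f = X_k this gives  dv e1 u2 - dv e2 u1 = Σ_i B_i x_i.
(dv e1 u2) . u1 = - u2 . dv e1 u1 = -p (derivative of u1 . u2 = 0), (dv e2 u1) . u1 = 0,
(dv e1 u2) . u2 = 0, (dv e2 u1) . u2 = -q.  So (Σ B_i x_i) . u1 = -p, (Σ B_i x_i) . u2 = q.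
As Σ B_i x_i - (-p u1 + q u2) = Σ_i (B_i + p a_i - q b_i) x_i is orthogonal to u1, u2, which are
combinations of x0, x1 with invertible matrix (`det_sq`), it is orthogonal to x0 and x1, so
(gdet ≠ 0) B_i = -p a_i + q b_i.  Then `comm` is immediate.
`lap_eq`: put δ = det A = a0 b1 - a1 b0, δ^2 gdet = 1, del^2 = gdet, so (δ del)^2 = 1 and δ del is a
constant ±1 (a square root of 1 in a field: = 1 or = -1), so lapK = -(δ Σ_i d_i (δ^{-1} Σ_j gi_ij d_j f)).
With gi = a a + b b: lapK f = -(e1 e1 f + div1 e1 f + e2 e2 f + div2 e2 f) where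
div1 = Σ d_i a_i - e1 δ / δ, div2 = Σ d_i b_i - e2 δ / δ.
e1 δ = δ Σ d_i a_i + q δ (expand δ, replace e1 (b i) by e2 (a i) - p a_i + q b_i), so div1 = -q;
in the same way e2 δ = δ Σ d_i b_i + p δ, div2 = -p.
-/

namespace Pool.Agent.H99.N2

open Matrix

variable {K : Type} [Field K]

namespace OFr

variable {D : DF K} {X : Fin 4 → K}

private theorem two_ne (D : DF K) : (2 : K) ≠ 0 := by
  intro h
  have h1 : (1 : K) ^ 2 + 1 ^ 2 = 0 := by rw [← h]; norm_num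
  exact one_ne_zero (D.real 1 1 h1)

private theorem e1_app (F : OFr D X) (f : K) :
    F.e1 f = F.a 0 * D.d 0 f + F.a 1 * D.d 1 f := by
  simp [e1, Fin.sum_univ_two, Derivation.add_apply, Derivation.smul_apply]

private theorem e2_app (F : OFr D X) (f : K) :
    F.e2 f = F.b 0 * D.d 0 f + F.b 1 * D.d 1 f := by
  simp [e2, Fin.sum_univ_two, Derivation.add_apply, Derivation.smul_apply]

private theorem der_dot (E : Derivation ℤ K K) (v w : Fin 4 → K) :
    E (v ⬝ᵥ w) = dv E v ⬝ᵥ w + v ⬝ᵥ dv E w := by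
  simp only [dotProduct, Fin.sum_univ_four, dv, map_add, Derivation.leibniz, smul_eq_mul]
  ring

private theorem uu11 (F : OFr D X) : F.u1 ⬝ᵥ F.u1 = 1 := by rw [u1_eq]; exact F.o11
private theorem uu12 (F : OFr D X) : F.u1 ⬝ᵥ F.u2 = 0 := by rw [u1_eq, u2_eq]; exact F.o12
private theorem uu22 (F : OFr D X) : F.u2 ⬝ᵥ F.u2 = 1 := by rw [u2_eq]; exact F.o22

private theorem dzero {E : Derivation ℤ K K} {v w : Fin 4 → K} {c : K} (hc : E c = 0)
    (h : v ⬝ᵥ w = c) : dv E v ⬝ᵥ w + v ⬝ᵥ dv E w = 0 := by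
  rw [← der_dot, h, hc]

private theorem delta_ne (F : OFr D X) : F.a 0 * F.b 1 - F.a 1 * F.b 0 ≠ 0 := by
  intro h
  have h1 := F.det_sq
  rw [h] at h1
  simp at h1

private theorem second (F : OFr D X) (f : K) :
    F.e1 (F.e2 f) - F.e2 (F.e1 f)
      = (F.e1 (F.b 0) - F.e2 (F.a 0)) * D.d 0 f + (F.e1 (F.b 1) - F.e2 (F.a 1)) * D.d 1 f := by
  simp only [e1_app, e2_app, map_add, Derivation.leibniz, smul_eq_mul]
  have h := D.comm f
  linear_combination (F.a 0 * F.b 1 - F.a 1 * F.b 0) * h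

theorem bra_a (F : OFr D X) (i : Fin 2) :
    F.e1 (F.b i) - F.e2 (F.a i) = -F.p * F.a i + F.q * F.b i := by
  have h2 := two_ne D
  have hδ := F.delta_ne
  have p1 : dv F.e1 F.u2 ⬝ᵥ F.u1 = -F.p := by
    have h := dzero (E := F.e1) (by simp) F.uu12
    have h' : F.p = dv F.e1 F.u1 ⬝ᵥ F.u2 := rfl
    rw [dotProduct_comm F.u1] at h
    linear_combination h + h'
  have p2 : dv F.e2 F.u1 ⬝ᵥ F.u1 = 0 := by
    have h := dzero (E := F.e2) (by simp) F.uu11
    rw [dotProduct_comm F.u1] at h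
    have : (2 : K) * (dv F.e2 F.u1 ⬝ᵥ F.u1) = 0 := by linear_combination h
    exact (mul_eq_zero.1 this).resolve_left h2
  have p3 : dv F.e1 F.u2 ⬝ᵥ F.u2 = 0 := by
    have h := dzero (E := F.e1) (by simp) F.uu22
    rw [dotProduct_comm F.u2] at h
    have : (2 : K) * (dv F.e1 F.u2 ⬝ᵥ F.u2) = 0 := by linear_combination h
    exact (mul_eq_zero.1 this).resolve_left h2
  have p4 : dv F.e2 F.u1 ⬝ᵥ F.u2 = -F.q := by
    have h := dzero (E := F.e2) (by simp) F.uu12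
    have h' : F.q = dv F.e2 F.u2 ⬝ᵥ F.u1 := rfl
    rw [dotProduct_comm F.u1] at h
    linear_combination h + h'
  set B0 := F.e1 (F.b 0) - F.e2 (F.a 0) with hB0
  set B1 := F.e1 (F.b 1) - F.e2 (F.a 1) with hB1
  have hv : dv F.e1 F.u2 - dv F.e2 F.u1 = B0 • dv (D.d 0) X + B1 • dv (D.d 1) X := by
    funext k
    exact F.second (X k)
  have x0 : (F.a 0 * F.b 1 - F.a 1 * F.b 0) • dv (D.d 0) X = F.b 1 • F.u1 - F.a 1 • F.u2 := by
    rw [u1_eq, u2_eq]
    funext k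
    simp only [Fin.sum_univ_two, Pi.smul_apply, Pi.add_apply, Pi.sub_apply, smul_eq_mul]
    ring
  have x1 : (F.a 0 * F.b 1 - F.a 1 * F.b 0) • dv (D.d 1) X = -F.b 0 • F.u1 + F.a 0 • F.u2 := by
    rw [u1_eq, u2_eq]
    funext k
    simp only [Fin.sum_univ_two, Pi.smul_apply, Pi.add_apply, smul_eq_mul]
    ring
  have y1 : (F.a 0 * F.b 1 - F.a 1 * F.b 0) * (dv (D.d 0) X ⬝ᵥ F.u1) = F.b 1 := by
    rw [← smul_eq_mul, ← smul_dotProduct, x0, sub_dotProduct, smul_dotProduct, smul_dotProduct,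
      F.uu11, dotProduct_comm F.u2, F.uu12]
    simp
  have y2 : (F.a 0 * F.b 1 - F.a 1 * F.b 0) * (dv (D.d 0) X ⬝ᵥ F.u2) = -F.a 1 := by
    rw [← smul_eq_mul, ← smul_dotProduct, x0, sub_dotProduct, smul_dotProduct, smul_dotProduct,
      F.uu22, F.uu12]
    simp
  have y3 : (F.a 0 * F.b 1 - F.a 1 * F.b 0) * (dv (D.d 1) X ⬝ᵥ F.u1) = -F.b 0 := by
    rw [← smul_eq_mul, ← smul_dotProduct, x1, add_dotProduct, smul_dotProduct, smul_dotProduct,
      F.uu11, dotProduct_comm F.u2, F.uu12]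
    simp
  have y4 : (F.a 0 * F.b 1 - F.a 1 * F.b 0) * (dv (D.d 1) X ⬝ᵥ F.u2) = F.a 0 := by
    rw [← smul_eq_mul, ← smul_dotProduct, x1, add_dotProduct, smul_dotProduct, smul_dotProduct,
      F.uu22, F.uu12]
    simp
  have z1 : -F.p = B0 * (dv (D.d 0) X ⬝ᵥ F.u1) + B1 * (dv (D.d 1) X ⬝ᵥ F.u1) := by
    have := congrArg (fun v => v ⬝ᵥ F.u1) hv
    simp only [sub_dotProduct, add_dotProduct, smul_dotProduct, smul_eq_mul] at this
    rw [p1, p2, sub_zero] at this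
    exact this
  have z2 : F.q = B0 * (dv (D.d 0) X ⬝ᵥ F.u2) + B1 * (dv (D.d 1) X ⬝ᵥ F.u2) := by
    have := congrArg (fun v => v ⬝ᵥ F.u2) hv
    simp only [sub_dotProduct, add_dotProduct, smul_dotProduct, smul_eq_mul] at this
    rw [p3, p4, zero_sub, neg_neg] at this
    exact this
  have w1 : (F.a 0 * F.b 1 - F.a 1 * F.b 0) * (-F.p) = B0 * F.b 1 - B1 * F.b 0 := by
    rw [z1]; linear_combination B0 * y1 + B1 * y3
  have w2 : (F.a 0 * F.b 1 - F.a 1 * F.b 0) * F.q = -B0 * F.a 1 + B1 * F.a 0 := by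
    rw [z2]; linear_combination B0 * y2 + B1 * y4
  fin_cases i
  · change B0 = -F.p * F.a 0 + F.q * F.b 0
    apply mul_left_cancel₀ hδ
    linear_combination -F.a 0 * w1 - F.b 0 * w2
  · change B1 = -F.p * F.a 1 + F.q * F.b 1
    apply mul_left_cancel₀ hδ
    linear_combination -F.a 1 * w1 - F.b 1 * w2

theorem comm (F : OFr D X) (f : K) :
    F.e1 (F.e2 f) - F.e2 (F.e1 f) = -F.p * F.e1 f + F.q * F.e2 f := by
  rw [F.second f, F.bra_a 0, F.bra_a 1, e1_app, e2_app]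
  ring

theorem lap_eq (F : OFr D X) (del : K) (hdel : del ^ 2 = gdet D X) (f : K) :
    lapK D X del f = -(F.e1 (F.e1 f) + F.e2 (F.e2 f) - F.p * F.e2 f - F.q * F.e1 f) := by
  have h2 := two_ne D
  have hδ := F.delta_ne
  have hds := F.det_sq
  set δ := F.a 0 * F.b 1 - F.a 1 * F.b 0 with hδdef
  have hdel0 : del ≠ 0 := by
    intro h
    rw [h] at hdel
    rw [← hdel] at hds
    simp at hds
  have hsq : (δ * del) * (δ * del) = 1 := by rw [← hds, ← hdel]; ring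
  have hdd : ∀ i, D.d i del * δ = -del * D.d i δ := by
    intro i
    have h := congrArg (D.d i) hsq
    simp only [Derivation.leibniz, smul_eq_mul, Derivation.map_one_eq_zero] at h
    have h3 : (2 : K) * (δ * del) * (δ * D.d i del + del * D.d i δ) = 0 := by
      linear_combination h
    have h4 : (2 : K) * (δ * del) ≠ 0 := mul_ne_zero h2 (mul_ne_zero hδ hdel0)
    have h5 := (mul_eq_zero.1 h3).resolve_left h4
    linear_combination h5
  have hin : ∀ i, (∑ j, del * gi D X i j * D.d j f) = del * (F.a i * F.e1 f + F.b i * F.e2 f) := by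
    intro i
    rw [Fin.sum_univ_two, F.gi_eq, F.gi_eq, e1_app, e2_app]
    ring
  have hb0 := F.bra_a 0
  have hb1 := F.bra_a 1
  have hδ0 : ∀ i, D.d i δ = F.b 1 * D.d i (F.a 0) + F.a 0 * D.d i (F.b 1)
      - F.b 0 * D.d i (F.a 1) - F.a 1 * D.d i (F.b 0) := by
    intro i
    rw [hδdef]
    simp only [map_sub, Derivation.leibniz, smul_eq_mul]
    ring
  have hdiv1 : F.a 0 * D.d 0 δ + F.a 1 * D.d 1 δ
      = δ * (D.d 0 (F.a 0) + D.d 1 (F.a 1)) + F.q * δ := by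
    rw [e1_app, e2_app] at hb0 hb1
    rw [hδ0, hδ0]
    linear_combination (exp := 1) F.a 0 * hb1 - F.a 1 * hb0
  have hdiv2 : F.b 0 * D.d 0 δ + F.b 1 * D.d 1 δ
      = δ * (D.d 0 (F.b 0) + D.d 1 (F.b 1)) + F.p * δ := by
    rw [e1_app, e2_app] at hb0 hb1
    rw [hδ0, hδ0]
    linear_combination (exp := 1) F.b 0 * hb1 - F.b 1 * hb0
  have hd0 := hdd 0
  have hd1 := hdd 1
  rw [lapK, neg_inj, Fin.sum_univ_two, hin, hin, inv_mul_eq_iff_eq_mul₀ hdel0]
  simp only [Derivation.leibniz, smul_eq_mul, map_add]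
  rw [e1_app F (F.e1 f), e2_app F (F.e2 f)]
  apply mul_left_cancel₀ hδ
  linear_combination (F.a 0 * F.e1 f + F.b 0 * F.e2 f) * hd0
    + (F.a 1 * F.e1 f + F.b 1 * F.e2 f) * hd1 - del * F.e1 f * hdiv1 - del * F.e2 f * hdiv2

end OFr

end Pool.Agent.H99.N2
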