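import Pool.Agent.H99.N2.AImm
import Pool.Agent.H99.N2.GBra

/-!
# MODULE ABel: Beltrami's formula and the two hypotheses

Proofs.
`beltrami_K`: take F : OFr D X (`exists_ofr`); by `lap_eq` for f = X k,
lapK (X k) = -(dv e1 u1 + dv e2 u2 - p u2 - q u1) k, and by `nor_eq`
dv e1 u1 = p u2 + norK (dv e1 u1), dv e2 u2 = q u1 + norK (dv e2 u2), so it is - trK k (`tr_eq`).
`beltrami`: suppose that lap X X x0 k ≠ -2 meanCurv X x0 k at some x0 ∈ U; the set Om of the points of U
where this holds is open (continuity) and nonempty; take the bridge of Om (`exists_bridge`): B.ne says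
that Φ of the difference at k is not zero, but `Φ_lap`, `Φ_meanCurv` and `beltrami_K` say it is zero.
`lapH_of_null`: on U  meanCurv X = -(1/2) lap X X = -(lam/2) X2 (lap is linear on smooth functions and
kills constants), and lap X depends only on the germ of f (U is open), so
lap X (meanCurv X) = -(lam/2) lap X X2 = -(lam/2) lam X2 = lam meanCurv X.
-/

namespace Pool.Agent.H99.N2

open scoped ContDiff
open Matrix

private theorem dv_dot {K : Type} [Field K] (d : Derivation ℤ K K) (v w : Fin 4 → K) :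
    d (v ⬝ᵥ w) = v ⬝ᵥ dv d w + dv d v ⬝ᵥ w := by
  simp only [dotProduct, dv, map_sum, Derivation.leibniz, smul_eq_mul, ← Finset.sum_add_distrib]
  refine Finset.sum_congr rfl fun i _ => ?_
  ring

private theorem dot_dv_self {K : Type} [Field K] [CharZero K] (d : Derivation ℤ K K)
    (v : Fin 4 → K) (h : v ⬝ᵥ v = 1) : v ⬝ᵥ dv d v = 0 := by
  have h1 := dv_dot d v v
  rw [h, Derivation.map_one_eq_zero, dotProduct_comm (dv d v) v] at h1
  have h2 : (2 : K) * (v ⬝ᵥ dv d v) = 0 := by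
    rw [two_mul]; exact h1.symm
  exact (mul_eq_zero.mp h2).resolve_left two_ne_zero

private theorem pd_congr' {F : Type} [NormedAddCommGroup F] [NormedSpace ℝ F] {f g : E2 → F}
    {x : E2} (h : f =ᶠ[nhds x] g) (i : Fin 2) : pd i f x = pd i g x := by
  unfold pd
  rw [h.fderiv_eq]

private theorem lap_congr' {U : Set E2} (hU : IsOpen U) (X : E2 → E4) {f g : E2 → E4}
    (h : ∀ y ∈ U, f y = g y) {x : E2} (hx : x ∈ U) : lap X f x = lap X g x := by
  unfold lap
  congr 2
  refine Finset.sum_congr rfl fun i _ => ?_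
  apply pd_congr'
  filter_upwards [hU.mem_nhds hx] with y hy
  refine Finset.sum_congr rfl fun j _ => ?_
  rw [pd_congr' (f := f) (g := g) (x := y)]
  filter_upwards [hU.mem_nhds hy] with z hz
  exact h z hz

private theorem smooth_in {U : Set E2} (hU : IsOpen U) {X : E2 → E4} (hX : IsSurface X U)
    {f : E2 → E4} (hf : ContDiffOn ℝ ∞ f U) (i : Fin 2) :
    ContDiffOn ℝ ∞ (fun y => ∑ j, (Real.sqrt (metric X y).det * (metric X y)⁻¹ i j) •
      pd j f y) U := by
  apply ContDiffOn.sum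
  intro j _
  exact ((contDiffOn_sqrt_det hU hX).mul (contDiffOn_metric_inv hU hX i j)).smul
    (contDiffOn_pd hU hf j)

private theorem diffAt {U : Set E2} (hU : IsOpen U) {F : Type} [NormedAddCommGroup F]
    [NormedSpace ℝ F] {f : E2 → F} (hf : ContDiffOn ℝ ∞ f U) {x : E2} (hx : x ∈ U) :
    DifferentiableAt ℝ f x :=
  (hf.contDiffAt (hU.mem_nhds hx)).differentiableAt (by simp)

private theorem pd_add'' {F : Type} [NormedAddCommGroup F] [NormedSpace ℝ F] {f g : E2 → F}
    {x : E2} (hf : DifferentiableAt ℝ f x) (hg : DifferentiableAt ℝ g x) (i : Fin 2) :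
    pd i (fun y => f y + g y) x = pd i f x + pd i g x := by
  unfold pd
  rw [fderiv_fun_add hf hg]
  rfl

private theorem pd_smul'' {F : Type} [NormedAddCommGroup F] [NormedSpace ℝ F] {f : E2 → F}
    {x : E2} (hf : DifferentiableAt ℝ f x) (c : ℝ) (i : Fin 2) :
    pd i (fun y => c • f y) x = c • pd i f x := by
  unfold pd
  rw [fderiv_fun_const_smul hf]
  rfl

private theorem lap_add' {U : Set E2} (hU : IsOpen U) {X : E2 → E4} (hX : IsSurface X U)
    {f g : E2 → E4} (hf : ContDiffOn ℝ ∞ f U) (hg : ContDiffOn ℝ ∞ g U) {x : E2} (hx : x ∈ U) :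
    lap X (fun y => f y + g y) x = lap X f x + lap X g x := by
  unfold lap
  rw [← neg_add, ← smul_add, ← Finset.sum_add_distrib]
  congr 2
  refine Finset.sum_congr rfl fun i _ => ?_
  rw [← pd_add'' (diffAt hU (smooth_in hU hX hf i) hx) (diffAt hU (smooth_in hU hX hg i) hx)]
  apply pd_congr'
  filter_upwards [hU.mem_nhds hx] with y hy
  rw [← Finset.sum_add_distrib]
  refine Finset.sum_congr rfl fun j _ => ?_
  rw [pd_add'' (diffAt hU hf hy) (diffAt hU hg hy), smul_add]

private theorem lap_smul' {U : Set E2} (hU : IsOpen U) {X : E2 → E4} (hX : IsSurface X U)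
    {f : E2 → E4} (hf : ContDiffOn ℝ ∞ f U) (c : ℝ) {x : E2} (hx : x ∈ U) :
    lap X (fun y => c • f y) x = c • lap X f x := by
  unfold lap
  rw [smul_neg c, smul_comm c _ (∑ i : Fin 2, _), Finset.smul_sum (r := c)]
  congr 2
  refine Finset.sum_congr rfl fun i _ => ?_
  rw [← pd_smul'' (diffAt hU (smooth_in hU hX hf i) hx)]
  apply pd_congr'
  filter_upwards [hU.mem_nhds hx] with y hy
  rw [Finset.smul_sum]
  refine Finset.sum_congr rfl fun j _ => ?_
  rw [pd_smul'' (diffAt hU hf hy), smul_comm]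

private theorem lap_const' (X : E2 → E4) (v : E4) (x : E2) :
    lap X (fun _ => v) x = 0 := by
  have h : ∀ (i : Fin 2), pd i (fun _ : E2 => v) = fun _ => 0 := by
    intro i
    funext y
    unfold pd
    simp
  unfold lap
  simp only [h, smul_zero, Finset.sum_const_zero]
  have h2 : ∀ (i : Fin 2), pd i (fun _ : E2 => (0 : E4)) x = 0 := by
    intro i
    unfold pd
    simp
  simp [h2]

theorem beltrami_K {K : Type} [Field K] [CharZero K] (D : DF K) (X : Fin 4 → K) (del : K)
    (hdel : del ^ 2 = gdet D X) (hne : del ≠ 0) (k : Fin 4) :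
    lapK D X del (X k) = -trK D X k := by
  classical
  have hg : gdet D X ≠ 0 := by
    rw [← hdel]; exact pow_ne_zero 2 hne
  obtain ⟨F⟩ := exists_ofr D X hg
  rw [F.lap_eq del hdel, F.tr_eq, F.nor_eq, F.nor_eq]
  have o11 : F.u1 ⬝ᵥ F.u1 = 1 := by rw [F.u1_eq]; exact F.o11
  have o22 : F.u2 ⬝ᵥ F.u2 = 1 := by rw [F.u2_eq]; exact F.o22
  rw [dot_dv_self F.e1 F.u1 o11, dot_dv_self F.e2 F.u2 o22]
  have hp : F.u2 ⬝ᵥ dv F.e1 F.u1 = F.p := by rw [dotProduct_comm]; rfl
  have hq : F.u1 ⬝ᵥ dv F.e2 F.u2 = F.q := by rw [dotProduct_comm]; rfl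
  rw [hp, hq]
  simp only [Pi.add_apply, Pi.sub_apply, Pi.smul_apply, smul_eq_mul]
  have h1 : dv F.e1 F.u1 k = F.e1 (F.e1 (X k)) := rfl
  have h2 : dv F.e2 F.u2 k = F.e2 (F.e2 (X k)) := rfl
  have h3 : F.u1 k = F.e1 (X k) := rfl
  have h4 : F.u2 k = F.e2 (X k) := rfl
  rw [h1, h2, h3, h4]
  ring

theorem beltrami {U : Set E2} (hU : IsOpen U) {X : E2 → E4} (hX : IsSurface X U) {x : E2}
    (hx : x ∈ U) : lap X X x = -(2 : ℝ) • meanCurv X x := by
  by_contra hcon
  have hk : ∃ k : Fin 4, lap X X x k ≠ (-(2 : ℝ) • meanCurv X x) k := by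
    by_contra h
    push Not at h
    apply hcon
    ext k
    exact h k
  obtain ⟨k, hk⟩ := hk
  set f : E2 → ℝ := fun y => lap X X y k + 2 * meanCurv X y k with hfdef
  have hf : ContDiffOn ℝ ∞ f U :=
    (contDiffOn_comp (contDiffOn_lap hU hX hX.1) k).add
      (contDiffOn_const.mul (contDiffOn_comp (contDiffOn_meanCurv hU hX) k))
  set Om : Set E2 := U ∩ f ⁻¹' {0}ᶜ with hOm
  have hO : IsOpen Om := hf.continuousOn.isOpen_inter_preimage hU isOpen_compl_singleton
  have hxO : x ∈ Om := by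
    refine ⟨hx, ?_⟩
    intro h0
    have h0' : lap X X x k + 2 * meanCurv X x k = 0 := h0
    apply hk
    change lap X X x k = -(2 : ℝ) * meanCurv X x k
    linarith
  have hXO : IsSurface X Om := ⟨hX.1.mono Set.inter_subset_left, fun y hy => hX.2 y hy.1⟩
  obtain ⟨K, hF, hC, ⟨B⟩⟩ := exists_bridge Om hO ⟨x, hxO⟩
  have hne : B.φ f ≠ 0 := B.ne f (hf.mono Set.inter_subset_left) (fun y hy => hy.2)
  apply hne
  have hl := contDiffOn_comp (contDiffOn_lap hO hXO hXO.1) k
  have hm := contDiffOn_comp (contDiffOn_meanCurv hO hXO) k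
  have e1 : B.φ f = B.φ (fun y => lap X X y k) + B.φ (fun y => 2 * meanCurv X y k) :=
    B.add _ _ hl (contDiffOn_const.mul hm)
  have e2 : B.φ (fun y => 2 * meanCurv X y k) = B.φ (fun _ => 2) * B.φ (fun y => meanCurv X y k) :=
    B.mul _ _ contDiffOn_const hm
  have e3 : B.φ (fun y => lap X X y k) = lapK B.D (B.Φ X) (delK B X) (B.Φ X k) :=
    Φ_lap B hO hXO hXO.1 k
  have e4 := beltrami_K B.D (B.Φ X) (delK B X) (delK_sq B hO hXO) (delK_ne B hO hXO) k
  have e5 : (2 : K) * B.φ (fun y => meanCurv X y k) = trK B.D (B.Φ X) k := by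
    have := congrFun (Φ_meanCurv B hO hXO) k
    exact this
  rw [e1, e2, B.two, e3, e4, e5]
  ring

theorem lapH_of_null {U : Set E2} (hU : IsOpen U) {X : E2 → E4} (hX : IsSurface X U)
    (h : IsNullTwoType X U) :
    ∃ c : ℝ, c ≠ 0 ∧ ∀ x ∈ U, lap X (meanCurv X) x = c • meanCurv X x := by
  obtain ⟨x0, X1, X2, lam, hlam, h1, h2, hsum, hl1, hl2, -, -⟩ := h
  refine ⟨lam, hlam, ?_⟩
  have hlap : ∀ y ∈ U, lap X X y = lam • X2 y := by
    intro y hy
    rw [lap_congr' hU X hsum hy, lap_add' hU hX (contDiffOn_const.add h1) h2 hy,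
      lap_add' hU hX contDiffOn_const h1 hy, lap_const', hl1 y hy, hl2 y hy]
    simp
  have hmc : ∀ y ∈ U, meanCurv X y = (-(lam / 2)) • X2 y := by
    intro y hy
    have h3 := beltrami hU hX hy
    rw [hlap y hy] at h3
    have h4 : meanCurv X y = (-(1 / 2 : ℝ)) • (-(2 : ℝ) • meanCurv X y) := by
      rw [smul_smul]; norm_num
    rw [h4, ← h3, smul_smul]
    congr 1
    ring
  intro x hx
  rw [lap_congr' hU X hmc hx, lap_smul' hU hX h2 _ hx, hl2 x hx, hmc x hx, smul_comm]

end Pool.Agent.H99.N2
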