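import Pool.Agent.H99.N2.Defs

/-!
# MODULE ADense: functions that are smooth on a dense open subset of Om

Proofs.
`inv_mem`, `sqrt_mem`, `sign_mem`: f is smooth at each point of V (V open dense in Om, `mem_dfil`);
put V0 = {x ∈ V | f x ≠ 0} (open, f is continuous on the open set V) and
V1 = V ∩ interior {x | f x = 0}; V0 ∪ V1 is open and dense in Om (a point of V outside closure V0
is in V1) and on V0, V1 the new function is smooth (on V1 it is eventually equal to 0; on V0: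
`ContDiffAt.inv`, `Real.contDiffAt_sqrt`, |f| is locally f or -f, the sign is locally constant,
`ContDiffAt.congr_of_eventuallyEq`).
`pd_mem`: at a point of V, f is ContDiffAt infinity, so fderiv f is (`ContDiffAt.fderiv_right` with
m = infinity), then apply the evaluation at the constant vector (`ContDiffAt.clm_apply`).
-/

namespace Pool.Agent.H99.N2

open scoped ContDiff
open Filter

/-- The filter of the sets which contain a dense open subset of `Om`. -/
def dfil (Om : Set E2) : Filter E2 where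
  sets := {s | ∃ V : Set E2, IsOpen V ∧ Om ⊆ closure (V ∩ Om) ∧ V ∩ Om ⊆ s}
  univ_sets := ⟨Set.univ, isOpen_univ, by simpa using subset_closure, Set.subset_univ _⟩
  sets_of_superset := by
    rintro s t ⟨V, h1, h2, h3⟩ h
    exact ⟨V, h1, h2, h3.trans h⟩
  inter_sets := by
    rintro s t ⟨V, h1, h2, h3⟩ ⟨V', h1', h2', h3'⟩
    refine ⟨V ∩ V', h1.inter h1', ?_, ?_⟩
    · intro x hx
      rw [mem_closure_iff]
      intro W hW hxW
      obtain ⟨y, hyW, hyV, hyO⟩ := mem_closure_iff.mp (h2 hx) W hW hxW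
      obtain ⟨z, hz1, hz2, hz3⟩ := mem_closure_iff.mp (h2' hyO) (W ∩ V) (hW.inter h1) ⟨hyW, hyV⟩
      exact ⟨z, hz1.1, ⟨hz1.2, hz2⟩, hz3⟩
    · rintro x ⟨⟨hV, hV'⟩, hO⟩
      exact ⟨h3 ⟨hV, hO⟩, h3' ⟨hV', hO⟩⟩

theorem mem_dfil {Om : Set E2} (hO : IsOpen Om) {s : Set E2} :
    s ∈ dfil Om ↔ ∃ V : Set E2, IsOpen V ∧ V ⊆ Om ∧ Om ⊆ closure V ∧ V ⊆ s := by
  constructor
  · rintro ⟨V, h1, h2, h3⟩
    exact ⟨V ∩ Om, h1.inter hO, Set.inter_subset_right, h2, h3⟩
  · rintro ⟨V, h1, h2, h3, h4⟩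
    refine ⟨V, h1, ?_, ?_⟩
    · rwa [Set.inter_eq_left.mpr h2]
    · exact Set.inter_subset_left.trans h4

theorem dfil_neBot {Om : Set E2} (hO : IsOpen Om) (hne : Om.Nonempty) : (dfil Om).NeBot := by
  rw [neBot_iff]
  intro h
  have h0 : (∅ : Set E2) ∈ dfil Om := by rw [h]; exact mem_bot
  obtain ⟨V, _, _, h3, h4⟩ := (mem_dfil hO).mp h0
  obtain ⟨x, hx⟩ := hne
  have : x ∈ closure V := h3 hx
  rw [Set.subset_eq_empty h4 rfl, closure_empty] at this
  exact this

/-- The functions which are smooth at the points of a dense open subset of `Om`. -/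
def Sm (Om : Set E2) : Subring (E2 → ℝ) where
  carrier := {f | ∀ᶠ x in dfil Om, ContDiffAt ℝ ∞ f x}
  mul_mem' := by
    intro f g hf hg
    have hf' : ∀ᶠ x in dfil Om, ContDiffAt ℝ ∞ f x := hf
    have hg' : ∀ᶠ x in dfil Om, ContDiffAt ℝ ∞ g x := hg
    change ∀ᶠ x in dfil Om, ContDiffAt ℝ ∞ (f * g) x
    filter_upwards [hf', hg'] with x h1 h2
    exact h1.mul h2
  one_mem' := by
    change ∀ᶠ x in dfil Om, ContDiffAt ℝ ∞ (fun _ => (1 : ℝ)) x
    exact Eventually.of_forall fun x => contDiffAt_const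
  add_mem' := by
    intro f g hf hg
    have hf' : ∀ᶠ x in dfil Om, ContDiffAt ℝ ∞ f x := hf
    have hg' : ∀ᶠ x in dfil Om, ContDiffAt ℝ ∞ g x := hg
    change ∀ᶠ x in dfil Om, ContDiffAt ℝ ∞ (f + g) x
    filter_upwards [hf', hg'] with x h1 h2
    exact h1.add h2
  zero_mem' := by
    change ∀ᶠ x in dfil Om, ContDiffAt ℝ ∞ (fun _ => (0 : ℝ)) x
    exact Eventually.of_forall fun x => contDiffAt_const
  neg_mem' := by
    intro f hf
    have hf' : ∀ᶠ x in dfil Om, ContDiffAt ℝ ∞ f x := hf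
    change ∀ᶠ x in dfil Om, ContDiffAt ℝ ∞ (-f) x
    filter_upwards [hf'] with x h1
    exact h1.neg

theorem mem_Sm {Om : Set E2} {f : E2 → ℝ} :
    f ∈ Sm Om ↔ ∀ᶠ x in dfil Om, ContDiffAt ℝ ∞ f x := Iff.rfl

theorem Sm_of_contDiffOn {Om : Set E2} (hO : IsOpen Om) {f : E2 → ℝ}
    (hf : ContDiffOn ℝ ∞ f Om) : f ∈ Sm Om := by
  refine (mem_dfil hO).mpr ⟨Om, hO, le_rfl, subset_closure, fun x hx => ?_⟩
  exact hf.contDiffAt (hO.mem_nhds hx)

private theorem glue_mem {Om : Set E2} (hO : IsOpen Om) {f g : E2 → ℝ} (hf : f ∈ Sm Om)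
    (h0 : ∀ x, ContDiffAt ℝ ∞ f x → f x ≠ 0 → ContDiffAt ℝ ∞ g x)
    (h1 : ∀ x, (∀ᶠ y in nhds x, f y = 0) → ContDiffAt ℝ ∞ g x) : g ∈ Sm Om := by
  obtain ⟨V, hV, hVO, hd, hVf⟩ := (mem_dfil hO).mp (mem_Sm.mp hf)
  have hVf' : ∀ x ∈ V, ContDiffAt ℝ ∞ f x := fun x hx => hVf hx
  have hV0 : IsOpen (V ∩ {x | f x ≠ 0}) := by
    rw [isOpen_iff_mem_nhds]
    rintro x ⟨hxV, hx0⟩
    exact inter_mem (hV.mem_nhds hxV) ((hVf' x hxV).continuousAt.eventually_ne hx0)
  refine (mem_dfil hO).mpr ⟨(V ∩ {x | f x ≠ 0}) ∪ (V ∩ interior {x | f x = 0}),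
    hV0.union (hV.inter isOpen_interior), ?_, ?_, ?_⟩
  · rintro x (hx | hx)
    · exact hVO hx.1
    · exact hVO hx.1
  · have hsub : V ⊆ closure ((V ∩ {x | f x ≠ 0}) ∪ (V ∩ interior {x | f x = 0})) := by
      intro x hx
      by_cases hc : x ∈ closure (V ∩ {x | f x ≠ 0})
      · exact closure_mono Set.subset_union_left hc
      · refine subset_closure (Or.inr ⟨hx, ?_⟩)
        rw [mem_interior_iff_mem_nhds]
        have hN : (closure (V ∩ {x | f x ≠ 0}))ᶜ ∈ nhds x :=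
          isClosed_closure.isOpen_compl.mem_nhds hc
        filter_upwards [hN, hV.mem_nhds hx] with y hy hyV
        by_contra hne
        exact hy (subset_closure ⟨hyV, hne⟩)
    exact hd.trans (closure_minimal hsub isClosed_closure)
  · rintro x (hx | hx)
    · exact h0 x (hVf' x hx.1) hx.2
    · exact h1 x (mem_interior_iff_mem_nhds.mp hx.2)

theorem inv_mem {Om : Set E2} (hO : IsOpen Om) {f : E2 → ℝ} (hf : f ∈ Sm Om) :
    (fun x => (f x)⁻¹) ∈ Sm Om := by
  refine glue_mem hO hf (fun x hx hx0 => hx.inv hx0) (fun x hx => ?_)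
  refine (contDiffAt_const (c := (0 : ℝ))).congr_of_eventuallyEq ?_
  filter_upwards [hx] with y hy
  rw [hy, inv_zero]

theorem sqrt_mem {Om : Set E2} (hO : IsOpen Om) {f : E2 → ℝ} (hf : f ∈ Sm Om) :
    (fun x => Real.sqrt |f x|) ∈ Sm Om := by
  refine glue_mem hO hf (fun x hx hx0 => ?_) (fun x hx => ?_)
  · have habs : ContDiffAt ℝ ∞ (fun y => |f y|) x := by
      have h := (contDiffAt_abs (n := ⊤) hx0).comp x hx
      exact h
    exact habs.sqrt (abs_ne_zero.mpr hx0)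
  · refine (contDiffAt_const (c := (0 : ℝ))).congr_of_eventuallyEq ?_
    filter_upwards [hx] with y hy
    rw [hy, abs_zero, Real.sqrt_zero]

theorem sign_mem {Om : Set E2} (hO : IsOpen Om) {f : E2 → ℝ} (hf : f ∈ Sm Om) :
    (fun x => Real.sign (f x)) ∈ Sm Om := by
  refine glue_mem hO hf (fun x hx hx0 => ?_) (fun x hx => ?_)
  · rcases lt_or_gt_of_ne hx0 with h | h
    · refine (contDiffAt_const (c := (-1 : ℝ))).congr_of_eventuallyEq ?_
      filter_upwards [hx.continuousAt.eventually_lt_const h] with y hy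
      exact Real.sign_of_neg hy
    · refine (contDiffAt_const (c := (1 : ℝ))).congr_of_eventuallyEq ?_
      filter_upwards [hx.continuousAt.eventually_const_lt h] with y hy
      exact Real.sign_of_pos hy
  · refine (contDiffAt_const (c := (0 : ℝ))).congr_of_eventuallyEq ?_
    filter_upwards [hx] with y hy
    rw [hy, Real.sign_zero]

theorem pd_mem {Om : Set E2} {f : E2 → ℝ} (hf : f ∈ Sm Om) (i : Fin 2) :
    pd i f ∈ Sm Om := by
  refine mem_Sm.mpr ((mem_Sm.mp hf).mono fun x hx => ?_)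
  have h1 : ContDiffAt ℝ ∞ (fderiv ℝ f) x := hx.fderiv_right (m := ∞) (by simp)
  exact h1.clm_apply contDiffAt_const

end Pool.Agent.H99.N2
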