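import Pool.Agent.H99.N2.ADense
import Pool.Agent.H99.N2.DF

/-!
# MODULE AField: the differential field of an open set

Proof of `exists_bridge`. R = Sm Om (a commutative ring).  I0 = {f ∈ R | ∀ᶠ x in dfil Om, f x = 0} is
a proper ideal (dfil_neBot); let M be a maximal ideal containing it (`Ideal.exists_le_maximal`),
K = R ⧸ M, a field (`Ideal.Quotient.field`), φ f = class of f if f ∈ R and 0 otherwise (classical).
Char 0: K is a nontrivial ℚ-algebra, or: n : K is the class of the constant n, a unit of R (inverse the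
constant 1/n).
Derivation: for i, del f = class of pd i f (`pd_mem`), del : R → K additive and
del (f g) = [f] del g + [g] del f, because at each point where f and g are smooth pd i is additive and
satisfies the Leibniz rule (the difference is in I0 ⊆ M).  If f ∈ M, e := f * f⁻¹ (pointwise inverse,
0⁻¹ = 0, `inv_mem`) is in M and f = f * e, so del f = [f] del e + [e] del f = 0.  Therefore del
descends to K.
comm: second derivatives are symmetric (`ContDiffAt.isSymmSndFDerivAt`) at each point where f is smooth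
(the set of such points contains an open dense V).
sq: f = sign f * (sqrt |f|)^2 and s = [sign f] satisfies s^3 = s, so s ∈ {0, 1, -1}.
pyth: f^2 + g^2 = (sqrt |f^2+g^2|)^2.
real: if h := f^2 + g^2 ∈ M then h * h⁻¹ ∈ M and f = f * (h * h⁻¹) (pointwise), so f ∈ M.
ne: if f is smooth on Om without zeros then f * f⁻¹ - 1 ∈ I0, so f is not in M.
-/

namespace Pool.Agent.H99.N2

open scoped ContDiff
open Filter

/-- A differential field together with a map from the smooth functions on `Om`. -/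
structure Bridge (Om : Set E2) (K : Type) [Field K] where
  D : DF K
  φ : (E2 → ℝ) → K
  add : ∀ f g : E2 → ℝ, ContDiffOn ℝ ∞ f Om → ContDiffOn ℝ ∞ g Om →
    φ (fun x => f x + g x) = φ f + φ g
  mul : ∀ f g : E2 → ℝ, ContDiffOn ℝ ∞ f Om → ContDiffOn ℝ ∞ g Om →
    φ (fun x => f x * g x) = φ f * φ g
  one : φ (fun _ => 1) = 1
  der : ∀ (i : Fin 2) (f : E2 → ℝ), ContDiffOn ℝ ∞ f Om → φ (pd i f) = D.d i (φ f)
  congr : ∀ f g : E2 → ℝ, ContDiffOn ℝ ∞ f Om → ContDiffOn ℝ ∞ g Om →
    (∀ x ∈ Om, f x = g x) → φ f = φ g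
  ne : ∀ f : E2 → ℝ, ContDiffOn ℝ ∞ f Om → (∀ x ∈ Om, f x ≠ 0) → φ f ≠ 0

private theorem ev_om {Om : Set E2} (hO : IsOpen Om) : ∀ᶠ x in dfil Om, x ∈ Om :=
  (mem_dfil hO).mpr ⟨Om, hO, le_rfl, subset_closure, fun _ hx => hx⟩

private theorem pd_add' {f g : E2 → ℝ} {x : E2} (hf : ContDiffAt ℝ ∞ f x)
    (hg : ContDiffAt ℝ ∞ g x) (i : Fin 2) :
    pd i (fun y => f y + g y) x = pd i f x + pd i g x := by
  unfold pd
  rw [fderiv_fun_add (hf.differentiableAt (by simp)) (hg.differentiableAt (by simp))]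
  rfl

private theorem pd_mul' {f g : E2 → ℝ} {x : E2} (hf : ContDiffAt ℝ ∞ f x)
    (hg : ContDiffAt ℝ ∞ g x) (i : Fin 2) :
    pd i (fun y => f y * g y) x = f x * pd i g x + g x * pd i f x := by
  unfold pd
  rw [fderiv_fun_mul (hf.differentiableAt (by simp)) (hg.differentiableAt (by simp))]
  simp

private theorem pd_comm' {f : E2 → ℝ} {x : E2} (hf : ContDiffAt ℝ ∞ f x) :
    pd 0 (pd 1 f) x = pd 1 (pd 0 f) x := by
  have hs : IsSymmSndFDerivAt ℝ f x := hf.isSymmSndFDerivAt (by simp; exact ENat.LEInfty.out)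
  have hd : DifferentiableAt ℝ (fderiv ℝ f) x :=
    (hf.fderiv_right (m := ∞) (by simp)).differentiableAt (by simp)
  have key : ∀ i j : Fin 2, pd i (pd j f) x =
      fderiv ℝ (fderiv ℝ f) x (EuclideanSpace.single i 1) (EuclideanSpace.single j 1) := by
    intro i j
    have h1 : HasFDerivAt (fun y => fderiv ℝ f y (EuclideanSpace.single j (1 : ℝ)))
        ((fderiv ℝ (fderiv ℝ f) x).flip (EuclideanSpace.single j (1 : ℝ))) x := by
      have := hd.hasFDerivAt.clm_apply (hasFDerivAt_const (EuclideanSpace.single j (1 : ℝ)) x)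
      simpa using this
    unfold pd
    have h2 : fderiv ℝ (fun y => fderiv ℝ f y (EuclideanSpace.single j (1 : ℝ))) x =
      ((fderiv ℝ (fderiv ℝ f) x).flip (EuclideanSpace.single j (1 : ℝ))) := h1.fderiv
    change fderiv ℝ (fun y => fderiv ℝ f y (EuclideanSpace.single j (1 : ℝ))) x
      (EuclideanSpace.single i (1 : ℝ)) = _
    rw [h2]
    rfl
  rw [key, key]
  exact hs _ _

section build

variable {Om : Set E2} {K : Type} [Field K] (π : Sm Om →+* K)

private noncomputable def pdR (i : Fin 2) (f : Sm Om) : Sm Om := ⟨pd i f.1, pd_mem f.2 i⟩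

private theorem pi_congr
    (h0 : ∀ f : Sm Om, (∀ᶠ x in dfil Om, (f : E2 → ℝ) x = 0) → π f = 0) {f g : Sm Om}
    (h : ∀ᶠ x in dfil Om, (f : E2 → ℝ) x = (g : E2 → ℝ) x) : π f = π g := by
  rw [← sub_eq_zero, ← map_sub]
  apply h0
  filter_upwards [h] with x hx
  change (f : E2 → ℝ) x - (g : E2 → ℝ) x = 0
  rw [hx, sub_self]

private theorem pdR_add
    (h0 : ∀ f : Sm Om, (∀ᶠ x in dfil Om, (f : E2 → ℝ) x = 0) → π f = 0) (i : Fin 2)
    (f g : Sm Om) : π (pdR i (f + g)) = π (pdR i f) + π (pdR i g) := by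
  rw [← map_add]
  apply pi_congr π h0
  filter_upwards [mem_Sm.mp f.2, mem_Sm.mp g.2] with x hf hg
  exact pd_add' hf hg i

private theorem pdR_mul
    (h0 : ∀ f : Sm Om, (∀ᶠ x in dfil Om, (f : E2 → ℝ) x = 0) → π f = 0) (i : Fin 2)
    (f g : Sm Om) : π (pdR i (f * g)) = π f * π (pdR i g) + π g * π (pdR i f) := by
  rw [← map_mul, ← map_mul, ← map_add]
  apply pi_congr π h0
  filter_upwards [mem_Sm.mp f.2, mem_Sm.mp g.2] with x hf hg
  exact pd_mul' hf hg i

private theorem pdR_zero (hO : IsOpen Om)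
    (h0 : ∀ f : Sm Om, (∀ᶠ x in dfil Om, (f : E2 → ℝ) x = 0) → π f = 0) (i : Fin 2)
    (f : Sm Om) (hf : π f = 0) : π (pdR i f) = 0 := by
  set g : Sm Om := ⟨fun x => ((f : E2 → ℝ) x)⁻¹, inv_mem hO f.2⟩ with hg
  have h1 : f * (f * g) = f := by
    apply Subtype.ext
    funext x
    change (f : E2 → ℝ) x * ((f : E2 → ℝ) x * ((f : E2 → ℝ) x)⁻¹) = (f : E2 → ℝ) x
    by_cases h : (f : E2 → ℝ) x = 0
    · rw [h]; simp
    · rw [mul_inv_cancel₀ h, mul_one]
  have h2 := pdR_mul π h0 i f (f * g)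
  rw [h1, map_mul, hf] at h2
  rw [h2]; ring

private theorem pdR_congr (hO : IsOpen Om)
    (h0 : ∀ f : Sm Om, (∀ᶠ x in dfil Om, (f : E2 → ℝ) x = 0) → π f = 0) (i : Fin 2)
    (f g : Sm Om) (hf : π f = π g) : π (pdR i f) = π (pdR i g) := by
  have h1 : f = g + (f - g) := by ring
  rw [h1, pdR_add π h0, pdR_zero π hO h0 i (f - g) (by rw [map_sub, hf, sub_self]), add_zero]

private noncomputable def delD (hO : IsOpen Om)
    (h0 : ∀ f : Sm Om, (∀ᶠ x in dfil Om, (f : E2 → ℝ) x = 0) → π f = 0)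
    (hs : Function.Surjective π) (i : Fin 2) : Derivation ℤ K K :=
  Derivation.mk' (AddMonoidHom.toIntLinearMap
    { toFun := fun k => π (pdR i (Function.surjInv hs k))
      map_zero' := by
        apply pdR_zero π hO h0
        exact Function.surjInv_eq hs 0
      map_add' := by
        intro a b
        rw [← pdR_add π h0]
        apply pdR_congr π hO h0
        rw [map_add, Function.surjInv_eq hs, Function.surjInv_eq hs, Function.surjInv_eq hs] })
    (by
      intro a b
      change π (pdR i (Function.surjInv hs (a * b))) =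
        a • π (pdR i (Function.surjInv hs b)) + b • π (pdR i (Function.surjInv hs a))
      rw [pdR_congr π hO h0 i (Function.surjInv hs (a * b))
        (Function.surjInv hs a * Function.surjInv hs b) (by
          rw [map_mul, Function.surjInv_eq hs, Function.surjInv_eq hs, Function.surjInv_eq hs]),
        pdR_mul π h0, Function.surjInv_eq hs, Function.surjInv_eq hs, smul_eq_mul, smul_eq_mul])

private theorem delD_pi (hO : IsOpen Om)
    (h0 : ∀ f : Sm Om, (∀ᶠ x in dfil Om, (f : E2 → ℝ) x = 0) → π f = 0)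
    (hs : Function.Surjective π) (i : Fin 2) (f : Sm Om) :
    delD π hO h0 hs i (π f) = π (pdR i f) := by
  change π (pdR i (Function.surjInv hs (π f))) = π (pdR i f)
  apply pdR_congr π hO h0
  exact Function.surjInv_eq hs _

private noncomputable def dfK (hO : IsOpen Om)
    (h0 : ∀ f : Sm Om, (∀ᶠ x in dfil Om, (f : E2 → ℝ) x = 0) → π f = 0)
    (hs : Function.Surjective π) : DF K where
  d := delD π hO h0 hs
  comm := by
    intro k
    obtain ⟨f, rfl⟩ := hs k
    rw [delD_pi, delD_pi, delD_pi, delD_pi]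
    apply pi_congr π h0
    filter_upwards [mem_Sm.mp f.2] with x hf
    exact pd_comm' hf
  sq := by
    intro a
    obtain ⟨f, rfl⟩ := hs a
    set s : Sm Om := ⟨_, sign_mem hO f.2⟩ with hsd
    set r : Sm Om := ⟨_, sqrt_mem hO f.2⟩ with hrd
    have h1 : f = s * r ^ 2 := by
      apply Subtype.ext
      funext x
      change (f : E2 → ℝ) x = Real.sign ((f : E2 → ℝ) x) * (Real.sqrt |(f : E2 → ℝ) x|) ^ 2
      rw [Real.sq_sqrt (abs_nonneg _)]
      rcases lt_trichotomy ((f : E2 → ℝ) x) 0 with h | h | h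
      · rw [Real.sign_of_neg h, abs_of_neg h]; ring
      · rw [h]; simp
      · rw [Real.sign_of_pos h, abs_of_pos h]; ring
    have h2 : s ^ 3 = s := by
      apply Subtype.ext
      funext x
      change (Real.sign ((f : E2 → ℝ) x)) ^ 3 = Real.sign ((f : E2 → ℝ) x)
      rcases Real.sign_apply_eq ((f : E2 → ℝ) x) with h | h | h <;> rw [h] <;> norm_num
    have h3 : π s ^ 3 = π s := by rw [← map_pow, h2]
    have h4 : π s * ((π s - 1) * (π s + 1)) = 0 := by
      have : π s * ((π s - 1) * (π s + 1)) = π s ^ 3 - π s := by ring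
      rw [this, h3, sub_self]
    have h5 : π f = π s * π r ^ 2 := by
      conv_lhs => rw [h1]
      rw [map_mul, map_pow]
    rcases mul_eq_zero.mp h4 with h | h
    · exact ⟨0, Or.inl (by rw [h5, h]; ring)⟩
    rcases mul_eq_zero.mp h with h | h
    · exact ⟨π r, Or.inl (by rw [h5, sub_eq_zero.mp h, one_mul])⟩
    · exact ⟨π r, Or.inr (by rw [h5, eq_neg_of_add_eq_zero_left h]; ring)⟩
  pyth := by
    intro a b
    obtain ⟨f, rfl⟩ := hs a
    obtain ⟨g, rfl⟩ := hs b
    refine ⟨π ⟨_, sqrt_mem hO (f ^ 2 + g ^ 2).2⟩, ?_⟩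
    rw [← map_pow, ← map_pow, ← map_pow, ← map_add]
    congr 1
    apply Subtype.ext
    funext x
    change (f : E2 → ℝ) x ^ 2 + (g : E2 → ℝ) x ^ 2 =
      (Real.sqrt |(f : E2 → ℝ) x ^ 2 + (g : E2 → ℝ) x ^ 2|) ^ 2
    rw [Real.sq_sqrt (abs_nonneg _), abs_of_nonneg (by positivity)]
  real := by
    intro a b hab
    obtain ⟨f, rfl⟩ := hs a
    obtain ⟨g, rfl⟩ := hs b
    set h : Sm Om := f ^ 2 + g ^ 2 with hh
    set k : Sm Om := ⟨_, inv_mem hO h.2⟩ with hk
    have h1 : f = f * (h * k) := by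
      apply Subtype.ext
      funext x
      change (f : E2 → ℝ) x = (f : E2 → ℝ) x * (((f : E2 → ℝ) x ^ 2 + (g : E2 → ℝ) x ^ 2) *
        ((f : E2 → ℝ) x ^ 2 + (g : E2 → ℝ) x ^ 2)⁻¹)
      by_cases hx : (f : E2 → ℝ) x ^ 2 + (g : E2 → ℝ) x ^ 2 = 0
      · have : (f : E2 → ℝ) x = 0 := by
          have h2 : (f : E2 → ℝ) x ^ 2 ≤ 0 := by nlinarith [sq_nonneg ((g : E2 → ℝ) x)]
          exact pow_eq_zero_iff (two_ne_zero) |>.mp (le_antisymm h2 (sq_nonneg _))
        rw [this]; simp
      · rw [mul_inv_cancel₀ hx, mul_one]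
    rw [h1, map_mul, map_mul, hh, map_add, map_pow, map_pow, hab, zero_mul, mul_zero]

open Classical in
private theorem bridge_of (hO : IsOpen Om)
    (h0 : ∀ f : Sm Om, (∀ᶠ x in dfil Om, (f : E2 → ℝ) x = 0) → π f = 0)
    (hs : Function.Surjective π) : Nonempty (Bridge Om K) := by
  refine ⟨{
    D := dfK π hO h0 hs
    φ := fun f => if h : f ∈ Sm Om then π ⟨f, h⟩ else 0
    add := ?_
    mul := ?_
    one := ?_
    der := ?_
    congr := ?_
    ne := ?_ }⟩
  · intro f g hf hg
    have hf' := Sm_of_contDiffOn hO hf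
    have hg' := Sm_of_contDiffOn hO hg
    have hfg : (fun x => f x + g x) ∈ Sm Om := (Sm Om).add_mem hf' hg'
    rw [dif_pos hf', dif_pos hg', dif_pos hfg, ← map_add]
    rfl
  · intro f g hf hg
    have hf' := Sm_of_contDiffOn hO hf
    have hg' := Sm_of_contDiffOn hO hg
    have hfg : (fun x => f x * g x) ∈ Sm Om := (Sm Om).mul_mem hf' hg'
    rw [dif_pos hf', dif_pos hg', dif_pos hfg, ← map_mul]
    rfl
  · have h1 : (fun _ => (1 : ℝ)) ∈ Sm Om := (Sm Om).one_mem
    rw [dif_pos h1]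
    exact map_one π
  · intro i f hf
    have hf' := Sm_of_contDiffOn hO hf
    rw [dif_pos hf', dif_pos (pd_mem hf' i)]
    exact (delD_pi π hO h0 hs i ⟨f, hf'⟩).symm
  · intro f g hf hg h
    have hf' := Sm_of_contDiffOn hO hf
    have hg' := Sm_of_contDiffOn hO hg
    rw [dif_pos hf', dif_pos hg']
    apply pi_congr π h0
    filter_upwards [ev_om hO] with x hx
    exact h x hx
  · intro f hf h
    have hf' := Sm_of_contDiffOn hO hf
    rw [dif_pos hf']
    intro h1
    have h2 : π ⟨f, hf'⟩ * π ⟨_, inv_mem hO hf'⟩ = 1 := by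
      rw [← map_mul, ← map_one π]
      apply pi_congr π h0
      filter_upwards [ev_om hO] with x hx
      change f x * (f x)⁻¹ = 1
      exact mul_inv_cancel₀ (h x hx)
    rw [h1, zero_mul] at h2
    exact zero_ne_one h2

private theorem charZero_of (π : Sm Om →+* K) : CharZero K := by
  apply charZero_of_inj_zero
  intro n hn
  by_contra hne
  have h1 : ((n : Sm Om) : E2 → ℝ) = fun _ => (n : ℝ) := by
    funext x
    simp
  set c : Sm Om := ⟨fun _ => ((n : ℝ))⁻¹, by
    change ∀ᶠ x in dfil Om, ContDiffAt ℝ ∞ (fun _ => ((n : ℝ))⁻¹) x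
    exact Eventually.of_forall fun x => contDiffAt_const⟩ with hc
  have h2 : (n : Sm Om) * c = 1 := by
    apply Subtype.ext
    funext x
    change ((n : Sm Om) : E2 → ℝ) x * ((n : ℝ))⁻¹ = 1
    rw [h1]
    exact mul_inv_cancel₀ (Nat.cast_ne_zero.mpr hne)
  have h3 : (n : K) * π c = 1 := by
    rw [← map_natCast π, ← map_mul, h2, map_one]
  rw [hn, zero_mul] at h3
  exact zero_ne_one h3

end build

theorem exists_bridge (Om : Set E2) (hO : IsOpen Om) (hne : Om.Nonempty) :
    ∃ (K : Type) (_ : Field K) (_ : CharZero K), Nonempty (Bridge Om K) := by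
  let I0 : Ideal (Sm Om) :=
    { carrier := {f | ∀ᶠ x in dfil Om, (f : E2 → ℝ) x = 0}
      add_mem' := by
        intro f g hf hg
        have hf' : ∀ᶠ x in dfil Om, (f : E2 → ℝ) x = 0 := hf
        have hg' : ∀ᶠ x in dfil Om, (g : E2 → ℝ) x = 0 := hg
        change ∀ᶠ x in dfil Om, (f : E2 → ℝ) x + (g : E2 → ℝ) x = 0
        filter_upwards [hf', hg'] with x h1 h2
        rw [h1, h2, add_zero]
      zero_mem' := by
        change ∀ᶠ x in dfil Om, (0 : ℝ) = 0
        exact Eventually.of_forall fun _ => rfl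
      smul_mem' := by
        intro c f hf
        have hf' : ∀ᶠ x in dfil Om, (f : E2 → ℝ) x = 0 := hf
        change ∀ᶠ x in dfil Om, (c : E2 → ℝ) x * (f : E2 → ℝ) x = 0
        filter_upwards [hf'] with x h1
        rw [h1, mul_zero] }
  have hI : I0 ≠ ⊤ := by
    intro h
    have h1 : (1 : Sm Om) ∈ I0 := by rw [h]; exact Submodule.mem_top
    have h2 : ∀ᶠ x in dfil Om, (1 : ℝ) = 0 := h1
    have := dfil_neBot hO hne
    obtain ⟨x, hx⟩ := h2.exists
    exact one_ne_zero hx
  obtain ⟨M, hM, hIM⟩ := Ideal.exists_le_maximal I0 hI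
  let : Field (Sm Om ⧸ M) := Ideal.Quotient.field M
  let π : Sm Om →+* (Sm Om ⧸ M) := Ideal.Quotient.mk M
  refine ⟨Sm Om ⧸ M, inferInstance, charZero_of π, bridge_of π hO ?_ Ideal.Quotient.mk_surjective⟩
  intro f hf
  exact Ideal.Quotient.eq_zero_iff_mem.mpr (hIM hf)

end Pool.Agent.H99.N2
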