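import Pool.Agent.H99.N2.Defs

/-!
# MODULE ANor: metric and normal part of a parametrised surface

Proofs. `IsSurface` at x ∈ Om: pd 0 X x, pd 1 X x are linearly independent (fderiv injective, the two
basis vectors of E2 are independent), so by Cauchy-Schwarz (strict) det g > 0.  `metric_inv`:
`Matrix.inv_def`, `Matrix.adjugate_fin_two`, `Matrix.det_fin_two`, `Ring.inverse_eq_inv`.
`normalPart_eq`: w := v - Σ_ij g^ij <X_i, v> X_j is orthogonal to X_0 and X_1 (so in the orthogonal
complement of the span) and v - w is in the tangent plane: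
`Submodule.eq_starProjection_of_mem_orthogonal` or similar.
Smoothness: pd i X is smooth on Om (fderiv), inner products, inverse of the nonvanishing determinant,
square root of the positive determinant.
-/

namespace Pool.Agent.H99.N2

open scoped ContDiff

private theorem ANor_pd {F : Type} [NormedAddCommGroup F] [NormedSpace ℝ F] {Om : Set E2}
    (hO : IsOpen Om) {f : E2 → F} (hf : ContDiffOn ℝ ∞ f Om) (i : Fin 2) :
    ContDiffOn ℝ ∞ (pd i f) Om := by
  unfold pd
  exact (hf.fderiv_of_isOpen hO (by simp)).clm_apply contDiffOn_const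

private theorem ANor_symm (X : E2 → E4) (x : E2) : metric X x 1 0 = metric X x 0 1 := by
  unfold metric
  rw [Matrix.of_apply, Matrix.of_apply, real_inner_comm]

private theorem ANor_app (X : E2 → E4) (x : E2) (i j : Fin 2) :
    metric X x i j = inner ℝ (pd i X x) (pd j X x) := rfl

theorem metric_det_pos {Om : Set E2} {X : E2 → E4} (hX : IsSurface X Om) {x : E2} (hx : x ∈ Om) :
    0 < (metric X x).det := by
  rw [Matrix.det_fin_two, ANor_symm]
  by_contra hle
  push Not at hle
  set a := metric X x 0 0 with ha
  set b := metric X x 0 1 with hb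
  set c := metric X x 1 1 with hc
  have hc0 : 0 ≤ c := by rw [hc, ANor_app]; exact real_inner_self_nonneg
  have hw : inner ℝ (c • pd 0 X x - b • pd 1 X x) (c • pd 0 X x - b • pd 1 X x) =
      c * (a * c - b * b) := by
    rw [inner_sub_left, inner_sub_right, inner_sub_right, real_inner_smul_left,
      real_inner_smul_left, real_inner_smul_left, real_inner_smul_left, real_inner_smul_right,
      real_inner_smul_right, real_inner_smul_right, real_inner_smul_right, ← ANor_app, ← ANor_app,
      ← ANor_app, ← ANor_app, ANor_symm, ← ha, ← hb, ← hc]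
    ring
  have hw0 : c • pd 0 X x - b • pd 1 X x = 0 := by
    have h1 : inner ℝ (c • pd 0 X x - b • pd 1 X x) (c • pd 0 X x - b • pd 1 X x) ≤ (0 : ℝ) := by
      rw [hw]
      exact mul_nonpos_of_nonneg_of_nonpos hc0 hle
    exact inner_self_eq_zero.mp (le_antisymm h1 real_inner_self_nonneg)
  have hinj := hX.2 x hx
  have hf : fderiv ℝ X x (c • EuclideanSpace.single 0 1 - b • EuclideanSpace.single 1 1) = 0 := by
    rw [map_sub, map_smul, map_smul]
    exact hw0
  have h2 : (c • EuclideanSpace.single 0 1 - b • EuclideanSpace.single 1 1 : E2) = 0 :=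
    hinj (by rw [hf, map_zero])
  have h3 : c = 0 := by
    have h4 := congrArg (fun v : E2 => v 0) h2
    simpa using h4
  have h5 : pd 1 X x = 0 := by
    rw [hc, ANor_app] at h3
    exact inner_self_eq_zero.mp h3
  have h6 : (EuclideanSpace.single 1 1 : E2) = 0 :=
    hinj (by rw [map_zero]; exact h5)
  have h7 := congrArg (fun v : E2 => v 1) h6
  simp at h7

theorem metric_det (X : E2 → E4) (x : E2) :
    (metric X x).det = metric X x 0 0 * metric X x 1 1 - metric X x 0 1 ^ 2 := by
  rw [Matrix.det_fin_two, ANor_symm]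
  ring

theorem metric_inv {Om : Set E2} {X : E2 → E4} (hX : IsSurface X Om) {x : E2} (hx : x ∈ Om)
    (i j : Fin 2) :
    (metric X x)⁻¹ i j = !![metric X x 1 1, -metric X x 0 1; -metric X x 0 1, metric X x 0 0] i j
      / (metric X x).det := by
  have hD := metric_det_pos hX hx
  rw [Matrix.inv_def, Matrix.adjugate_fin_two, ANor_symm, Ring.inverse_eq_inv]
  rw [Matrix.smul_apply, smul_eq_mul, div_eq_inv_mul]

theorem normalPart_eq {Om : Set E2} {X : E2 → E4} (hX : IsSurface X Om) {x : E2} (hx : x ∈ Om)
    (v : E4) :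
    normalPart X x v = v - ∑ i, ∑ j, ((metric X x)⁻¹ i j * inner ℝ (pd i X x) v) • pd j X x := by
  have hD := metric_det_pos hX hx
  have hD' := metric_det X x
  unfold normalPart
  rw [Submodule.starProjection_orthogonal_val]
  congr 1
  apply Submodule.eq_starProjection_of_mem_orthogonal
  · apply Submodule.sum_mem
    intro i _
    apply Submodule.sum_mem
    intro j _
    exact Submodule.smul_mem _ _ (Submodule.subset_span ⟨j, rfl⟩)
  · rw [Submodule.mem_orthogonal']
    intro w hw
    unfold tangentPlane at hw
    induction hw using Submodule.span_induction with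
    | mem w hw =>
      obtain ⟨k, rfl⟩ := hw
      simp only [Fin.sum_univ_two, metric_inv hX hx]
      rw [inner_sub_left, inner_add_left, inner_add_left, inner_add_left]
      simp only [real_inner_smul_left]
      rw [← ANor_app, ← ANor_app]
      have hne := hD.ne'
      fin_cases k
      · simp only [Fin.zero_eta, Fin.isValue, Matrix.of_apply, Matrix.cons_val', Matrix.cons_val_zero,
          Matrix.cons_val_one, Matrix.cons_val_fin_one]
        rw [real_inner_comm v (pd 0 X x), ANor_symm]
        have key : (metric X x).det⁻¹ * (metric X x 0 0 * metric X x 1 1 - metric X x 0 1 ^ 2) = 1 := by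
          rw [← hD', inv_mul_cancel₀ hne]
        simp only [div_eq_mul_inv]
        linear_combination (-(inner ℝ v (pd 0 X x))) * key
      · simp only [Fin.mk_one, Fin.isValue, Matrix.of_apply, Matrix.cons_val', Matrix.cons_val_zero,
          Matrix.cons_val_one, Matrix.cons_val_fin_one]
        rw [real_inner_comm v (pd 1 X x)]
        have key : (metric X x).det⁻¹ * (metric X x 0 0 * metric X x 1 1 - metric X x 0 1 ^ 2) = 1 := by
          rw [← hD', inv_mul_cancel₀ hne]
        simp only [div_eq_mul_inv]
        linear_combination (-(inner ℝ v (pd 1 X x))) * key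
    | zero => exact inner_zero_right _
    | add u w _ _ hu hw => rw [inner_add_right, hu, hw, add_zero]
    | smul r u _ hu => rw [real_inner_smul_right, hu, mul_zero]

theorem normalPart_mem (X : E2 → E4) (x : E2) (v : E4) :
    normalPart X x v ∈ (tangentPlane X x)ᗮ := by
  unfold normalPart
  exact Submodule.coe_mem _

theorem contDiffOn_metric {Om : Set E2} (hO : IsOpen Om) {X : E2 → E4} (hX : IsSurface X Om)
    (i j : Fin 2) : ContDiffOn ℝ ∞ (fun x => metric X x i j) Om := by
  exact (ANor_pd hO hX.1 i).inner ℝ (ANor_pd hO hX.1 j)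

theorem contDiffOn_metric_inv {Om : Set E2} (hO : IsOpen Om) {X : E2 → E4} (hX : IsSurface X Om)
    (i j : Fin 2) : ContDiffOn ℝ ∞ (fun x => (metric X x)⁻¹ i j) Om := by
  have h00 := contDiffOn_metric hO hX 0 0
  have h01 := contDiffOn_metric hO hX 0 1
  have h11 := contDiffOn_metric hO hX 1 1
  have hdet : ContDiffOn ℝ ∞ (fun x => (metric X x).det) Om := by
    apply ((h00.mul h11).sub (h01.pow 2)).congr
    intro x _
    exact metric_det X x
  have hne : ∀ x ∈ Om, (metric X x).det ≠ 0 := fun x hx => (metric_det_pos hX hx).ne'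
  have hform : ∀ x ∈ Om, (metric X x)⁻¹ i j =
      !![metric X x 1 1, -metric X x 0 1; -metric X x 0 1, metric X x 0 0] i j
      / (metric X x).det := fun x hx => metric_inv hX hx i j
  apply ContDiffOn.congr _ hform
  apply ContDiffOn.div _ hdet hne
  fin_cases i <;> fin_cases j
  · exact h11
  · exact h01.neg
  · exact h01.neg
  · exact h00

theorem contDiffOn_sqrt_det {Om : Set E2} (hO : IsOpen Om) {X : E2 → E4} (hX : IsSurface X Om) :
    ContDiffOn ℝ ∞ (fun x => Real.sqrt (metric X x).det) Om := by
  have h00 := contDiffOn_metric hO hX 0 0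
  have h01 := contDiffOn_metric hO hX 0 1
  have h11 := contDiffOn_metric hO hX 1 1
  have hdet : ContDiffOn ℝ ∞ (fun x => (metric X x).det) Om := by
    apply ((h00.mul h11).sub (h01.pow 2)).congr
    intro x _
    exact metric_det X x
  exact hdet.sqrt (fun x hx => (metric_det_pos hX hx).ne')

theorem contDiffOn_normalPart {Om : Set E2} (hO : IsOpen Om) {X : E2 → E4} (hX : IsSurface X Om)
    {v : E2 → E4} (hv : ContDiffOn ℝ ∞ v Om) :
    ContDiffOn ℝ ∞ (fun x => normalPart X x (v x)) Om := by
  have hform : ∀ x ∈ Om, normalPart X x (v x) =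
      v x - ∑ i, ∑ j, ((metric X x)⁻¹ i j * inner ℝ (pd i X x) (v x)) • pd j X x :=
    fun x hx => normalPart_eq hX hx (v x)
  apply ContDiffOn.congr _ hform
  apply hv.sub
  apply ContDiffOn.sum
  intro i _
  apply ContDiffOn.sum
  intro j _
  exact ((contDiffOn_metric_inv hO hX i j).mul ((ANor_pd hO hX.1 i).inner ℝ hv)).smul
    (ANor_pd hO hX.1 j)

theorem contDiffOn_meanCurv {Om : Set E2} (hO : IsOpen Om) {X : E2 → E4} (hX : IsSurface X Om) :
    ContDiffOn ℝ ∞ (meanCurv X) Om := by
  unfold meanCurv
  apply ContDiffOn.const_smul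
  apply ContDiffOn.sum
  intro i _
  apply ContDiffOn.sum
  intro j _
  exact (contDiffOn_metric_inv hO hX i j).smul
    (contDiffOn_normalPart hO hX (ANor_pd hO (ANor_pd hO hX.1 j) i))

end Pool.Agent.H99.N2
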