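import Pool.Agent.H99.N2.ATr
import Pool.Agent.H99.N2.ANor

/-!
# MODULE AImm: from a surface in E^4 to a surface over the differential field

Proofs: Φ commutes with all the constructions (module ATr) and the smoothness is in ANor; on Om the
function level formulas `metric_inv`, `normalPart_eq` have the same shape as `gi`, `norK`.
B.φ (sqrt det)^2 = gdet and ≠ 0 (B.ne).
Recall lap X f x = -((sqrt det)⁻¹ • Σ_i pd i (Σ_j (sqrt det * g^ij) • pd j f)) and lapK.
-/

namespace Pool.Agent.H99.N2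

open scoped ContDiff
open Matrix

variable {Om : Set E2} {K : Type} [Field K]

private theorem aimm_det_smooth (hO : IsOpen Om) {X : E2 → E4} (hX : IsSurface X Om) :
    ContDiffOn ℝ ∞ (fun x => (metric X x).det) Om := by
  have h : (fun x => (metric X x).det)
      = fun x => metric X x 0 0 * metric X x 1 1 - metric X x 0 1 * metric X x 0 1 := by
    funext x
    rw [metric_det, sq]
  rw [h]
  exact ((contDiffOn_metric hO hX 0 0).mul (contDiffOn_metric hO hX 1 1)).sub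
    ((contDiffOn_metric hO hX 0 1).mul (contDiffOn_metric hO hX 0 1))

theorem φ_metric (B : Bridge Om K) (hO : IsOpen Om) {X : E2 → E4} (hX : IsSurface X Om)
    (i j : Fin 2) : B.φ (fun x => metric X x i j) = gm B.D (B.Φ X) i j := by
  have h := B.φ_inner (contDiffOn_pd hO hX.1 i) (contDiffOn_pd hO hX.1 j)
  rw [B.Φ_pd hO hX.1 i, B.Φ_pd hO hX.1 j] at h
  exact h

theorem φ_det (B : Bridge Om K) (hO : IsOpen Om) {X : E2 → E4} (hX : IsSurface X Om) :
    B.φ (fun x => (metric X x).det) = gdet B.D (B.Φ X) := by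
  have h : (fun x => (metric X x).det)
      = fun x => metric X x 0 0 * metric X x 1 1 - metric X x 0 1 * metric X x 0 1 := by
    funext x
    rw [metric_det, sq]
  have h00 := contDiffOn_metric hO hX 0 0
  have h11 := contDiffOn_metric hO hX 1 1
  have h01 := contDiffOn_metric hO hX 0 1
  rw [h, B.sub (h00.mul h11) (h01.mul h01), B.mul _ _ h00 h11, B.mul _ _ h01 h01,
    φ_metric B hO hX, φ_metric B hO hX, φ_metric B hO hX, gdet, sq]

theorem φ_metric_inv (B : Bridge Om K) (hO : IsOpen Om) {X : E2 → E4} (hX : IsSurface X Om)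
    (i j : Fin 2) : B.φ (fun x => (metric X x)⁻¹ i j) = gi B.D (B.Φ X) i j := by
  have h00 := contDiffOn_metric hO hX 0 0
  have h11 := contDiffOn_metric hO hX 1 1
  have h01 := contDiffOn_metric hO hX 0 1
  have hd := aimm_det_smooth hO hX
  have hdn : ∀ x ∈ Om, (metric X x).det ≠ 0 := fun x hx => (metric_det_pos hX hx).ne'
  have hdi : ContDiffOn ℝ ∞ (fun x => ((metric X x).det)⁻¹) Om := hd.inv hdn
  have key : ∀ f : E2 → ℝ, ContDiffOn ℝ ∞ f Om →
      (∀ x ∈ Om, (metric X x)⁻¹ i j = f x * ((metric X x).det)⁻¹) →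
      B.φ (fun x => (metric X x)⁻¹ i j) = B.φ f / gdet B.D (B.Φ X) := by
    intro f hf h
    rw [B.congr _ (fun x => f x * ((metric X x).det)⁻¹) (contDiffOn_metric_inv hO hX i j)
      (hf.mul hdi) h, B.mul _ _ hf hdi, B.inv hd hdn, φ_det B hO hX, div_eq_mul_inv]
  fin_cases i <;> fin_cases j
  · rw [key (fun x => metric X x 1 1) h11 (fun x hx => by
      rw [metric_inv hX hx, div_eq_mul_inv]; rfl), φ_metric B hO hX]
    rfl
  · rw [key (fun x => -metric X x 0 1) h01.neg (fun x hx => by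
      rw [metric_inv hX hx, div_eq_mul_inv]; rfl), B.neg h01, φ_metric B hO hX]
    rfl
  · rw [key (fun x => -metric X x 0 1) h01.neg (fun x hx => by
      rw [metric_inv hX hx, div_eq_mul_inv]; rfl), B.neg h01, φ_metric B hO hX]
    rfl
  · rw [key (fun x => metric X x 0 0) h00 (fun x hx => by
      rw [metric_inv hX hx, div_eq_mul_inv]; rfl), φ_metric B hO hX]
    rfl

theorem Φ_normalPart (B : Bridge Om K) (hO : IsOpen Om) {X : E2 → E4} (hX : IsSurface X Om)
    {v : E2 → E4} (hv : ContDiffOn ℝ ∞ v Om) :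
    B.Φ (fun x => normalPart X x (v x)) = norK B.D (B.Φ X) (B.Φ v) := by
  have hpd : ∀ i : Fin 2, ContDiffOn ℝ ∞ (fun x => pd i X x) Om := fun i =>
    contDiffOn_pd hO hX.1 i
  have hin : ∀ i : Fin 2, ContDiffOn ℝ ∞ (fun x => (inner ℝ (pd i X x) (v x) : ℝ)) Om :=
    fun i => (hpd i).inner ℝ hv
  have hco : ∀ i j : Fin 2,
      ContDiffOn ℝ ∞ (fun x => (metric X x)⁻¹ i j * (inner ℝ (pd i X x) (v x) : ℝ)) Om :=
    fun i j => (contDiffOn_metric_inv hO hX i j).mul (hin i)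
  have hte : ∀ i j : Fin 2, ContDiffOn ℝ ∞ (fun x =>
      ((metric X x)⁻¹ i j * (inner ℝ (pd i X x) (v x) : ℝ)) • pd j X x) Om :=
    fun i j => (hco i j).smul (hpd j)
  have hsj : ∀ i : Fin 2, ContDiffOn ℝ ∞ (fun x =>
      ∑ j, ((metric X x)⁻¹ i j * (inner ℝ (pd i X x) (v x) : ℝ)) • pd j X x) Om :=
    fun i => ContDiffOn.sum fun j _ => hte i j
  have hsum : ContDiffOn ℝ ∞ (fun x =>
      ∑ i, ∑ j, ((metric X x)⁻¹ i j * (inner ℝ (pd i X x) (v x) : ℝ)) • pd j X x) Om :=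
    ContDiffOn.sum fun i _ => hsj i
  rw [B.Φ_congr (contDiffOn_normalPart hO hX hv) (hv.sub hsum)
    (fun x hx => normalPart_eq hX hx (v x)), B.Φ_sub hv hsum, norK,
    B.Φ_sum Finset.univ _ (fun i _ => hsj i)]
  congr 1
  refine Finset.sum_congr rfl fun i _ => ?_
  rw [B.Φ_sum Finset.univ _ (fun j _ => hte i j)]
  refine Finset.sum_congr rfl fun j _ => ?_
  rw [B.Φ_smul (hco i j) (hpd j), B.mul _ _ (contDiffOn_metric_inv hO hX i j) (hin i),
    φ_metric_inv B hO hX, B.φ_inner (hpd i) hv]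
  have hi := B.Φ_pd hO hX.1 i
  have hj := B.Φ_pd hO hX.1 j
  rw [← hi, ← hj]

theorem Φ_meanCurv (B : Bridge Om K) (hO : IsOpen Om) {X : E2 → E4} (hX : IsSurface X Om) :
    (2 : K) • B.Φ (meanCurv X) = trK B.D (B.Φ X) := by
  have hpd : ∀ i : Fin 2, ContDiffOn ℝ ∞ (pd i X) Om := fun i =>
    contDiffOn_pd hO hX.1 i
  have hpp : ∀ i j : Fin 2, ContDiffOn ℝ ∞ (pd i (pd j X)) Om := fun i j =>
    contDiffOn_pd hO (hpd j) i
  have hnp : ∀ i j : Fin 2,
      ContDiffOn ℝ ∞ (fun x => normalPart X x (pd i (pd j X) x)) Om :=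
    fun i j => contDiffOn_normalPart hO hX (hpp i j)
  have hte : ∀ i j : Fin 2, ContDiffOn ℝ ∞ (fun x =>
      (metric X x)⁻¹ i j • normalPart X x (pd i (pd j X) x)) Om :=
    fun i j => (contDiffOn_metric_inv hO hX i j).smul (hnp i j)
  have hsj : ∀ i : Fin 2, ContDiffOn ℝ ∞ (fun x =>
      ∑ j, (metric X x)⁻¹ i j • normalPart X x (pd i (pd j X) x)) Om :=
    fun i => ContDiffOn.sum fun j _ => hte i j
  have hsum : ContDiffOn ℝ ∞ (fun x =>
      ∑ i, ∑ j, (metric X x)⁻¹ i j • normalPart X x (pd i (pd j X) x)) Om :=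
    ContDiffOn.sum fun i _ => hsj i
  have h2 : (2 : K) • B.Φ (meanCurv X) = B.Φ (fun x => (2 : ℝ) • meanCurv X x) := by
    rw [B.Φ_smul (contDiffOn_const (c := (2 : ℝ))) (contDiffOn_meanCurv hO hX), B.two]
  have h3 : B.Φ (fun x => (2 : ℝ) • meanCurv X x) = B.Φ (fun x =>
      ∑ i, ∑ j, (metric X x)⁻¹ i j • normalPart X x (pd i (pd j X) x)) := by
    congr 1
    funext x
    rw [meanCurv, smul_smul]
    norm_num
  rw [h2, h3, B.Φ_sum Finset.univ _ (fun i _ => hsj i), trK]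
  refine Finset.sum_congr rfl fun i _ => ?_
  rw [B.Φ_sum Finset.univ _ (fun j _ => hte i j)]
  refine Finset.sum_congr rfl fun j _ => ?_
  rw [B.Φ_smul (contDiffOn_metric_inv hO hX i j) (hnp i j), φ_metric_inv B hO hX,
    Φ_normalPart B hO hX (hpp i j), B.Φ_pd hO (hpd j) i, B.Φ_pd hO hX.1 j]

/-- the square root of the determinant of the metric -/
noncomputable def delK (B : Bridge Om K) (X : E2 → E4) : K :=
  B.φ (fun x => Real.sqrt (metric X x).det)

theorem delK_sq (B : Bridge Om K) (hO : IsOpen Om) {X : E2 → E4} (hX : IsSurface X Om) :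
    delK B X ^ 2 = gdet B.D (B.Φ X) := by
  have hs := contDiffOn_sqrt_det hO hX
  rw [← φ_det B hO hX, sq, delK, ← B.mul _ _ hs hs]
  exact B.congr _ _ (hs.mul hs) (aimm_det_smooth hO hX)
    (fun x hx => Real.mul_self_sqrt (metric_det_pos hX hx).le)

private theorem aimm_sqrt_ne {X : E2 → E4} (hX : IsSurface X Om) :
    ∀ x ∈ Om, Real.sqrt (metric X x).det ≠ 0 :=
  fun _ hx => (Real.sqrt_pos.2 (metric_det_pos hX hx)).ne'

theorem delK_ne (B : Bridge Om K) (hO : IsOpen Om) {X : E2 → E4} (hX : IsSurface X Om) :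
    delK B X ≠ 0 :=
  B.ne _ (contDiffOn_sqrt_det hO hX) (aimm_sqrt_ne hX)

private theorem aimm_in (hO : IsOpen Om) {X : E2 → E4} (hX : IsSurface X Om) {f : E2 → E4}
    (hf : ContDiffOn ℝ ∞ f Om) (i : Fin 2) : ContDiffOn ℝ ∞ (fun y => ∑ j,
    (Real.sqrt (metric X y).det * (metric X y)⁻¹ i j) • pd j f y) Om :=
  ContDiffOn.sum fun j _ => ((contDiffOn_sqrt_det hO hX).mul
    (contDiffOn_metric_inv hO hX i j)).smul (contDiffOn_pd hO hf j)

private theorem aimm_out (hO : IsOpen Om) {X : E2 → E4} (hX : IsSurface X Om) {f : E2 → E4}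
    (hf : ContDiffOn ℝ ∞ f Om) : ContDiffOn ℝ ∞ (fun x => ∑ i, pd i (fun y => ∑ j,
    (Real.sqrt (metric X y).det * (metric X y)⁻¹ i j) • pd j f y) x) Om :=
  ContDiffOn.sum fun i _ => contDiffOn_pd hO (aimm_in hO hX hf i) i

private theorem aimm_sqrt_inv (hO : IsOpen Om) {X : E2 → E4} (hX : IsSurface X Om) :
    ContDiffOn ℝ ∞ (fun x => (Real.sqrt (metric X x).det)⁻¹) Om :=
  (contDiffOn_sqrt_det hO hX).inv (aimm_sqrt_ne hX)

theorem contDiffOn_lap (hO : IsOpen Om) {X : E2 → E4} (hX : IsSurface X Om) {f : E2 → E4}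
    (hf : ContDiffOn ℝ ∞ f Om) : ContDiffOn ℝ ∞ (lap X f) Om :=
  ((aimm_sqrt_inv hO hX).smul (aimm_out hO hX hf)).neg

theorem Φ_lap (B : Bridge Om K) (hO : IsOpen Om) {X : E2 → E4} (hX : IsSurface X Om)
    {f : E2 → E4} (hf : ContDiffOn ℝ ∞ f Om) (k : Fin 4) :
    B.Φ (lap X f) k = lapK B.D (B.Φ X) (delK B X) (B.Φ f k) := by
  have hneg : B.Φ (lap X f) = -(B.φ (fun x => (Real.sqrt (metric X x).det)⁻¹) •
      B.Φ (fun x => ∑ i, pd i (fun y => ∑ j,
        (Real.sqrt (metric X y).det * (metric X y)⁻¹ i j) • pd j f y) x)) := by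
    rw [← B.Φ_smul (aimm_sqrt_inv hO hX) (aimm_out hO hX hf)]
    funext l
    exact B.neg (contDiffOn_comp ((aimm_sqrt_inv hO hX).smul (aimm_out hO hX hf)) l)
  rw [hneg, B.inv (contDiffOn_sqrt_det hO hX) (aimm_sqrt_ne hX),
    B.Φ_sum Finset.univ _ (fun i _ => contDiffOn_pd hO (aimm_in hO hX hf i) i)]
  simp only [lapK, Pi.neg_apply, Pi.smul_apply, Finset.sum_apply, smul_eq_mul]
  rw [show B.φ (fun x => Real.sqrt (metric X x).det) = delK B X from rfl]
  congr 2
  refine Finset.sum_congr rfl fun i _ => ?_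
  rw [B.Φ_pd hO (aimm_in hO hX hf i) i]
  have hte : ∀ j : Fin 2, ContDiffOn ℝ ∞ (fun y =>
      (Real.sqrt (metric X y).det * (metric X y)⁻¹ i j) • pd j f y) Om := fun j =>
    ((contDiffOn_sqrt_det hO hX).mul (contDiffOn_metric_inv hO hX i j)).smul
      (contDiffOn_pd hO hf j)
  rw [B.Φ_sum Finset.univ _ (fun j _ => hte j)]
  show B.D.d i ((∑ j, B.Φ _) k) = _
  rw [Finset.sum_apply]
  congr 1
  refine Finset.sum_congr rfl fun j _ => ?_
  rw [B.Φ_smul ((contDiffOn_sqrt_det hO hX).mul (contDiffOn_metric_inv hO hX i j))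
    (contDiffOn_pd hO hf j), B.mul _ _ (contDiffOn_sqrt_det hO hX)
    (contDiffOn_metric_inv hO hX i j), φ_metric_inv B hO hX]
  have hj := B.Φ_pd hO hf j
  show (B.φ (fun x => Real.sqrt (metric X x).det) * gi B.D (B.Φ X) i j) •
    B.Φ (pd j f) k = _
  rw [hj]
  rfl

/-- The hypothesis of flatness in the form used. -/
theorem exists_imm (B : Bridge Om K) (hO : IsOpen Om) (hne : Om.Nonempty) {X : E2 → E4}
    (hX : IsSurface X Om)
    (hflat : ∀ v : E4, ∀ x ∈ Om, nablaPerp X 0 (nablaPerp X 1 (fun y => normalPart X y v)) x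
      = nablaPerp X 1 (nablaPerp X 0 (fun y => normalPart X y v)) x)
    {c : ℝ} (hc : c ≠ 0) (hH : ∀ x ∈ Om, lap X (meanCurv X) x = c • meanCurv X x) :
    ∃ I : Imm K, I.D = B.D ∧ I.X = B.Φ X := by
  have hm := contDiffOn_meanCurv hO hX
  have hsm2 : ∀ (i : Fin 2) {n : E2 → E4}, ContDiffOn ℝ ∞ n Om →
      ContDiffOn ℝ ∞ (nablaPerp X i n) Om := fun i n hn =>
    contDiffOn_normalPart hO hX (contDiffOn_pd hO hn i)
  have hnab : ∀ (i : Fin 2) {n : E2 → E4}, ContDiffOn ℝ ∞ n Om →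
      B.Φ (nablaPerp X i n) = norK B.D (B.Φ X) (dv (B.D.d i) (B.Φ n)) := by
    intro i n hn
    rw [← B.Φ_pd hO hn i]
    exact Φ_normalPart B hO hX (contDiffOn_pd hO hn i)
  refine ⟨⟨B.D, B.Φ X, delK B X, B.φ (fun _ => c), delK_sq B hO hX, delK_ne B hO hX,
    B.const_ne hne hc, B.const_der c, ?_, ?_⟩, rfl, rfl⟩
  · intro k
    have h1 : B.Φ (lap X (meanCurv X)) = B.φ (fun _ => c) • B.Φ (meanCurv X) := by
      rw [← B.Φ_smul (contDiffOn_const (c := c)) hm]
      exact B.Φ_congr (contDiffOn_lap hO hX hm) ((contDiffOn_const (c := c)).smul hm) hH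
    have h2 := Φ_lap B hO hX hm k
    rw [h1] at h2
    rw [← Φ_meanCurv B hO hX]
    simp only [Pi.smul_apply, smul_eq_mul] at h2 ⊢
    have hlin : ∀ a : K, lapK B.D (B.Φ X) (delK B X) (2 * a)
        = 2 * lapK B.D (B.Φ X) (delK B X) a := by
      intro a
      have h2a : ∀ (j : Fin 2) (b : K), B.D.d j (2 * b) = 2 * B.D.d j b := by
        intro j b
        rw [two_mul, map_add, two_mul]
      simp only [lapK, h2a]
      have : ∀ i : Fin 2, B.D.d i (∑ j, delK B X * gi B.D (B.Φ X) i j * (2 * B.D.d j a))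
          = 2 * B.D.d i (∑ j, delK B X * gi B.D (B.Φ X) i j * B.D.d j a) := by
        intro i
        rw [← h2a, Finset.mul_sum]
        congr 1
        exact Finset.sum_congr rfl fun j _ => by ring
      simp only [this, ← Finset.mul_sum]
      ring
    rw [hlin, ← h2]
    ring
  · intro k
    have hcs : ContDiffOn ℝ ∞ (fun _ : E2 => (EuclideanSpace.single k 1 : E4)) Om :=
      contDiffOn_const
    have hn := contDiffOn_normalPart hO hX hcs
    have e0 := Φ_normalPart B hO hX hcs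
    rw [B.Φ_single k] at e0
    have hh := B.Φ_congr (hsm2 0 (hsm2 1 hn)) (hsm2 1 (hsm2 0 hn))
      (hflat (EuclideanSpace.single k 1))
    rw [hnab 0 (hsm2 1 hn), hnab 1 hn, hnab 1 (hsm2 0 hn), hnab 0 hn, e0] at hh
    exact hh

end Pool.Agent.H99.N2
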