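import Pool.Agent.H99.N2.AlgB

/-!
# Branch A: x, y ≠ 0; the system in the variables X = x^2, Y = y^2, p/y, q/x
-/

namespace Pool.Agent.H99.N2

variable {K : Type} [Field K]

/-- The reduced system; `d1 = e1/x`, `d2 = e2/y`, `p`, `q` stand for `p/y`, `q/x`. -/
structure Ax (K : Type) [Field K] where
  d1 : Derivation ℤ K K
  d2 : Derivation ℤ K K
  xi : K
  eta : K
  p : K
  q : K
  X : K
  Y : K
  W : K
  c : K
  hX : X ≠ 0
  hY : Y ≠ 0
  heta : eta ≠ 0
  hrho : xi ^ 2 + eta ^ 2 ≠ 0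
  hc : c ≠ 0
  hW : W ≠ 0
  hc1 : d1 c = 0
  hc2 : d2 c = 0
  d1W : d1 W = -2 * eta * W
  d2W : d2 W = 2 * eta * W
  d1xi : d1 xi = 2 * q * xi + eta * (1 + 2 * xi)
  d2xi : d2 xi = 2 * p * xi + eta * (1 - 2 * xi)
  d1eta : d1 eta = 2 * q * eta + (2 - xi - xi ^ 2 + eta ^ 2)
  d2eta : d2 eta = 2 * p * eta - (2 + xi - xi ^ 2 + eta ^ 2)
  d2X : eta * d2 X = -2 * eta * q * X - X * (xi ^ 2 + eta ^ 2 - 2 * xi)
  d1Y : eta * d1 Y = -2 * eta * p * Y + Y * (xi ^ 2 + eta ^ 2 + 2 * xi)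
  d1X : 2 * eta * d1 X = -(2 - xi) * (6 * (X + Y) + 3 * xi * (X - Y) + W * (1 + xi ^ 2) / 2 - c)
    + 4 * eta * p * Y + 3 * eta ^ 2 * (X - Y) + W * xi * eta ^ 2 / 2
  d2Y : 2 * eta * d2 Y = (2 + xi) * (6 * (X + Y) + 3 * xi * (X - Y) + W * (1 + xi ^ 2) / 2 - c)
    + 4 * eta * q * X + 3 * eta ^ 2 * (X - Y) + W * xi * eta ^ 2 / 2
  gauss : X * d1 q + Y * d2 p = W * (1 - xi ^ 2 - eta ^ 2) / 4 + p ^ 2 * Y + q ^ 2 * X
    - q * d1 X / 2 - p * d2 Y / 2
  comm : ∀ f : K, 2 * eta * (d1 (d2 f) - d2 (d1 f))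
    = -(2 * eta * (p + q) + (xi ^ 2 + eta ^ 2 - 2 * xi)) * d1 f
      + (2 * eta * (p + q) - (xi ^ 2 + eta ^ 2 + 2 * xi)) * d2 f

theorem smul_der (d : Derivation ℤ K K) (a f : K) : (a • d) f = a * d f := rfl

theorem der_div (d : Derivation ℤ K K) (a b : K) (hb : b ≠ 0) :
    b * d (a / b) = d a - a / b * d b := by
  have h : d (a / b * b) = d a := by rw [div_mul_cancel₀ _ hb]
  rw [der_mul] at h
  linear_combination h

theorem der_inv (d : Derivation ℤ K K) (b : K) (hb : b ≠ 0) :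
    b * d (b⁻¹) = - (b⁻¹ * d b) := by
  have h : d (b⁻¹ * b) = 0 := by rw [inv_mul_cancel₀ hb, der_one]
  rw [der_mul] at h
  linear_combination h

theorem exists_ax [CharZero K] (E : XY K) (hx : E.x ≠ 0) (hy : E.y ≠ 0) :
    Nonempty (Ax K) := by
  obtain ⟨e1, e2, p, q, w, a, b, x, y, c, comm, hc1, hc2, hc, hw, hrho, heta, e1w, e2w, e1xi, e2xi,
    e1eta, e2eta, e2x, e1y, gauss, m1, m2⟩ := E
  simp only at hx hy
  have dp : y * e2 (p / y) = e2 p - p / y * e2 y := der_div e2 p y hy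
  have dq : x * e1 (q / x) = e1 q - q / x * e1 x := der_div e1 q x hx
  have hp : p = p / y * y := by rw [div_mul_cancel₀ _ hy]
  have hq : q = q / x * x := by rw [div_mul_cancel₀ _ hx]
  obtain ⟨P, hP⟩ : ∃ P, P = p / y := ⟨_, rfl⟩
  obtain ⟨Q, hQ⟩ : ∃ Q, Q = q / x := ⟨_, rfl⟩
  rw [← hP] at hp dp
  rw [← hQ] at hq dq
  have hx2 : x * x⁻¹ = 1 := mul_inv_cancel₀ hx
  have hy2 : y * y⁻¹ = 1 := mul_inv_cancel₀ hy
  refine ⟨{
    d1 := x⁻¹ • e1
    d2 := y⁻¹ • e2
    xi := a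
    eta := b
    p := P
    q := Q
    X := x ^ 2
    Y := y ^ 2
    W := w ^ 2
    c := c
    hX := pow_ne_zero 2 hx
    hY := pow_ne_zero 2 hy
    heta := heta
    hrho := hrho
    hc := hc
    hW := pow_ne_zero 2 hw
    hc1 := by rw [smul_der, hc1, mul_zero]
    hc2 := by rw [smul_der, hc2, mul_zero]
    d1W := by
      rw [smul_der, der_sq, e1w]
      linear_combination (-2 * b * w ^ 2) * hx2
    d2W := by
      rw [smul_der, der_sq, e2w]
      linear_combination (2 * b * w ^ 2) * hy2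
    d1xi := by
      rw [smul_der, e1xi, hq]
      linear_combination (2 * Q * a + b * (1 + 2 * a)) * hx2
    d2xi := by
      rw [smul_der, e2xi, hp]
      linear_combination (2 * P * a + b * (1 - 2 * a)) * hy2
    d1eta := by
      rw [smul_der, e1eta, hq]
      linear_combination (2 * Q * b + (2 - a - a ^ 2 + b ^ 2)) * hx2
    d2eta := by
      rw [smul_der, e2eta, hp]
      linear_combination (2 * P * b - (2 + a - a ^ 2 + b ^ 2)) * hy2
    d2X := by
      rw [smul_der, der_sq]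
      rw [hq] at e2x
      linear_combination (x * y⁻¹) * e2x + (-2 * b * Q * x ^ 2 - x ^ 2 * (a ^ 2 + b ^ 2 - 2 * a)) * hy2
    d1Y := by
      rw [smul_der, der_sq]
      rw [hp] at e1y
      linear_combination (y * x⁻¹) * e1y + (-2 * b * P * y ^ 2 + y ^ 2 * (a ^ 2 + b ^ 2 + 2 * a)) * hx2
    d1X := by
      rw [smul_der, der_sq]
      rw [hp, hq] at m1 m2
      linear_combination (4 * b * e1 x) * hx2 + (2 - a) * m1 + b * m2
    d2Y := by
      rw [smul_der, der_sq]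
      rw [hp, hq] at m1 m2
      linear_combination (4 * b * e2 y) * hy2 - (2 + a) * m1 + b * m2
    gauss := by
      rw [smul_der, smul_der, smul_der, smul_der, der_sq, der_sq, hP, hQ]
      rw [← hP, ← hQ]
      have g1 : x ^ 2 * (x⁻¹ * e1 Q) = x * e1 Q := by field_simp
      have g2 : y ^ 2 * (y⁻¹ * e2 P) = y * e2 P := by field_simp
      rw [g1, g2]
      rw [dq, dp]
      linear_combination gauss + (Q * e1 x) * hx2 + (P * e2 y) * hy2 + (p + P * y) * hp
        + (q + Q * x) * hq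
    comm := by
      intro f
      have i1 : e1 (y⁻¹) = -(y⁻¹) ^ 2 * e1 y := by
        apply mul_left_cancel₀ hy
        rw [der_inv e1 y hy]
        linear_combination (y⁻¹ * e1 y) * hy2
      have i2 : e2 (x⁻¹) = -(x⁻¹) ^ 2 * e2 x := by
        apply mul_left_cancel₀ hx
        rw [der_inv e2 x hx]
        linear_combination (x⁻¹ * e2 x) * hx2
      have k1 : 2 * b * (x⁻¹ * e1 (y⁻¹)) = -(y⁻¹) * (-2 * b * P + (a ^ 2 + b ^ 2 + 2 * a)) := by
        rw [i1]
        rw [hp] at e1y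
        field_simp
        linear_combination -e1y
      have k2 : 2 * b * (y⁻¹ * e2 (x⁻¹)) = x⁻¹ * (2 * b * Q + (a ^ 2 + b ^ 2 - 2 * a)) := by
        rw [i2]
        rw [hq] at e2x
        field_simp
        linear_combination -e2x
      rw [smul_der, smul_der, smul_der, smul_der, der_mul, der_mul]
      have hc := comm f
      rw [hp, hq] at hc
      linear_combination (2 * b * x⁻¹ * y⁻¹) * hc + e2 f * k1 - e1 f * k2
        + (-2 * b * P * x⁻¹ * e1 f) * hy2 + (2 * b * Q * y⁻¹ * e2 f) * hx2 }⟩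

end Pool.Agent.H99.N2
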