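import Pool.Agent.H99.N2.AlgA1

/-!
# Branch A: the integrability conditions
-/

namespace Pool.Agent.H99.N2

variable {K : Type} [Field K]

theorem Ax.R0 [CharZero K] (D : Ax K) :
    8 * (D.p + D.q) * D.xi * D.eta = (D.xi ^ 2 + D.eta ^ 2) * (4 - D.xi ^ 2 - D.eta ^ 2) := by
  have h1 := D.comm D.xi
  have h2 := D.comm D.eta
  obtain ⟨d1, d2, a, b, p, q, X, Y, W, c, hX, hY, heta, hrho, hc, hW, hc1, hc2, d1W, d2W, d1a, d2a,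
    d1b, d2b, d2X, d1Y, d1X, d2Y, gauss, comm⟩ := D
  simp only at h1 h2 ⊢
  have e21 : d1 (2 : K) = 0 := der_ofNat d1 2
  have e22 : d2 (2 : K) = 0 := der_ofNat d2 2
  simp only [d1a, d2a, d1b, d2b, map_add, map_sub, der_mul, der_sq, e21, e22, der_one] at h1 h2
  linear_combination (-1 / 2 * b) * h1 + (1 / 2 * a) * h2

theorem Ax.delta [CharZero K] (D : Ax K) :
    2 * D.xi * D.eta * (D.d1 D.p - D.d2 D.q) = 2 * D.xi * D.eta * (D.p ^ 2 - D.q ^ 2)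
      - D.xi * D.p * (D.xi ^ 2 + D.eta ^ 2 + 2 * D.xi)
      - D.xi * D.q * (D.xi ^ 2 + D.eta ^ 2 - 2 * D.xi)
      - D.eta * (4 - D.xi ^ 2 - D.eta ^ 2) := by
  have h1 := D.comm D.xi
  obtain ⟨d1, d2, a, b, p, q, X, Y, W, c, hX, hY, heta, hrho, hc, hW, hc1, hc2, d1W, d2W, d1a, d2a,
    d1b, d2b, d2X, d1Y, d1X, d2Y, gauss, comm⟩ := D
  simp only at h1 ⊢
  have e21 : d1 (2 : K) = 0 := der_ofNat d1 2
  have e22 : d2 (2 : K) = 0 := der_ofNat d2 2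
  simp only [d1a, d2a, d1b, d2b, map_add, map_sub, der_mul, der_sq, e21, e22, der_one] at h1
  linear_combination (1 / 2) * h1

theorem Ax.CX [CharZero K] (D : Ax K) :
    1/2*D.xi^5*D.W + 3*D.xi^4*D.X - 3*D.xi^4*D.Y - D.xi^4*D.W + D.xi^3*D.eta^2*D.W -
      D.xi^3*D.eta*D.p*D.W - 2*D.xi^3*D.X + 12*D.xi^3*D.Y - 3/2*D.xi^3*D.W - D.xi^3*D.c +
      6*D.xi^2*D.eta^2*D.X - 6*D.xi^2*D.eta^2*D.Y - 3/4*D.xi^2*D.eta^2*D.W -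
      2*D.xi^2*D.eta*D.p*D.X + 2*D.xi^2*D.eta*D.p*D.Y + 4*D.xi^2*D.eta*D.q*D.X - 24*D.xi^2*D.X +
      3*D.xi^2*D.W + 2*D.xi^2*D.c + 1/2*D.xi*D.eta^4*D.W - D.xi*D.eta^3*D.p*D.W -
      2*D.xi*D.eta^2*D.X + 12*D.xi*D.eta^2*D.Y + 3*D.xi*D.eta^2*D.W - D.xi*D.eta^2*D.c -
      8*D.xi*D.eta*D.p*D.X + 8*D.xi*D.eta*D.p*D.Y - 16*D.xi*D.eta*D.q*D.X + 8*D.xi*D.X -
      48*D.xi*D.Y - 2*D.xi*D.W + 4*D.xi*D.c + 3*D.eta^4*D.X - 3*D.eta^4*D.Y + 1/4*D.eta^4*D.W -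
      2*D.eta^3*D.p*D.X + 2*D.eta^3*D.p*D.Y + 4*D.eta^3*D.q*D.X + 24*D.eta^2*D.X + 7/4*D.eta^2*D.W
      - 5/2*D.eta^2*D.c - 24*D.eta*D.p*D.X - 24*D.eta*D.p*D.Y - 2*D.eta*D.p*D.W + 4*D.eta*D.p*D.c
      + 48*D.X + 48*D.Y + 4*D.W - 8*D.c = 0 := by
  have hc0 := D.comm D.X
  have h1 := congrArg D.d1 D.d2X
  have h2 := congrArg D.d2 D.d1X
  obtain ⟨d1, d2, a, b, p, q, X, Y, W, c, hX, hY, heta, hrho, hc, hW, hc1, hc2, d1W, d2W, d1a, d2a,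
    d1b, d2b, d2X, d1Y, d1X, d2Y, gauss, comm⟩ := D
  simp only at hc0 h1 h2 ⊢
  have e21 : d1 (2 : K) = 0 := der_ofNat d1 2
  have e22 : d2 (2 : K) = 0 := der_ofNat d2 2
  have e31 : d1 (3 : K) = 0 := der_ofNat d1 3
  have e32 : d2 (3 : K) = 0 := der_ofNat d2 3
  have e41 : d1 (4 : K) = 0 := der_ofNat d1 4
  have e42 : d2 (4 : K) = 0 := der_ofNat d2 4
  have e61 : d1 (6 : K) = 0 := der_ofNat d1 6
  have e62 : d2 (6 : K) = 0 := der_ofNat d2 6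
  have f1 : ∀ f : K, d1 (f / 2) = d1 f / 2 := fun f => by
    have h := der_div d1 f 2 (by norm_num)
    rw [e21] at h
    linear_combination h / 2
  have f2 : ∀ f : K, d2 (f / 2) = d2 f / 2 := fun f => by
    have h := der_div d2 f 2 (by norm_num)
    rw [e22] at h
    linear_combination h / 2
  simp only [d1a, d2a, d1b, d2b, d1W, d2W, hc1, hc2, map_add, map_sub, map_neg, neg_mul, der_mul,
    der_sq, e21, e22, e31, e32, e41, e42, e61, e62, f1, f2, der_one] at h1 h2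
  linear_combination (1/2*b) * hc0 + (-b) * h1 + (1/2*b) * h2
      + (2*b^2) * gauss
      - (1/4*a^2 - 3/4*b^2 + 3/2*b*p - 1) * d1X
      - (2*a - 2*b^2 - b*p - 3*b*q + 4) * d2X
      - (3/4*a^2 - 3*a + 3/4*b^2 - 1/2*b*p + 3) * d2Y

theorem Ax.CY [CharZero K] (D : Ax K) :
    1/2*D.xi^5*D.W + 3*D.xi^4*D.X - 3*D.xi^4*D.Y + D.xi^4*D.W + D.xi^3*D.eta^2*D.W +
      D.xi^3*D.eta*D.q*D.W + 12*D.xi^3*D.X - 2*D.xi^3*D.Y - 3/2*D.xi^3*D.W - D.xi^3*D.c +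
      6*D.xi^2*D.eta^2*D.X - 6*D.xi^2*D.eta^2*D.Y + 3/4*D.xi^2*D.eta^2*D.W +
      4*D.xi^2*D.eta*D.p*D.Y + 2*D.xi^2*D.eta*D.q*D.X - 2*D.xi^2*D.eta*D.q*D.Y + 24*D.xi^2*D.Y -
      3*D.xi^2*D.W - 2*D.xi^2*D.c + 1/2*D.xi*D.eta^4*D.W + D.xi*D.eta^3*D.q*D.W +
      12*D.xi*D.eta^2*D.X - 2*D.xi*D.eta^2*D.Y + 3*D.xi*D.eta^2*D.W - D.xi*D.eta^2*D.c +
      16*D.xi*D.eta*D.p*D.Y - 8*D.xi*D.eta*D.q*D.X + 8*D.xi*D.eta*D.q*D.Y - 48*D.xi*D.X +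
      8*D.xi*D.Y - 2*D.xi*D.W + 4*D.xi*D.c + 3*D.eta^4*D.X - 3*D.eta^4*D.Y - 1/4*D.eta^4*D.W +
      4*D.eta^3*D.p*D.Y + 2*D.eta^3*D.q*D.X - 2*D.eta^3*D.q*D.Y - 24*D.eta^2*D.Y - 7/4*D.eta^2*D.W
      + 5/2*D.eta^2*D.c - 24*D.eta*D.q*D.X - 24*D.eta*D.q*D.Y - 2*D.eta*D.q*D.W + 4*D.eta*D.q*D.c
      - 48*D.X - 48*D.Y - 4*D.W + 8*D.c = 0 := by
  have hc0 := D.comm D.Y
  have h1 := congrArg D.d1 D.d2Y
  have h2 := congrArg D.d2 D.d1Y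
  obtain ⟨d1, d2, a, b, p, q, X, Y, W, c, hX, hY, heta, hrho, hc, hW, hc1, hc2, d1W, d2W, d1a, d2a,
    d1b, d2b, d2X, d1Y, d1X, d2Y, gauss, comm⟩ := D
  simp only at hc0 h1 h2 ⊢
  have e21 : d1 (2 : K) = 0 := der_ofNat d1 2
  have e22 : d2 (2 : K) = 0 := der_ofNat d2 2
  have e31 : d1 (3 : K) = 0 := der_ofNat d1 3
  have e32 : d2 (3 : K) = 0 := der_ofNat d2 3
  have e41 : d1 (4 : K) = 0 := der_ofNat d1 4
  have e42 : d2 (4 : K) = 0 := der_ofNat d2 4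
  have e61 : d1 (6 : K) = 0 := der_ofNat d1 6
  have e62 : d2 (6 : K) = 0 := der_ofNat d2 6
  have f1 : ∀ f : K, d1 (f / 2) = d1 f / 2 := fun f => by
    have h := der_div d1 f 2 (by norm_num)
    rw [e21] at h
    linear_combination h / 2
  have f2 : ∀ f : K, d2 (f / 2) = d2 f / 2 := fun f => by
    have h := der_div d2 f 2 (by norm_num)
    rw [e22] at h
    linear_combination h / 2
  simp only [d1a, d2a, d1b, d2b, d1W, d2W, hc1, hc2, map_add, map_sub, map_neg, neg_mul, der_mul,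
    der_sq, e21, e22, e31, e32, e41, e42, e61, e62, f1, f2, der_one] at h1 h2
  linear_combination (1/2*b) * hc0 + (-1/2*b) * h1 + (b) * h2
      + (-2*b^2) * gauss
      - (3/4*a^2 + 3*a + 3/4*b^2 + 1/2*b*q + 3) * d1X
      - (-2*a - 2*b^2 + 3*b*p + b*q + 4) * d1Y
      - (1/4*a^2 - 3/4*b^2 - 3/2*b*q - 1) * d2Y

theorem Ax.relA [CharZero K] (D : Ax K) (s xe z r u : K) (hs : s = D.X + D.Y)
    (hxe : xe = D.xi * (D.X - D.Y)) (hz : z = D.xi ^ 2) (hr : r = D.xi ^ 2 + D.eta ^ 2)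
    (hu : u = 4 * D.eta * (D.p - D.q)) :
    384*s*z - 8*s*r^2 + 4*s*r*u - 160*s*r + 48*s*u - 768*s + 112*xe*r - 448*xe + 20*D.W*z*r
      - 20*D.W*z - D.W*r^3 - 28*D.W*r + 4*D.W*u - 64*D.W - 72*D.c*z + 40*D.c*r - 8*D.c*u
      + 128*D.c = 0 := by
  subst hs hxe hz hr hu
  linear_combination (-8) * D.CX + 8 * D.CY + (-D.W * (D.xi ^ 2 + D.eta ^ 2)
    - 8 * (D.X + D.Y)) * D.R0

theorem Ax.relB [CharZero K] (D : Ax K) (s xe z r u : K) (hs : s = D.X + D.Y)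
    (hxe : xe = D.xi * (D.X - D.Y)) (hz : z = D.xi ^ 2) (hr : r = D.xi ^ 2 + D.eta ^ 2)
    (hu : u = 4 * D.eta * (D.p - D.q)) :
    40*s*z*r + 8*s*z*u - 160*s*z - s*r^3 + 16*s*r^2 - 48*s*r - 192*xe*z + 32*xe*r^2 - 4*xe*r*u
      + 64*xe*r - 36*D.W*z^2 + 4*D.W*z*r^2 - D.W*z*r*u + 24*D.W*z*r - 16*D.W*z + D.W*r^2
      - 4*D.W*r - 8*D.c*z*r + 32*D.c*z - 2*D.c*r^2 + 8*D.c*r = 0 := by
  subst hs hxe hz hr hu
  linear_combination (4 * D.xi) * D.CX + (4 * D.xi) * D.CY + (-(D.X + D.Y) * (D.xi ^ 2 + D.eta ^ 2)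
    + 8 * D.xi * (D.X - D.Y) + 12 * (D.X + D.Y) + D.W - 2 * D.c) * D.R0

end Pool.Agent.H99.N2
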