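import Pool.Agent.H99.N2.AlgA2

/-!
# Branch A: passage to the variables T, J, C
-/

namespace Pool.Agent.H99.N2

variable {K : Type} [Field K]

theorem convA [CharZero K] (T J C W c s e z r u : K) (h1 : T ≠ 0) (h2 : T + J ≠ 0)
    (h3 : 1 + T ^ 2 ≠ 0) (hz : z = 4 * J / ((T + J) * (1 + T ^ 2))) (hr : r = 4 * J / (T + J))
    (hu : u = 4 * T * (3 * T ^ 3 + C * T ^ 2 + (6 * J ^ 2 + 1) * T - J)
      / ((T + J) ^ 2 * (1 + T ^ 2)))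
    (hA : 384*s*z - 8*s*r^2 + 4*s*r*u - 160*s*r + 48*s*u - 768*s + 112*(z*e)*r - 448*(z*e)
      + 20*W*z*r - 20*W*z - W*r^3 - 28*W*r + 4*W*u - 64*W - 72*c*z + 40*c*r - 8*c*u
      + 128*c = 0) :
    T^4*W - 2*T^4*c + 12*T^4*s + 16*T^3*J*W - 28*T^3*J*c + 136*T^3*J*s - T^3*C*W + 2*T^3*C*c -
      12*T^3*C*s + 20*T^2*J^2*W - 32*T^2*J^2*c + 160*T^2*J^2*s - T^2*J*C*W + 2*T^2*J*C*c -
      16*T^2*J*C*s + 3*T^2*W - 6*T^2*c + 36*T^2*s + 9*T*J^3*W - 6*T*J^3*c + 24*T*J*W - 16*T*J*c +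
      84*T*J*s + 112*T*J*e + 17*J^2*W - 10*J^2*c + 56*J^2*s + 112*J^2*e = 0 := by
  rw [hz, hr, hu] at hA
  field_simp at hA
  have h : T * (T^4*W - 2*T^4*c + 12*T^4*s + 16*T^3*J*W - 28*T^3*J*c + 136*T^3*J*s - T^3*C*W + 2*T^3*C*c -
        12*T^3*C*s + 20*T^2*J^2*W - 32*T^2*J^2*c + 160*T^2*J^2*s - T^2*J*C*W + 2*T^2*J*C*c -
        16*T^2*J*C*s + 3*T^2*W - 6*T^2*c + 36*T^2*s + 9*T*J^3*W - 6*T*J^3*c + 24*T*J*W - 16*T*J*c +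
        84*T*J*s + 112*T*J*e + 17*J^2*W - 10*J^2*c + 56*J^2*s + 112*J^2*e) = 0 := by
    linear_combination (-1 / 16 : K) * hA
  exact (mul_eq_zero.mp h).resolve_left h1

theorem convB [CharZero K] (T J C W c s e z r u : K) (h1 : T ≠ 0) (h2 : T + J ≠ 0)
    (h0 : J ≠ 0)
    (h3 : 1 + T ^ 2 ≠ 0) (hz : z = 4 * J / ((T + J) * (1 + T ^ 2))) (hr : r = 4 * J / (T + J))
    (hu : u = 4 * T * (3 * T ^ 3 + C * T ^ 2 + (6 * J ^ 2 + 1) * T - J)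
      / ((T + J) ^ 2 * (1 + T ^ 2)))
    (hB : 40*s*z*r + 8*s*z*u - 160*s*z - s*r^3 + 16*s*r^2 - 48*s*r - 192*(z*e)*z + 32*(z*e)*r^2
      - 4*(z*e)*r*u + 64*(z*e)*r - 36*W*z^2 + 4*W*z*r^2 - W*z*r*u + 24*W*z*r - 16*W*z + W*r^2
      - 4*W*r - 8*c*z*r + 32*c*z - 2*c*r^2 + 8*c*r = 0) :
    T^6*W - 2*T^6*c + 12*T^6*s + 2*T^5*J*W - 4*T^5*J*c + 20*T^5*J*s + T^4*J^2*W - 2*T^4*J^2*c +
      8*T^4*J^2*s + 6*T^4*W - 12*T^4*c + 40*T^4*s + 4*T^3*J*W - 24*T^3*J*c + 96*T^3*J*s -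
      16*T^3*J*e - 8*T^3*C*s - 50*T^2*J^2*W - 12*T^2*J^2*c + 8*T^2*J^2*s - 256*T^2*J^2*e +
      4*T^2*J*C*W - 8*T^2*J*C*s + 16*T^2*J*C*e + 5*T^2*W - 10*T^2*c + 44*T^2*s - 12*T*J^3*W -
      48*T*J^3*s - 96*T*J^3*e + 30*T*J*W - 20*T*J*c + 100*T*J*s + 144*T*J*e + 17*J^2*W - 10*J^2*c
      + 56*J^2*s + 112*J^2*e = 0 := by
  rw [hz, hr, hu] at hB
  field_simp at hB
  have h : (T * J) * (T^6*W - 2*T^6*c + 12*T^6*s + 2*T^5*J*W - 4*T^5*J*c + 20*T^5*J*s + T^4*J^2*W - 2*T^4*J^2*c +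
        8*T^4*J^2*s + 6*T^4*W - 12*T^4*c + 40*T^4*s + 4*T^3*J*W - 24*T^3*J*c + 96*T^3*J*s -
        16*T^3*J*e - 8*T^3*C*s - 50*T^2*J^2*W - 12*T^2*J^2*c + 8*T^2*J^2*s - 256*T^2*J^2*e +
        4*T^2*J*C*W - 8*T^2*J*C*s + 16*T^2*J*C*e + 5*T^2*W - 10*T^2*c + 44*T^2*s - 12*T*J^3*W -
        48*T*J^3*s - 96*T*J^3*e + 30*T*J*W - 20*T*J*c + 100*T*J*s + 144*T*J*e + 17*J^2*W - 10*J^2*c
        + 56*J^2*s + 112*J^2*e) = 0 := by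
    linear_combination (-1 / 16 : K) * hB
  exact (mul_eq_zero.mp h).resolve_left (mul_ne_zero h1 h0)

end Pool.Agent.H99.N2
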