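import Pool.Agent.H99.N2.AlgA3

/-!
# Branch A: the ordinary differential equations
-/

namespace Pool.Agent.H99.N2

variable {K : Type} [Field K]

/-- The system in the variable `T` (`d` is the derivative with respect to `T`). -/
structure TS (K : Type) [Field K] where
  d : Derivation ℤ K K
  T : K
  J : K
  C : K
  W : K
  c : K
  s : K
  e : K
  hT : T ≠ 0
  hJ : J ≠ 0
  hTJ : T + J ≠ 0
  dT : d T = 1
  dJ : d J = 0
  dC : d C = 0
  dW : d W = 0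
  dc : d c = 0
  FA : T^4*W - 2*T^4*c + 12*T^4*s + 16*T^3*J*W - 28*T^3*J*c + 136*T^3*J*s - T^3*C*W + 2*T^3*C*c
      - 12*T^3*C*s + 20*T^2*J^2*W - 32*T^2*J^2*c + 160*T^2*J^2*s - T^2*J*C*W + 2*T^2*J*C*c
      - 16*T^2*J*C*s + 3*T^2*W - 6*T^2*c + 36*T^2*s + 9*T*J^3*W - 6*T*J^3*c + 24*T*J*W
      - 16*T*J*c + 84*T*J*s + 112*T*J*e + 17*J^2*W - 10*J^2*c + 56*J^2*s + 112*J^2*e = 0
  FB : T^6*W - 2*T^6*c + 12*T^6*s + 2*T^5*J*W - 4*T^5*J*c + 20*T^5*J*s + T^4*J^2*W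
      - 2*T^4*J^2*c + 8*T^4*J^2*s + 6*T^4*W - 12*T^4*c + 40*T^4*s + 4*T^3*J*W - 24*T^3*J*c
      + 96*T^3*J*s - 16*T^3*J*e - 8*T^3*C*s - 50*T^2*J^2*W - 12*T^2*J^2*c + 8*T^2*J^2*s
      - 256*T^2*J^2*e + 4*T^2*J*C*W - 8*T^2*J*C*s + 16*T^2*J*C*e + 5*T^2*W - 10*T^2*c
      + 44*T^2*s - 12*T*J^3*W - 48*T*J^3*s - 96*T*J^3*e + 30*T*J*W - 20*T*J*c + 100*T*J*s
      + 144*T*J*e + 17*J^2*W - 10*J^2*c + 56*J^2*s + 112*J^2*e = 0
  ds : 16 * J * T * (T + J) * (1 + T ^ 2) * d s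
      = -4 * J * (16 * (T + J) * s + 16 * J * e + (5 * J + T) * W - 2 * (T + J) * c)
  de : 16 * J * T * (T + J) * (1 + T ^ 2) * d e
      = -((4 * T * (3 * T ^ 3 + C * T ^ 2 + (6 * J ^ 2 + 1) * T - J)
          - 8 * J * (T + J) * (1 + T ^ 2) - 24 * (T + J) ^ 2 * (1 + T ^ 2)) * s
        + (16 * J ^ 2 * (1 + T ^ 2) - 32 * J * (T + J) * (1 + T ^ 2) - 16 * J * (T + J)) * e
        - 2 * (4 * J * (T + J) + (T + J) ^ 2 * (1 + T ^ 2)) * W
        + 4 * c * (T + J) ^ 2 * (1 + T ^ 2))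

/-- derivative of `p - q` -/
theorem Ax.dm [CharZero K] (D : Ax K) :
    8 * D.xi * D.eta * (D.d1 (D.p - D.q) + D.d2 (D.p - D.q))
      = 8*D.xi^4*D.eta - 8*D.xi^4*D.p + 8*D.xi^4*D.q - 24*D.xi^3*D.p - 24*D.xi^3*D.q
      + 16*D.xi^2*D.eta^3 - 16*D.xi^2*D.eta^2*D.p + 16*D.xi^2*D.eta^2*D.q + 8*D.xi^2*D.eta
      + 40*D.xi*D.eta^2*D.p + 40*D.xi*D.eta^2*D.q - 16*D.xi*D.eta*D.p^2 + 16*D.xi*D.eta*D.q^2
      + 32*D.xi*D.p + 32*D.xi*D.q + 8*D.eta^5 - 8*D.eta^4*D.p + 8*D.eta^4*D.q + 8*D.eta^3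
      + 16*D.eta^2*D.p - 16*D.eta^2*D.q - 64*D.eta := by
  have h1 := congrArg D.d1 D.R0
  have h2 := congrArg D.d2 D.R0
  have h3 := D.delta
  obtain ⟨d1, d2, a, b, p, q, X, Y, W, c, hX, hY, heta, hrho, hc, hW, hc1, hc2, d1W, d2W, d1a, d2a,
    d1b, d2b, d2X, d1Y, d1X, d2Y, gauss, comm⟩ := D
  simp only at h1 h2 h3 ⊢
  have e41 : d1 (4 : K) = 0 := der_ofNat d1 4
  have e42 : d2 (4 : K) = 0 := der_ofNat d2 4
  have e81 : d1 (8 : K) = 0 := der_ofNat d1 8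
  have e82 : d2 (8 : K) = 0 := der_ofNat d2 8
  simp only [d1a, d2a, d1b, d2b, map_add, map_sub, der_mul, der_sq, e41, e42, e81, e82] at h1 h2
  rw [map_sub, map_sub]
  linear_combination h2 - h1 + 8 * h3

theorem exists_ts [CharZero K] (D : Ax K) (h4 : 4 - D.xi ^ 2 - D.eta ^ 2 ≠ 0) :
    ∃ S : TS K, S.W = D.W ∧ S.c = D.c := by
  have hR := D.R0
  have hm := D.dm
  have hrA := D.relA
  have hrB := D.relB
  obtain ⟨d1, d2, a, b, p, q, X, Y, W, c, hX, hY, heta, hrho, hc, hW, hc1, hc2, d1W, d2W, d1a, d2a,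
    d1b, d2b, d2X, d1Y, d1X, d2Y, gauss, comm⟩ := D
  simp only at h4 hR hm hrA hrB ⊢
  have ha : a ≠ 0 := by
    intro h
    rw [h, map_zero] at d1a
    apply heta
    linear_combination -d1a
  obtain ⟨r, hr⟩ : ∃ r, r = a ^ 2 + b ^ 2 := ⟨_, rfl⟩
  have h4r : 4 - r ≠ 0 := by
    rw [hr]
    intro h
    apply h4
    linear_combination h
  have hr0 : r ≠ 0 := by rw [hr]; exact hrho
  have hR' : 8 * (p + q) * a * b = r * (4 - r) := by rw [hr]; linear_combination hR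
  obtain ⟨dp, hdp⟩ : ∃ dp : Derivation ℤ K K, ∀ f, dp f = d1 f + d2 f := ⟨d1 + d2, fun f => rfl⟩
  have dpa : dp a = 2 * (p + q) * a + 2 * b := by rw [hdp, d1a, d2a]; ring
  have dpb : dp b = 2 * (p + q) * b - 2 * a := by rw [hdp, d1b, d2b]; ring
  have dpW : dp W = 0 := by rw [hdp, d1W, d2W]; ring
  have dpc : dp c = 0 := by rw [hdp, hc1, hc2, add_zero]
  have dpr : dp r = 4 * (p + q) * r := by
    rw [hr, map_add, der_sq, der_sq, dpa, dpb]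
    ring
  obtain ⟨T, hT⟩ : ∃ T, T = b / a := ⟨_, rfl⟩
  have hTa : b = T * a := by rw [hT, div_mul_cancel₀ _ ha]
  have hT0 : T ≠ 0 := by rw [hT]; exact div_ne_zero heta ha
  have hrT : r = a ^ 2 * (1 + T ^ 2) := by rw [hr, hTa]; ring
  have h1T : 1 + T ^ 2 ≠ 0 := by
    intro h
    apply hr0
    rw [hrT, h, mul_zero]
  have dpT : dp T = -2 * (1 + T ^ 2) := by
    have h := der_div dp b a ha
    rw [← hT, dpa, dpb] at h
    apply mul_left_cancel₀ ha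
    rw [h, hTa]
    ring
  have hR2 : 8 * (p + q) * T = (4 - r) * (1 + T ^ 2) := by
    apply mul_left_cancel₀ (pow_ne_zero 2 ha)
    rw [hTa] at hR'
    linear_combination hR' + (4 - r) * hrT
  obtain ⟨J, hJ⟩ : ∃ J, J = r * T / (4 - r) := ⟨_, rfl⟩
  have hJ' : J * (4 - r) = r * T := by rw [hJ, div_mul_cancel₀ _ h4r]
  have hJ0 : J ≠ 0 := by rw [hJ]; exact div_ne_zero (mul_ne_zero hr0 hT0) h4r
  have hTJ' : (T + J) * (4 - r) = 4 * T := by linear_combination hJ'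
  have hTJ : T + J ≠ 0 := by
    intro h
    rw [h, zero_mul] at hTJ'
    exact (mul_ne_zero (by norm_num) hT0) hTJ'.symm
  have e4 : dp (4 : K) = 0 := der_ofNat dp 4
  have dpJ : dp J = 0 := by
    have h := congrArg dp hJ'
    rw [der_mul, der_mul, map_sub, e4, dpr, dpT] at h
    have : (4 - r) ^ 2 * dp J = 0 := by
      linear_combination (4 - r) * h + (4 * (p + q) * r) * hTJ' + (2 * r) * hR2
    exact (mul_eq_zero.mp this).resolve_left (pow_ne_zero 2 h4r)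
  obtain ⟨m, hm'⟩ : ∃ m, m = p - q := ⟨_, rfl⟩
  obtain ⟨C, hC⟩ : ∃ C, C = (16 * m * r * b - 3 * b ^ 2 * (4 - r) ^ 2 - 6 * r ^ 2 * b ^ 2
    - a ^ 2 * (4 - r) ^ 2 + r * a ^ 2 * (4 - r)) / (a * b * (4 - r) ^ 2) := ⟨_, rfl⟩
  have hG : a * b * (4 - r) ^ 2 ≠ 0 := mul_ne_zero (mul_ne_zero ha heta) (pow_ne_zero 2 h4r)
  have hC' : C * (a * b * (4 - r) ^ 2) = 16 * m * r * b - 3 * b ^ 2 * (4 - r) ^ 2
      - 6 * r ^ 2 * b ^ 2 - a ^ 2 * (4 - r) ^ 2 + r * a ^ 2 * (4 - r) := by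
    rw [hC, div_mul_cancel₀ _ hG]
  have e3 : dp (3 : K) = 0 := der_ofNat dp 3
  have e6 : dp (6 : K) = 0 := der_ofNat dp 6
  have e16 : dp (16 : K) = 0 := der_ofNat dp 16
  have dpC : dp C = 0 := by
    have h := congrArg dp hC'
    have hm2 : 8 * a * b * dp m = 8*a^4*b - 8*a^4*p + 8*a^4*q - 24*a^3*p - 24*a^3*q + 16*a^2*b^3
        - 16*a^2*b^2*p + 16*a^2*b^2*q + 8*a^2*b + 40*a*b^2*p + 40*a*b^2*q - 16*a*b*p^2
        + 16*a*b*q^2 + 32*a*p + 32*a*q + 8*b^5 - 8*b^4*p + 8*b^4*q + 8*b^3 + 16*b^2*p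
        - 16*b^2*q - 64*b := by
      rw [hdp, hm']
      linear_combination hm
    simp only [der_mul, der_sq, map_add, map_sub, dpa, dpb, dpr, e3, e4, e6, e16] at h
    have h2 : (a * b * (4 - r) ^ 2) ^ 2 * dp C = 0 := by
      subst hr hm'
      linear_combination (a * b * (4 - (a ^ 2 + b ^ 2)) ^ 2) * h
        - ((2 * (p + q) * a + 2 * b) * b * (4 - (a ^ 2 + b ^ 2)) ^ 2
          + a * (2 * (p + q) * b - 2 * a) * (4 - (a ^ 2 + b ^ 2)) ^ 2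
          - a * b * 2 * (4 - (a ^ 2 + b ^ 2)) * (4 * (p + q) * (a ^ 2 + b ^ 2))) * hC'
        + (2*a^6*b + 6*a^4*b^3 - 16*a^4*b + 6*a^2*b^5 - 32*a^2*b^3 + 32*a^2*b + 2*b^7 - 16*b^5
          + 32*b^3) * hm2
        + (-4*a^8 + 22*a^6*b^2 - 16*a^6*b*p + 16*a^6*b*q + 40*a^6 + 90*a^4*b^4 - 48*a^4*b^3*p
          + 48*a^4*b^3*q - 88*a^4*b^2 + 64*a^4*b*p - 64*a^4*b*q - 128*a^4 + 98*a^2*b^6
          - 48*a^2*b^5*p + 48*a^2*b^5*q - 296*a^2*b^4 + 128*a^2*b^3*p - 128*a^2*b^3*q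
          - 32*a^2*b^2 + 128*a^2 + 34*b^8 - 16*b^7*p + 16*b^7*q - 168*b^6 + 64*b^5*p
          - 64*b^5*q + 96*b^4 + 128*b^2) * hR
    exact (mul_eq_zero.mp h2).resolve_left (pow_ne_zero 2 hG)
  obtain ⟨s, hs⟩ : ∃ s, s = X + Y := ⟨_, rfl⟩
  obtain ⟨e, he⟩ : ∃ e, e = (X - Y) / a := ⟨_, rfl⟩
  have hea : e * a = X - Y := by rw [he, div_mul_cancel₀ _ ha]
  have dps : 2 * b * dp s = a * (16 * s + (r + 1) * W - 2 * c) + 4 * r * (X - Y) := by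
    rw [hdp, hs, hr, map_add, map_add]
    linear_combination d1X + 2 * d2X + 2 * d1Y + d2Y
  have dpxy : 2 * b * a * (dp X - dp Y) = (4 * b * a * (p + q) + 4 * b ^ 2) * (X - Y)
      + a * (4 * b * m - 2 * r - 24) * s + (r ^ 2 - 8 * r - 4 * a ^ 2) * (X - Y)
      + a * (-2 * (a ^ 2 + 1) * W + 4 * c) := by
    rw [hdp, hdp, hs, hr, hm']
    linear_combination a * d1X + 2 * a * d2X - 2 * a * d1Y - a * d2Y - (X - Y) * hR
  have dpe : 2 * b * a * dp e = (4 * b * m - 2 * r - 24) * s + (r ^ 2 - 8 * r - 4 * a ^ 2) * e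
      - 2 * (a ^ 2 + 1) * W + 4 * c := by
    have h := congrArg dp hea
    rw [der_mul, map_sub, dpa] at h
    apply mul_left_cancel₀ ha
    linear_combination (2 * a * b) * h + dpxy - (4 * b * a * (p + q) + 4 * b ^ 2 + r ^ 2 - 8 * r
      - 4 * a ^ 2) * hea
  have h4J : r * (T + J) = 4 * J := by linear_combination -hJ'
  have hz4 : a ^ 2 * ((T + J) * (1 + T ^ 2)) = 4 * J := by
    linear_combination h4J - (T + J) * hrT
  obtain ⟨Un, hUn⟩ : ∃ Un, Un = 3 * T ^ 3 + C * T ^ 2 + (6 * J ^ 2 + 1) * T - J := ⟨_, rfl⟩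
  have hUn2 : a * Un = m * r * (T + J) ^ 2 := by
    apply mul_left_cancel₀ (pow_ne_zero 2 h4r)
    have hC2 : C * a * T * (4 - r) ^ 2 = 16 * m * r * T - 3 * T ^ 2 * a * (4 - r) ^ 2
        - 6 * r ^ 2 * T ^ 2 * a - a * (4 - r) ^ 2 + r * a * (4 - r) := by
      apply mul_left_cancel₀ ha
      rw [hTa] at hC'
      linear_combination hC'
    rw [hUn]
    linear_combination T * hC2 + 6 * T * a * (J * (4 - r) + r * T) * hJ' - a * (4 - r) * hJ'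
      - m * r * ((T + J) * (4 - r) + 4 * T) * hTJ'
  have hu4 : 4 * b * m * ((T + J) ^ 2 * (1 + T ^ 2)) = 4 * T * Un := by
    apply mul_left_cancel₀ ha
    rw [hTa]
    linear_combination -4 * T * hUn2 - 4 * T * m * (T + J) ^ 2 * hrT
  have hne2 : (T + J) * (1 + T ^ 2) ≠ 0 := mul_ne_zero hTJ h1T
  have hne3 : (T + J) ^ 2 * (1 + T ^ 2) ≠ 0 := mul_ne_zero (pow_ne_zero 2 hTJ) h1T
  have hz : a ^ 2 = 4 * J / ((T + J) * (1 + T ^ 2)) := by rw [eq_div_iff hne2, hz4]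
  have hrr : r = 4 * J / (T + J) := by rw [eq_div_iff hTJ, h4J]
  have hu : 4 * b * m = 4 * T * (3 * T ^ 3 + C * T ^ 2 + (6 * J ^ 2 + 1) * T - J)
      / ((T + J) ^ 2 * (1 + T ^ 2)) := by rw [← hUn, eq_div_iff hne3, hu4]
  have hze : a ^ 2 * e = a * (X - Y) := by rw [← hea]; ring
  have FA := convA T J C W c s e (a ^ 2) r (4 * b * m) hT0 hTJ h1T hz hrr hu
    (hrA s (a ^ 2 * e) (a ^ 2) r (4 * b * m) hs hze rfl hr (by rw [hm']))
  have FB := convB T J C W c s e (a ^ 2) r (4 * b * m) hT0 hTJ hJ0 h1T hz hrr hu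
    (hrB s (a ^ 2 * e) (a ^ 2) r (4 * b * m) hs hze rfl hr (by rw [hm']))
  have h2T : 2 * (1 + T ^ 2) ≠ 0 := mul_ne_zero (by norm_num) h1T
  have hdT : ∀ f, 2 * (1 + T ^ 2) * ((-(2 * (1 + T ^ 2))⁻¹) • dp) f = -dp f := by
    intro f
    rw [smul_der]
    field_simp
  refine ⟨{
    d := (-(2 * (1 + T ^ 2))⁻¹) • dp
    T := T
    J := J
    C := C
    W := W
    c := c
    s := s
    e := e
    hT := hT0
    hJ := hJ0
    hTJ := hTJ
    dT := by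
      rw [smul_der, dpT]
      field_simp
    dJ := by rw [smul_der, dpJ, mul_zero]
    dC := by rw [smul_der, dpC, mul_zero]
    dW := by rw [smul_der, dpW, mul_zero]
    dc := by rw [smul_der, dpc, mul_zero]
    FA := FA
    FB := FB
    ds := by
      have h2 : 2 * T * dp s = 16 * s + (r + 1) * W - 2 * c + 4 * r * e := by
        apply mul_left_cancel₀ ha
        rw [hTa, ← hea] at dps
        linear_combination dps
      linear_combination (8 * J * T * (T + J)) * hdT s - 4 * J * (T + J) * h2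
        - 4 * J * (W + 4 * e) * h4J
    de := by
      have h2 : 8 * J * T * dp e = (T + J) * (1 + T ^ 2) * ((4 * b * m - 2 * r - 24) * s
          + (r ^ 2 - 8 * r - 4 * a ^ 2) * e - 2 * (a ^ 2 + 1) * W + 4 * c) := by
        rw [← dpe, hTa]
        linear_combination (-2 * T * dp e) * hz4
      rw [← hUn]
      linear_combination (8 * J * T * (T + J)) * hdT e - (T + J) * h2
        - s * hu4 + 2 * (T + J) * (1 + T ^ 2) * s * h4J
        - ((T + J) * (1 + T ^ 2) * r + 4 * J * (1 + T ^ 2) - 8 * (T + J) * (1 + T ^ 2)) * e * h4J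
        + 4 * (T + J) * e * hz4 + 2 * (T + J) * W * hz4 }, rfl, rfl⟩

end Pool.Agent.H99.N2
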