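import Pool.Agent.H99.N2.AlgAData
import Pool.Agent.H99.N2.AlgA4

/-!
# Branch A: elimination
-/

namespace Pool.Agent.H99.N2.BA

open PL Polynomial

variable {K : Type} [Field K]

/-- A polynomial with constant coefficients vanishing at a non-constant element is zero. -/
theorem poly_zero [CharZero K] (d : Derivation ℤ K K) (t : K) (ht : d t ≠ 0) (n : ℕ)
    (p : K[X]) (hn : p.natDegree ≤ n) (hc : ∀ i, d (p.coeff i) = 0) (h0 : p.eval t = 0) :
    p = 0 := by
  induction n generalizing p with
  | zero =>
    have h1 := eq_C_of_natDegree_le_zero hn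
    rw [h1, eval_C] at h0
    rw [h1, h0, C_0]
  | succ n ih =>
    have hd : p.derivative = 0 := by
      apply ih
      · exact (natDegree_derivative_le p).trans (by omega)
      · intro i
        rw [coeff_derivative, der_mul, hc]
        have : d ((i : K) + 1) = 0 := by rw [map_add, der_nat, der_one, add_zero]
        rw [this]
        ring
      · have h1 : d (p.eval t) = p.derivative.eval t * d t := by
          have key : ∀ q : K[X], (∀ i, d (q.coeff i) = 0) → q.natDegree ≤ p.natDegree →
              d (q.eval t) = q.derivative.eval t * d t := by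
            intro q hq _
            rw [eval_eq_sum_range, map_sum, derivative_eval, Polynomial.sum_over_range,
              Finset.sum_mul]
            · apply Finset.sum_congr rfl
              intro i _
              rw [der_mul, hq, mul_zero, add_zero, Derivation.leibniz_pow]
              simp only [nsmul_eq_mul, smul_eq_mul]
              ring
            · intro i
              simp
          exact key p hc le_rfl
        rw [h0, map_zero] at h1
        exact (mul_eq_zero.mp h1.symm).resolve_right ht
    have h1 := natDegree_eq_zero_of_derivative_eq_zero hd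
    have h2 := eq_C_of_natDegree_le_zero h1.le
    rw [h2, eval_C] at h0
    rw [h2, h0, C_0]

/-- the polynomial of a list -/
noncomputable def lp {α : Type} (e : α → K) (l : List α) : K[X] :=
  l.foldr (fun a q => C (e a) + X * q) 0

theorem lp_eval {α : Type} (e : α → K) (t : K) (l : List α) : (lp e l).eval t = ev e t l := by
  induction l with
  | nil => simp [lp, ev_nil]
  | cons a l ih =>
    have : lp e (a :: l) = C (e a) + X * lp e l := rfl
    rw [this, eval_add, eval_C, eval_mul, eval_X, ih, ev_cons]

theorem lp_coeff (d : Derivation ℤ K K) {α : Type} (e : α → K) (h : ∀ a, d (e a) = 0)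
    (l : List α) (i : ℕ) : d ((lp e l).coeff i) = 0 := by
  induction l generalizing i with
  | nil => simp [lp]
  | cons a l ih =>
    have : lp e (a :: l) = C (e a) + X * lp e l := rfl
    rw [this, coeff_add, map_add]
    cases i with
    | zero => simp [h a]
    | succ i =>
      rw [coeff_X_mul, ih, coeff_C]
      simp

theorem lp_zero {α : Type} (e : α → K) (l : List α) (h : lp e l = 0) : ∀ a ∈ l, e a = 0 := by
  induction l with
  | nil => simp
  | cons a l ih =>
    have h1 : lp e (a :: l) = C (e a) + X * lp e l := rfl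
    rw [h1] at h
    have h2 : e a = 0 := by
      have := congrArg (fun q => coeff q 0) h
      simpa using this
    rw [h2, C_0, zero_add] at h
    have h3 : lp e l = 0 := (mul_eq_zero.mp h).resolve_left X_ne_zero
    intro b hb
    rcases List.mem_cons.mp hb with rfl | hb
    · exact h2
    · exact ih h3 b hb

theorem list_zero [CharZero K] (d : Derivation ℤ K K) {α : Type} (e : α → K)
    (h : ∀ a, d (e a) = 0) (t : K) (ht : d t ≠ 0) (l : List α) (h0 : ev e t l = 0) :
    ∀ a ∈ l, e a = 0 := by
  apply lp_zero
  exact poly_zero d t ht _ _ le_rfl (lp_coeff d e h l) (by rw [lp_eval, h0])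

/-- the values of the variables -/
def vv (c W C J T : K) (i : ℕ) : K :=
  match i with
  | 0 => c
  | 1 => W
  | 2 => C
  | 3 => J
  | _ => T

theorem ts_eq [CharZero K] (S : TS K) : 3 * S.W = 2 * S.c := by
  obtain ⟨d, T, J, C, W, c, s, e, hT, hJ, hTJ, dT, dJ, dC, dW, dc, FA, FB, ds, de⟩ := S
  simp only
  set v := vv c W C J T with hv
  have v0 : v 0 = c := rfl
  have v1 : v 1 = W := rfl
  have v2 : v 2 = C := rfl
  have v3 : v 3 = J := rfl
  have v4 : v 4 = T := rfl
  have hA : e5 v RAs * s + e5 v RAe * e + e5 v RA1 = 0 := by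
    simp only [e5, e4, e3, e2, e1, RAs, RAe, RA1, ev_cons, ev_nil, e0, v0, v1, v2, v3, v4]
    push_cast
    linear_combination FA
  have hB : e5 v RBs * s + e5 v RBe * e + e5 v RB1 = 0 := by
    simp only [e5, e4, e3, e2, e1, RBs, RBe, RB1, ev_cons, ev_nil, e0, v0, v1, v2, v3, v4]
    push_cast
    linear_combination FB
  have hs : e5 v DD * d s = e5 v DSs * s + e5 v DSe * e + e5 v DS1 := by
    simp only [e5, e4, e3, e2, e1, DD, DSs, DSe, DS1, ev_cons, ev_nil, e0, v0, v1, v2, v3, v4]
    push_cast
    linear_combination ds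
  have he : e5 v DD * d e = e5 v DEs * s + e5 v DEe * e + e5 v DE1 := by
    simp only [e5, e4, e3, e2, e1, DD, DEs, DEe, DE1, ev_cons, ev_nil, e0, v0, v1, v2, v3, v4]
    push_cast
    linear_combination de
  have dv : ∀ P : P5, d (e5 v P) = e5 v (q5 4 P) := by
    intro P
    rw [d_e5 d v P]
    simp only [Finset.sum_range_succ, Finset.sum_range_zero, v0, v1, v2, v3, v4, dT, dJ, dC, dW,
      dc, mul_zero, add_zero, mul_one, zero_add]
  have dv4 : ∀ P, d (e4 v P) = 0 := by
    intro P
    rw [d_e4 d v P]
    simp only [Finset.sum_range_succ, Finset.sum_range_zero, v0, v1, v2, v3, dJ, dC, dW,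
      dc, mul_zero, add_zero]
  have ha := (ok5 v).add
  have hm := (ok5 v).mul
  have n1 : e5 v neg1 = -1 := by
    simp only [e5, e4, e3, e2, e1, neg1, ev_cons, ev_nil, e0]
    push_cast
    ring
  have cs := (ok5 v).isz _ chkCs
  have ce := (ok5 v).isz _ chkCe
  have c1 := (ok5 v).isz _ chkC1
  rw [ha, ha, ha, hm, hm, hm, hm, n1] at cs ce c1
  have hC : e5 v RCs * s + e5 v RCe * e + e5 v RC1 = 0 := by
    have h := congrArg d hA
    rw [map_add, map_add, der_mul, der_mul, dv, dv, dv, map_zero] at h
    linear_combination (e5 v DD) * h - e5 v RAs * hs - e5 v RAe * he - s * cs - e * ce - c1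
  have hdet : e5 v RAs * (e5 v RBe * e5 v RC1 - e5 v RB1 * e5 v RCe)
      - e5 v RAe * (e5 v RBs * e5 v RC1 - e5 v RB1 * e5 v RCs)
      + e5 v RA1 * (e5 v RBs * e5 v RCe - e5 v RBe * e5 v RCs) = 0 := by
    linear_combination (e5 v RBs * e5 v RCe - e5 v RBe * e5 v RCs) * hA
      - (e5 v RAs * e5 v RCe - e5 v RAe * e5 v RCs) * hB
      + (e5 v RAs * e5 v RBe - e5 v RAe * e5 v RBs) * hC
  have hF : e5 v F = 0 := by
    have h := (ok5 v).isz _ chkDet
    simp only [ha, hm, n1] at h
    have h2 : e5 v NFAC * e5 v F = 0 := by linear_combination h - hdet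
    rcases mul_eq_zero.mp h2 with h3 | h3
    · exfalso
      have e' : e5 v NFAC = 1024 * T ^ 4 * J ^ 2 * (T + J) := by
        simp only [e5, e4, e3, e2, e1, NFAC, ev_cons, ev_nil, e0, v0, v1, v2, v3, v4]
        push_cast
        ring
      rw [e'] at h3
      exact (mul_ne_zero (mul_ne_zero (mul_ne_zero (by norm_num) (pow_ne_zero 4 hT))
        (pow_ne_zero 2 hJ)) hTJ) h3
    · exact h3
  have h8 : e4 v F8 = 0 := by
    have hF' : ev (e4 v) (v 4) F = 0 := hF
    refine list_zero d (e4 v) dv4 (v 4) ?_ F hF' F8 ?_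
    · rw [v4, dT]
      exact one_ne_zero
    · simp [F]
  have e8 : e4 v F8 = 6 * J * (3 * W - 2 * c) := by
    simp only [e4, e3, e2, e1, F8, ev_cons, ev_nil, e0, v0, v1, v2, v3]
    push_cast
    ring
  rw [e8] at h8
  have h9 := (mul_eq_zero.mp h8).resolve_left (mul_ne_zero (by norm_num) hJ)
  linear_combination h9

theorem ax_false_of_ne [CharZero K] (D : Ax K) (h4 : 4 - D.xi ^ 2 - D.eta ^ 2 ≠ 0) : False := by
  obtain ⟨S, h1, h2⟩ := exists_ts D h4
  have h := ts_eq S
  rw [h1, h2] at h
  have h3 := congrArg D.d1 h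
  rw [der_mul, der_mul, der_ofNat, der_ofNat, D.hc1, D.d1W] at h3
  have h5 : D.eta * D.W = 0 := by
    have : (6 : K) * (D.eta * D.W) = 0 := by linear_combination -h3
    exact (mul_eq_zero.mp this).resolve_left (by norm_num)
  exact (mul_ne_zero D.heta D.hW) h5

end Pool.Agent.H99.N2.BA
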