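import Pool.Agent.H99.N2.Pol

/-!
# Data for branch A (machine generated)

Variables 0..4 are c, W, C, J, T.
-/

set_option maxRecDepth 100000

namespace Pool.Agent.H99.N2.BA

open PL

def RAs : P5 := [[[],[],[[[56]]]],[[],[[[84]]]],[[[[36]]],[[],[[-16]]],[[[160]]]],[[[],[[-12]]],[[[136]]]],[[[[12]]]]]
def RAe : P5 := [[[],[],[[[112]]]],[[],[[[112]]]]]
def RA1 : P5 := [[[],[],[[[0,-10],[17]]]],[[],[[[0,-16],[24]]],[],[[[0,-6],[9]]]],[[[[0,-6],[3]]],[[],[[0,2],[-1]]],[[[0,-32],[20]]]],[[[],[[0,2],[-1]]],[[[0,-28],[16]]]],[[[[0,-2],[1]]]]]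
def RBs : P5 := [[[],[],[[[56]]]],[[],[[[100]]],[],[[[-48]]]],[[[[44]]],[[],[[-8]]],[[[8]]]],[[[],[[-8]]],[[[96]]]],[[[[40]]],[],[[[8]]]],[[],[[[20]]]],[[[[12]]]]]
def RBe : P5 := [[[],[],[[[112]]]],[[],[[[144]]],[],[[[-96]]]],[[],[[],[[16]]],[[[-256]]]],[[],[[[-16]]]]]
def RB1 : P5 := [[[],[],[[[0,-10],[17]]]],[[],[[[0,-20],[30]]],[],[[[],[-12]]]],[[[[0,-10],[5]]],[[],[[],[4]]],[[[0,-12],[-50]]]],[[],[[[0,-24],[4]]]],[[[[0,-12],[6]]],[],[[[0,-2],[1]]]],[[],[[[0,-4],[2]]]],[[[[0,-2],[1]]]]]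
def RCs : P5 := [[],[[],[],[],[[[2688]]]],[[],[],[[[3776]]],[[],[[512]]],[[[-4224]]]],[[],[[[1088]]],[[],[[256]]],[[[1216]]]],[[],[[],[[-256]]],[[[7936]]],[[],[[-512]]],[[[5120]]]],[[],[[[2496]]],[[],[[-1088]]],[[[11648]]]],[[],[[],[[-576]]],[[[7296]]]],[[],[[[768]]]]]
def RCe : P5 := [[],[[],[],[],[[[5376]]]],[[],[],[[[4864]]],[[],[[1024]]],[[[-8448]]]],[[],[],[[],[[768]]],[[[-1536]]]],[[],[],[[[4608]]]]]
def RC1 : P5 := [[],[[],[],[],[[[0,-480],[944]]],[],[[[0,-96],[144]]]],[[],[],[[[0,-832],[992]]],[[],[[0,-64],[288]]],[[[0,-288],[-2192]]]],[[],[[[0,-352],[176]]],[[],[[0,-64],[224]]],[[[0,-1600],[-896]]],[],[[[0,-96],[144]]]],[[],[],[[[0,-2080],[1200]]],[[],[[0,64],[-32]]],[[[0,-1120],[784]]]],[[],[[[0,-672],[336]]],[[],[[0,160],[-80]]],[[[0,-2368],[1408]]]],[[],[[],[[0,96],[-48]]],[[[0,-1472],[832]]]],[[],[[[0,-128],[64]]]]]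
def DSs : P5 := [[[],[],[[[-64]]]],[[],[[[-64]]]]]
def DSe : P5 := [[[],[],[[[-64]]]]]
def DS1 : P5 := [[[],[],[[[0,8],[-20]]]],[[],[[[0,8],[-4]]]]]
def DEs : P5 := [[[],[],[[[32]]]],[[],[[[60]]]],[[[[20]]],[],[[[8]]]],[[[],[[-4]]],[[[56]]]],[[[[12]]]]]
def DEe : P5 := [[[],[],[[[32]]]],[[],[[[48]]]],[[],[],[[[16]]]],[[],[[[32]]]]]
def DE1 : P5 := [[[],[],[[[0,-4],[10]]]],[[],[[[0,-8],[12]]]],[[[[0,-4],[2]]],[],[[[0,-4],[2]]]],[[],[[[0,-8],[4]]]],[[[[0,-4],[2]]]]]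
def DD : P5 := [[],[[],[],[[[16]]]],[[],[[[16]]]],[[],[],[[[16]]]],[[],[[[16]]]]]
def NFAC : P5 := [[],[],[],[],[[],[],[],[[[1024]]]],[[],[],[[[1024]]]]]
def F0 : List (List (List (List Int))) := [[],[[[0,-64],[32]]],[[],[[0,48],[16]]],[[[0,-568],[-44]]],[[],[[0,60],[150]]],[[[0,-936],[-708]]],[[],[[0,144],[-216]]],[[[0,-1440],[2160]]]]
def F1 : List (List (List (List Int))) := [[[[0,-96],[48]]],[[],[[],[40]]],[[[0,-888],[-492]],[],[[0,56],[-28]]],[[],[[0,-572],[1090]]],[[[0,-1980],[-6494]],[],[[0,-24],[-60]]],[[],[[0,1452],[558]]],[[[0,-12204],[546]]]]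
def F2 : List (List (List (List Int))) := [[[],[[0,-96],[48]]],[[[0,-496],[-392]],[],[[0,64],[-32]]],[[],[[0,-556],[1002]],[],[[0,16],[-8]]],[[[0,-5932],[-6374]],[],[[0,-454],[145]]],[[],[[0,6632],[-1016]]],[[[0,-37586],[3679]]],[[],[[0,-144],[216]]],[[[0,1440],[-2160]]]]
def F3 : List (List (List (List Int))) := [[[[0,-624],[312]],[],[[0,-16],[8]]],[[],[[0,428],[-146]],[],[[0,24],[-12]]],[[[0,-8532],[-50]],[],[[0,-626],[273]]],[[],[[0,7896],[-1916]]],[[[0,-42654],[2871]],[],[[0,24],[-36]]],[[],[[0,-792],[1188]]],[[[0,5808],[-8712]]]]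
def F4 : List (List (List (List Int))) := [[[],[[0,-104],[52]],[],[[0,4],[-2]]],[[[0,-2204],[-502]],[],[[0,-84],[4]]],[[],[[0,1808],[548]]],[[[0,-17440],[-5198]],[],[[0,40],[-56]]],[[],[[0,-984],[1384]]],[[[0,6692],[-9438]]]]
def F5 : List (List (List (List Int))) := [[[[0,-720],[360]],[],[[0,-8],[4]]],[[],[[0,400],[-84]],[],[[0,2],[-1]]],[[[0,-6384],[-52]],[],[[0,-32],[12]]],[[],[[0,98],[19]]],[[[0,1164],[-1614]]]]
def F6 : List (List (List (List Int))) := [[[],[[0,-24],[12]]],[[[0,-1112],[-44]],[],[[0,6],[-3]]],[[],[[0,-20],[-34]]],[[[0,54],[137]]]]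
def F7 : List (List (List (List Int))) := [[[[0,-224],[112]]],[[],[[0,32],[-28]]],[[[0,-256],[260]]]]
def F8 : List (List (List (List Int))) := [[],[[[0,-12],[18]]]]
def F : P5 := [F0,F1,F2,F3,F4,F5,F6,F7,F8]
def neg1 : P5 := [[[[[-1]]]]]

theorem chkCs : L5.isz (L5.add (L5.mul neg1 RCs) (L5.add (L5.mul DD (q5 4 RAs))
    (L5.add (L5.mul RAs DSs) (L5.mul RAe DEs)))) = true := by
  decide +kernel

theorem chkCe : L5.isz (L5.add (L5.mul neg1 RCe) (L5.add (L5.mul DD (q5 4 RAe))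
    (L5.add (L5.mul RAs DSe) (L5.mul RAe DEe)))) = true := by
  decide +kernel

theorem chkC1 : L5.isz (L5.add (L5.mul neg1 RC1) (L5.add (L5.mul DD (q5 4 RA1))
    (L5.add (L5.mul RAs DS1) (L5.mul RAe DE1)))) = true := by
  decide +kernel

theorem chkDet : L5.isz (L5.add (L5.mul NFAC F)
    (L5.add (L5.mul RAs (L5.add (L5.mul RBe RC1) (L5.mul neg1 (L5.mul RB1 RCe))))
    (L5.add (L5.mul (L5.mul neg1 RAe) (L5.add (L5.mul RBs RC1) (L5.mul neg1 (L5.mul RB1 RCs))))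
      (L5.mul RA1 (L5.add (L5.mul RBs RCe) (L5.mul neg1 (L5.mul RBe RCs)))))))
    = true := by
  decide +kernel

end Pool.Agent.H99.N2.BA
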