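import Pool.Agent.H99.N2.Fd

/-!
# Branch B (a1 = -N/2) and the passage to the variables x, y
-/

namespace Pool.Agent.H99.N2

variable {K : Type} [Field K]

theorem der_int (d : Derivation ℤ K K) (n : ℤ) : d (n : K) = 0 := by
  simp

theorem der_nat (d : Derivation ℤ K K) (n : ℕ) : d (n : K) = 0 := by
  simp

theorem der_ofNat (d : Derivation ℤ K K) (n : ℕ) [n.AtLeastTwo] :
    d (OfNat.ofNat n : K) = 0 := by
  have h := der_nat d (OfNat.ofNat n : ℕ)
  rwa [Nat.cast_ofNat] at h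

/-- Leibniz rule with `*`. -/
theorem der_mul (d : Derivation ℤ K K) (a b : K) : d (a * b) = a * d b + b * d a := by
  simp [Derivation.leibniz]

theorem der_sq (d : Derivation ℤ K K) (a : K) : d (a ^ 2) = 2 * a * d a := by
  rw [pow_two, der_mul]
  ring

theorem der_cube (d : Derivation ℤ K K) (a : K) : d (a ^ 3) = 3 * a ^ 2 * d a := by
  rw [show a ^ 3 = a * a ^ 2 by ring, der_mul, der_sq]
  ring

theorem der_one (d : Derivation ℤ K K) : d (1 : K) = 0 := by simp

/-- `w` is constant if `2 + xi = 0`, `eta = 0`. -/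
theorem branchB [CharZero K] (D : NF K) (h2 : 2 + D.xi = 0) (h0 : D.eta = 0) :
    D.e1 D.w = 0 ∧ D.e2 D.w = 0 := by
  have hxi : D.xi = -2 := by linear_combination h2
  have t2 := D.tan2
  rw [hxi, h0] at t2
  have e2w : D.e2 D.w = 0 := by
    have : (4 : K) * D.e2 D.w = 0 := by linear_combination t2
    have h4 : (4 : K) ≠ 0 := by norm_num
    exact (mul_eq_zero.mp this).resolve_left h4
  have s2 : D.s2 = 0 := by
    have h := D.cod2
    rw [hxi, h0, mul_zero, map_zero] at h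
    have : D.w * D.s2 = 0 := by linear_combination -h
    exact (mul_eq_zero.mp this).resolve_left D.hw
  have s1 : D.s1 = 0 := by
    have h := D.cod4
    rw [hxi, h0, mul_zero, map_zero] at h
    have : D.w * D.s1 = 0 := by linear_combination -h / 3
    exact (mul_eq_zero.mp this).resolve_left D.hw
  have c3 := D.cod3
  rw [hxi, h0, show D.w * (1 - (-2 : K)) = D.w * 3 by ring, der_mul, der_ofNat] at c3
  have c1 := D.cod1
  rw [hxi, h0, show D.w * (1 + (-2 : K)) = D.w * (-1) by ring, der_mul, map_neg, der_one] at c1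
  have hp : D.p = 0 := by
    have : D.w * D.p = 0 := by linear_combination c1 / 4 + e2w / 4
    exact (mul_eq_zero.mp this).resolve_left D.hw
  have e1w : D.e1 D.w = 4 / 3 * (D.q * D.w) := by linear_combination c3 / 3
  have g := D.gauss
  rw [hxi, h0, hp, map_zero] at g
  have hq : D.e1 D.q = -(3 / 4) * D.w ^ 2 + D.q ^ 2 := by linear_combination g
  have n1 := D.nor1
  rw [hxi, s1, s2, hp, e2w, map_zero, e1w] at n1
  have d1 : D.e1 (4 / 3 * (D.q * D.w)) = 4 / 3 * (D.q * (4 / 3 * (D.q * D.w))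
      + D.w * (-(3 / 4) * D.w ^ 2 + D.q ^ 2)) := by
    have h43 : D.e1 (4 / 3 : K) = 0 := by
      have : (3 : K) * D.e1 (4 / 3 : K) = 0 := by
        have h := der_mul D.e1 (3 : K) (4 / 3)
        rw [show (3 : K) * (4 / 3) = 4 by norm_num, der_ofNat, der_ofNat] at h
        linear_combination -h
      exact (mul_eq_zero.mp this).resolve_left (by norm_num)
    rw [der_mul, h43, der_mul, e1w, hq]
    ring
  rw [d1] at n1
  have r1 : 16 / 9 * D.q ^ 2 = 7 / 2 * D.w ^ 2 - D.c := by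
    have : D.w * (16 / 9 * D.q ^ 2 - (7 / 2 * D.w ^ 2 - D.c)) = 0 := by linear_combination n1
    have := (mul_eq_zero.mp this).resolve_left D.hw
    linear_combination this
  by_cases hq0 : D.q = 0
  · exact ⟨by rw [e1w, hq0]; ring, e2w⟩
  exfalso
  have r1' : 32 * D.q ^ 2 = 63 * D.w ^ 2 - 18 * D.c := by linear_combination 18 * r1
  have r2 : D.e1 (32 * D.q ^ 2) = D.e1 (63 * D.w ^ 2 - 18 * D.c) := by rw [r1']
  rw [map_sub, der_mul, der_mul, der_mul, der_ofNat, der_ofNat, der_ofNat, der_sq, der_sq, hq,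
    e1w, D.hc1] at r2
  have r3 : D.q ^ 2 = 27 / 8 * D.w ^ 2 := by
    have : D.q * (D.q ^ 2 - 27 / 8 * D.w ^ 2) = 0 := by linear_combination r2 / 64
    have := (mul_eq_zero.mp this).resolve_left hq0
    linear_combination this
  have r4 : 2 * D.c = -5 * D.w ^ 2 := by linear_combination 2 * r1 - 32 / 9 * r3
  have r5 : D.e1 (2 * D.c) = D.e1 (-5 * D.w ^ 2) := by rw [r4]
  rw [der_mul, der_mul, D.hc1, map_neg, der_ofNat, der_ofNat, der_sq, e1w] at r5
  have r6 : D.q * D.w ^ 2 = 0 := by linear_combination 3 / 40 * r5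
  rcases mul_eq_zero.mp r6 with h | h
  · exact hq0 h
  · exact D.hw (by simpa using h)

/-- The passage to the variables `x`, `y`. -/
theorem exists_xy [CharZero K] (D : NF K) (h0 : D.xi ^ 2 + D.eta ^ 2 ≠ 0) (h1 : (2 + D.xi) ^ 2 + D.eta ^ 2 ≠ 0)
    (h2 : (2 - D.xi) ^ 2 + D.eta ^ 2 ≠ 0) (hw : ¬ (D.e1 D.w = 0 ∧ D.e2 D.w = 0)) :
    ∃ E : XY K, ¬ (E.x = 0 ∧ E.y = 0) := by
  have hwne := D.hw
  obtain ⟨x, hx1, hx2⟩ : ∃ x : K, D.s1 = x * (2 + D.xi) ∧ D.e1 D.w = -x * D.eta * D.w := by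
    refine ⟨((2 + D.xi) * D.s1 - D.eta * D.e1 D.w / D.w) / ((2 + D.xi) ^ 2 + D.eta ^ 2), ?_, ?_⟩
    · field_simp
      linear_combination D.eta * D.tan1
    · field_simp
      linear_combination (2 + D.xi) * D.tan1
  obtain ⟨y, hy1, hy2⟩ : ∃ y : K, D.s2 = y * (2 - D.xi) ∧ D.e2 D.w = y * D.eta * D.w := by
    refine ⟨((2 - D.xi) * D.s2 + D.eta * D.e2 D.w / D.w) / ((2 - D.xi) ^ 2 + D.eta ^ 2), ?_, ?_⟩
    · field_simp
      linear_combination -D.eta * D.tan2
    · field_simp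
      linear_combination (2 - D.xi) * D.tan2
  have heta : D.eta ≠ 0 := by
    intro h
    apply hw
    rw [hx2, hy2, h]
    constructor <;> ring
  have hxy : ¬ (x = 0 ∧ y = 0) := by
    rintro ⟨hx, hy⟩
    apply hw
    rw [hx2, hy2, hx, hy]
    constructor <;> ring
  -- derivatives of xi, eta
  have c1 := D.cod1
  have c2 := D.cod2
  have c3 := D.cod3
  have c4 := D.cod4
  rw [der_mul, map_add, der_one, hy2, hy1] at c1
  rw [der_mul, hy2, hy1] at c2
  rw [der_mul, map_sub, der_one, hx2, hx1] at c3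
  rw [der_mul, hx2, hx1] at c4
  have e1xi : D.e1 D.xi = 2 * D.q * D.xi + x * D.eta * (1 + 2 * D.xi) := by
    apply mul_left_cancel₀ hwne
    linear_combination -c3
  have e2xi : D.e2 D.xi = 2 * D.p * D.xi + y * D.eta * (1 - 2 * D.xi) := by
    apply mul_left_cancel₀ hwne
    linear_combination c1
  have e1eta : D.e1 D.eta = 2 * D.q * D.eta + x * (2 - D.xi - D.xi ^ 2 + D.eta ^ 2) := by
    apply mul_left_cancel₀ hwne
    linear_combination c4
  have e2eta : D.e2 D.eta = 2 * D.p * D.eta - y * (2 + D.xi - D.xi ^ 2 + D.eta ^ 2) := by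
    apply mul_left_cancel₀ hwne
    linear_combination c2
  -- commutator on w
  have cw := D.comm D.w
  rw [hx2, hy2] at cw
  have cw1 : D.e1 (y * D.eta * D.w) = y * D.eta * (-x * D.eta * D.w) + D.w * (y * D.e1 D.eta
      + D.eta * D.e1 y) := by
    rw [der_mul, der_mul, hx2]
  have cw2 : D.e2 (-x * D.eta * D.w) = -x * D.eta * (y * D.eta * D.w) + D.w * (-x * D.e2 D.eta
      - D.eta * D.e2 x) := by
    rw [der_mul, der_mul, hy2, map_neg]
    ring
  rw [cw1, cw2, e1eta, e2eta] at cw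
  have R1 : D.eta * (D.e1 y + D.e2 x) = -D.eta * (D.p * x + D.q * y) + 2 * x * y * D.xi := by
    apply mul_left_cancel₀ hwne
    linear_combination cw
  -- Ricci
  have rc := D.ricci
  rw [hx1, hy1, der_mul, der_mul, map_sub, map_add, der_ofNat, der_ofNat, e1xi, e2xi] at rc
  have h2ne : (2 : K) ≠ 0 := by norm_num
  have e2x : 2 * D.eta * D.e2 x = -2 * D.eta * D.q * y
      - x * y * (D.xi ^ 2 + D.eta ^ 2 - 2 * D.xi) := by
    apply mul_left_cancel₀ h2ne
    linear_combination -D.eta * rc + (2 - D.xi) * R1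
  have e1y : 2 * D.eta * D.e1 y = -2 * D.eta * D.p * x
      + x * y * (D.xi ^ 2 + D.eta ^ 2 + 2 * D.xi) := by
    apply mul_left_cancel₀ h2ne
    linear_combination D.eta * rc + (2 + D.xi) * R1
  -- normal equations
  have n1 := D.nor1
  have d1 : D.e1 (D.e1 D.w) = -x * D.eta * (-x * D.eta * D.w) + D.w * (-x * D.e1 D.eta
      - D.eta * D.e1 x) := by
    rw [hx2, der_mul, der_mul, hx2, map_neg]
    ring
  have d2 : D.e2 (D.e2 D.w) = y * D.eta * (y * D.eta * D.w) + D.w * (y * D.e2 D.eta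
      + D.eta * D.e2 y) := by
    rw [hy2, der_mul, der_mul, hy2]
  rw [d1, d2, e1eta, e2eta, hx2, hy2, hx1, hy1] at n1
  have M1 : D.eta * (D.e1 x - D.e2 y - D.p * y + D.q * x)
      = -(6 * (x ^ 2 + y ^ 2) + 3 * D.xi * (x ^ 2 - y ^ 2) + D.w ^ 2 * (1 + D.xi ^ 2) / 2
        - D.c) := by
    apply mul_left_cancel₀ hwne
    linear_combination -n1
  have n2 := D.nor2
  rw [hx2, hy2, hx1, hy1, der_mul, der_mul, map_sub, map_add, der_ofNat, der_ofNat, e1xi, e2xi]
    at n2
  have M2 : (2 + D.xi) * D.e1 x + (2 - D.xi) * D.e2 y - D.q * x * (2 - D.xi)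
      - D.p * y * (2 + D.xi) = 3 * D.eta * (x ^ 2 - y ^ 2) + D.w ^ 2 * D.xi * D.eta / 2 := by
    apply mul_left_cancel₀ hwne
    linear_combination n2
  exact ⟨{
    e1 := D.e1
    e2 := D.e2
    p := D.p
    q := D.q
    w := D.w
    xi := D.xi
    eta := D.eta
    x := x
    y := y
    c := D.c
    comm := D.comm
    hc1 := D.hc1
    hc2 := D.hc2
    hc := D.hc
    hw := D.hw
    hrho := h0
    heta := heta
    e1w := hx2
    e2w := hy2
    e1xi := e1xi
    e2xi := e2xi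
    e1eta := e1eta
    e2eta := e2eta
    e2x := e2x
    e1y := e1y
    gauss := D.gauss
    m1 := M1
    m2 := M2 }, hxy⟩

/-- The umbilical case. -/
theorem branchU (D : NF K) (h1 : D.xi = 0) (h2 : D.eta = 0) :
    D.e1 D.w = 0 ∧ D.e2 D.w = 0 := by
  have c1 := D.cod1
  have c3 := D.cod3
  rw [h1, h2] at c1 c3
  constructor
  · rw [sub_zero, mul_one] at c3
    rw [c3]
    ring
  · rw [add_zero, mul_one] at c1
    rw [c1]
    ring

end Pool.Agent.H99.N2
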