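import Pool.Agent.H99.N2.AlgCCert
import Pool.Agent.H99.N2.AlgB

/-!
# Branch C: y = 0
-/

namespace Pool.Agent.H99.N2.BC

open PL

variable {K : Type} [Field K]

theorem e5_con (v : ℕ → K) (n : Int) : e5 v (con n) = n := by
  simp only [e5, e4, e3, e2, e1, con, ev_cons, ev_nil, e0, mul_zero, add_zero]

theorem e5_der (d : Derivation ℤ K K) (v : ℕ → K) (h0 : 3 * d (v 0) = e5 v dv0)
    (h1 : 3 * d (v 1) = e5 v dv1) (h2 : 3 * d (v 2) = e5 v dv2) (h3 : 3 * d (v 3) = e5 v dv3)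
    (h4 : 3 * d (v 4) = e5 v dv4) (P : P5) : e5 v (der P) = 3 * d (e5 v P) := by
  rw [d_e5 d v P]
  have ha := (ok5 v).add
  have hm := (ok5 v).mul
  rw [der, ha, ha, ha, ha, hm, hm, hm, hm, hm, ← h0, ← h1, ← h2, ← h3, ← h4]
  simp only [Finset.sum_range_succ, Finset.sum_range_zero]
  ring

/-- one step of the closure under the derivation -/
theorem step (d : Derivation ℤ K K) (v : ℕ → K) (h0 : 3 * d (v 0) = e5 v dv0)
    (h1 : 3 * d (v 1) = e5 v dv1) (h2 : 3 * d (v 2) = e5 v dv2) (h3 : 3 * d (v 3) = e5 v dv3)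
    (h4 : 3 * d (v 4) = e5 v dv4) {G Q M P : P5}
    (hc : L5.isz (L5.add (L5.mul G Q) (L5.add (L5.mul M P) (der P))) = true)
    (hP : e5 v P = 0) : e5 v G * e5 v Q = 0 := by
  have h := (ok5 v).isz _ hc
  rw [(ok5 v).add, (ok5 v).add, (ok5 v).mul, (ok5 v).mul, e5_der d v h0 h1 h2 h3 h4, hP,
    map_zero] at h
  linear_combination h

theorem stepc [CharZero K] (d : Derivation ℤ K K) (v : ℕ → K) (h0 : 3 * d (v 0) = e5 v dv0)
    (h1 : 3 * d (v 1) = e5 v dv1) (h2 : 3 * d (v 2) = e5 v dv2) (h3 : 3 * d (v 3) = e5 v dv3)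
    (h4 : 3 * d (v 4) = e5 v dv4) {n : Int} {Q M P : P5} (hn : n ≠ 0)
    (hc : L5.isz (L5.add (L5.mul (con n) Q) (L5.add (L5.mul M P) (der P))) = true)
    (hP : e5 v P = 0) : e5 v Q = 0 := by
  have h := step d v h0 h1 h2 h3 h4 hc hP
  rw [e5_con] at h
  rcases mul_eq_zero.mp h with h | h
  · exact absurd (Int.cast_eq_zero.mp h) hn
  · exact h

/-- the values of the variables -/
def vv (J c y Z x : K) (i : ℕ) : K :=
  match i with
  | 0 => J
  | 1 => c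
  | 2 => y
  | 3 => Z
  | _ => x

theorem sys_false [CharZero K] (d : Derivation ℤ K K) (J c y Z x : K)
    (hJ : d J = -2 * J * (J + y - 1)) (hc : d c = -2 * c * (J + y - 2))
    (hy : d y = Z - x - 2 * y * (J + y - 2)) (hZ : d Z = -2 * Z * (J + y - 1) + 2 / 3 * x)
    (hx : d x = (J + y - 1) * Z + 2 / 3 * x + (c + y) * y - 3 * x * (J + y - 1))
    (hK : e5 (vv J c y Z x) K1 = 0) (hN : (J - 1) * (Z + 2 * y) + y ^ 2 ≠ 0) (hc0 : c ≠ 0)
    (hx0 : x ≠ 0) : False := by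
  set v := vv J c y Z x with hv
  have v0 : v 0 = J := rfl
  have v1 : v 1 = c := rfl
  have v2 : v 2 = y := rfl
  have v3 : v 3 = Z := rfl
  have v4 : v 4 = x := rfl
  have h0 : 3 * d (v 0) = e5 v dv0 := by
    simp only [e5, e4, e3, e2, e1, dv0, ev_cons, ev_nil, e0, v0, v1, v2, v3, v4, hJ]
    push_cast
    ring
  have h1 : 3 * d (v 1) = e5 v dv1 := by
    simp only [e5, e4, e3, e2, e1, dv1, ev_cons, ev_nil, e0, v0, v1, v2, v3, v4, hc]
    push_cast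
    ring
  have h2 : 3 * d (v 2) = e5 v dv2 := by
    simp only [e5, e4, e3, e2, e1, dv2, ev_cons, ev_nil, e0, v0, v1, v2, v3, v4, hy]
    push_cast
    ring
  have h3 : 3 * d (v 3) = e5 v dv3 := by
    simp only [e5, e4, e3, e2, e1, dv3, ev_cons, ev_nil, e0, v0, v1, v2, v3, v4, hZ]
    push_cast
    ring
  have h4 : 3 * d (v 4) = e5 v dv4 := by
    simp only [e5, e4, e3, e2, e1, dv4, ev_cons, ev_nil, e0, v0, v1, v2, v3, v4, hx]
    push_cast
    ring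
  have s1 : e5 v S1 = 0 := by
    have h := step d v h0 h1 h2 h3 h4 chkK hK
    rcases mul_eq_zero.mp h with h | h
    · exfalso
      have e : e5 v GK = 2 * ((J - 1) * (Z + 2 * y) + y ^ 2) := by
        simp only [e5, e4, e3, e2, e1, GK, ev_cons, ev_nil, e0, v0, v1, v2, v3, v4]
        push_cast
        ring
      rw [e] at h
      exact hN (by simpa using h)
    · exact h
  have s2 := stepc d v h0 h1 h2 h3 h4 (by decide) chkS1 s1
  have s3 := stepc d v h0 h1 h2 h3 h4 (by decide) chkS2 s2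
  have s4 := stepc d v h0 h1 h2 h3 h4 (by decide) chkS3 s3
  have s5 := stepc d v h0 h1 h2 h3 h4 (by decide) chkS4 s4
  have s6 := stepc d v h0 h1 h2 h3 h4 (by decide) chkS5 s5
  have s7 := stepc d v h0 h1 h2 h3 h4 (by decide) chkS6 s6
  have s8 := stepc d v h0 h1 h2 h3 h4 (by decide) chkS7 s7
  have g1 : e5 v G1 = 0 := by
    have h := (ok5 v).isz _ chkG
    rw [(ok5 v).add, (ok5 v).add, (ok5 v).add, (ok5 v).mul, (ok5 v).mul, (ok5 v).mul,
      (ok5 v).mul, s1, s2, s3, mul_zero, mul_zero, mul_zero, add_zero, add_zero, add_zero,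
      e5_con] at h
    rcases mul_eq_zero.mp h with h | h
    · exact absurd (Int.cast_eq_zero.mp h) (by decide)
    · exact h
  have g2 := stepc d v h0 h1 h2 h3 h4 (by decide) chkG1 g1
  have g3 := stepc d v h0 h1 h2 h3 h4 (by decide) chkG2 g2
  have h := (ok5 v).isz _ cert
  simp only [(ok5 v).add, (ok5 v).mul, s1, s2, s3, s4, s5, s6, s7, s8, g1, g3, hK, mul_zero,
    zero_add] at h
  rw [e5_con] at h
  rcases mul_eq_zero.mp h with h | h
  · exact absurd (Int.cast_eq_zero.mp h) (by decide)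
  · have e : e5 v T0 = x ^ 4 * c ^ 2 := by
      simp only [e5, e4, e3, e2, e1, T0, ev_cons, ev_nil, e0, v0, v1, v2, v3, v4]
      push_cast
      ring
    rw [e] at h
    rcases mul_eq_zero.mp h with h | h
    · exact hx0 (pow_eq_zero_iff (by norm_num) |>.mp h)
    · exact hc0 (pow_eq_zero_iff (by norm_num) |>.mp h)

/-- scaling -/
theorem d_scale (d : Derivation ℤ K K) (t f : K) (ht : t ≠ 0) (n : ℕ) :
    (t⁻¹ • d) (f / t ^ n) = (d f - n * f * (d t / t)) / t ^ (n + 1) := by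
  have h1 : d (f / t ^ n * t ^ n) = d f := by
    rw [div_mul_cancel₀ _ (pow_ne_zero _ ht)]
  rw [der_mul, Derivation.leibniz_pow] at h1
  have h2 : (t⁻¹ • d) (f / t ^ n) = t⁻¹ * d (f / t ^ n) := rfl
  rw [h2]
  have h3 : d (f / t ^ n) = (d f - f / t ^ n * (n • t ^ (n - 1) • d t)) / t ^ n := by
    rw [eq_div_iff (pow_ne_zero _ ht)]
    linear_combination h1
  rw [h3]
  cases n with
  | zero =>
    simp
    field_simp
  | succ m =>
    simp only [Nat.add_sub_cancel, nsmul_eq_mul, smul_eq_mul]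
    field_simp
    ring

theorem branchC [CharZero K] (E : XY K) (hy : E.y = 0) (hx : E.x ≠ 0) : False := by
  have heta := E.heta
  have hw := E.hw
  obtain ⟨e1, e2, p, q, w, a, b, x, y, c, comm, hc1, hc2, hc, hw', hrho, heta', e1w, e2w, e1xi, e2xi,
    e1eta, e2eta, e2x, e1y, gauss, m1, m2⟩ := E
  simp only at hy hx heta hw
  subst hy
  have h2 : (2 : K) ≠ 0 := by norm_num
  have h3 : (3 : K) ≠ 0 := by norm_num
  have hp : p = 0 := by
    rw [map_zero] at e1y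
    have : 2 * b * x * p = 0 := by linear_combination e1y
    rcases mul_eq_zero.mp this with h | h
    · exfalso
      exact (mul_ne_zero (mul_ne_zero h2 heta) hx) h
    · exact h
  subst hp
  rw [map_zero] at m1 m2 gauss
  have C0 : 3 * b ^ 2 * x ^ 2 + b ^ 2 * w ^ 2 * a / 2 + (a + 2) * (6 * x ^ 2 + 3 * a * x ^ 2
      + w ^ 2 * (1 + a ^ 2) / 2 - c) + 4 * q * x * b = 0 := by
    linear_combination (2 + a) * m1 - b * m2
  have e1q : e1 q = w ^ 2 * (1 - a ^ 2 - b ^ 2) / 4 + q ^ 2 := by linear_combination gauss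
  have hm1 : b * e1 x = -(6 * x ^ 2 + 3 * a * x ^ 2 + w ^ 2 * (1 + a ^ 2) / 2 - c)
      - b * q * x := by linear_combination m1
  -- homogeneous variables
  obtain ⟨t, ht⟩ : ∃ t : K, t = -q := ⟨_, rfl⟩
  obtain ⟨J, hJ⟩ : ∃ J : K, 4 * J = w ^ 2 * ((1 - a) ^ 2 + b ^ 2) + 4 * q ^ 2 :=
    ⟨(w ^ 2 * ((1 - a) ^ 2 + b ^ 2) + 4 * q ^ 2) / 4, by field_simp⟩
  obtain ⟨Y, hY⟩ : ∃ Y : K, 2 * Y = -w ^ 2 * (1 - a) := ⟨-w ^ 2 * (1 - a) / 2, by field_simp⟩
  obtain ⟨Z, hZ⟩ : ∃ Z : K, Z = -w ^ 2 * a := ⟨_, rfl⟩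
  obtain ⟨X, hX⟩ : ∃ X : K, 2 * X = -3 * x * b * w ^ 2 := ⟨-3 * x * b * w ^ 2 / 2, by field_simp⟩
  have dw2 : e1 (w ^ 2) = -2 * x * b * w ^ 2 := by
    rw [der_sq, e1w]
    ring
  have dt : e1 t = J + Y - 2 * t ^ 2 := by
    rw [ht, map_neg, e1q]
    linear_combination -hJ / 4 - hY / 2
  have dJ : e1 J = -2 * t * J := by
    have h := congrArg e1 hJ
    have e4 : e1 (4 : K) = 0 := der_ofNat e1 4
    simp only [der_mul, e4, map_add, der_sq, map_sub, der_one, e1w, e1xi, e1eta, e1q] at h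
    have h4 : (4 : K) ≠ 0 := by norm_num
    apply mul_left_cancel₀ h4
    rw [ht]
    linear_combination h - 2 * q * hJ
  have dY : e1 Y = t * Z - X := by
    have h := congrArg e1 hY
    rw [der_mul, der_ofNat, neg_mul, map_neg, der_mul, map_sub, der_one, dw2, e1xi] at h
    apply mul_left_cancel₀ h2
    rw [ht, hZ]
    linear_combination h + hX
  have dZ : e1 Z = -2 * t * Z + 2 / 3 * X := by
    rw [hZ, neg_mul, map_neg, der_mul, dw2, e1xi, ht]
    linear_combination -hX / 3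
  have dX : e1 X = (J + Y - t ^ 2) * Z - 7 / 3 * t * X + (c + Y) * Y := by
    have h := congrArg e1 hX
    rw [der_mul, der_ofNat, der_mul, der_mul, der_mul, map_neg, der_ofNat, dw2, e1eta] at h
    apply mul_left_cancel₀ h2
    rw [ht, hZ]
    have hJ' : J = (w ^ 2 * ((1 - a) ^ 2 + b ^ 2) + 4 * q ^ 2) / 4 := by linear_combination hJ / 4
    have hY' : Y = -w ^ 2 * (1 - a) / 2 := by linear_combination hY / 2
    have hX' : X = -3 * x * b * w ^ 2 / 2 := by linear_combination hX / 2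
    rw [hJ', hY']
    rw [show 7 / 3 * -q * X = 7 / 3 * -q * (-3 * x * b * w ^ 2 / 2) by rw [← hX']]
    linear_combination h - 3 * w ^ 2 * hm1 + w ^ 2 * C0
  have hX0 : X ≠ 0 := by
    intro h
    rw [h, mul_zero] at hX
    have : 3 * x * b * w ^ 2 = 0 := by linear_combination hX
    exact (mul_ne_zero (mul_ne_zero (mul_ne_zero h3 hx) heta) (pow_ne_zero 2 hw)) this
  have ht0 : t ≠ 0 := by
    intro h
    rw [h, map_zero] at dt
    have h1 : J + Y = 0 := by linear_combination -dt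
    have h2' := congrArg e1 h1
    rw [map_add, dJ, dY, h, map_zero] at h2'
    apply hX0
    linear_combination -h2'
  have hN : (J - t ^ 2) * (Z + 2 * Y) + Y ^ 2 = -(w ^ 4 * b ^ 2 / 4) := by
    have hJ' : J = (w ^ 2 * ((1 - a) ^ 2 + b ^ 2) + 4 * q ^ 2) / 4 := by linear_combination hJ / 4
    have hY' : Y = -w ^ 2 * (1 - a) / 2 := by linear_combination hY / 2
    rw [hJ', hY', hZ, ht]
    ring
  have hK : 4*X^2*t^2 + 9*X^2*Z + 6*X^2*Y - 4*X^2*J - 8*X*t^3*Z - 16*X*t^3*Y + 8*X*t*Z*J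
      + 8*X*t*Y^2 + 16*X*t*Y*J - 6*t^4*Z^2 - 12*t^4*Z*Y - 9*t^2*Z^3 - 30*t^2*Z^2*Y
      - 9*t^2*Z^2*c + 12*t^2*Z^2*J - 30*t^2*Z*Y^2 - 30*t^2*Z*Y*c + 24*t^2*Z*Y*J - 24*t^2*Y^3
      - 24*t^2*Y^2*c + 9*Z^3*J + 9*Z^2*Y^2 + 30*Z^2*Y*J + 9*Z^2*c*J - 6*Z^2*J^2 + 12*Z*Y^3
      + 9*Z*Y^2*c + 30*Z*Y^2*J + 30*Z*Y*c*J - 12*Z*Y*J^2 + 12*Y^4 + 12*Y^3*c + 24*Y^3*J
      + 24*Y^2*c*J = 0 := by
    have hJ' : J = (w ^ 2 * ((1 - a) ^ 2 + b ^ 2) + 4 * q ^ 2) / 4 := by linear_combination hJ / 4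
    have hY' : Y = -w ^ 2 * (1 - a) / 2 := by linear_combination hY / 2
    have hX' : X = -3 * x * b * w ^ 2 / 2 := by linear_combination hX / 2
    rw [hJ', hY', hZ, ht, hX']
    linear_combination (-3 / 4 * w ^ 6 * b ^ 2) * C0
  have hv : e5 (vv (J / t ^ 2) (c / t ^ 2) (Y / t ^ 2) (Z / t ^ 2) (X / t ^ 3)) K1 = 0 := by
    have v0 : vv (J / t ^ 2) (c / t ^ 2) (Y / t ^ 2) (Z / t ^ 2) (X / t ^ 3) 0 = J / t ^ 2 := rfl
    have v1 : vv (J / t ^ 2) (c / t ^ 2) (Y / t ^ 2) (Z / t ^ 2) (X / t ^ 3) 1 = c / t ^ 2 := rfl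
    have v2 : vv (J / t ^ 2) (c / t ^ 2) (Y / t ^ 2) (Z / t ^ 2) (X / t ^ 3) 2 = Y / t ^ 2 := rfl
    have v3 : vv (J / t ^ 2) (c / t ^ 2) (Y / t ^ 2) (Z / t ^ 2) (X / t ^ 3) 3 = Z / t ^ 2 := rfl
    have v4 : vv (J / t ^ 2) (c / t ^ 2) (Y / t ^ 2) (Z / t ^ 2) (X / t ^ 3) 4 = X / t ^ 3 := rfl
    have h8 : t ^ 8 ≠ 0 := pow_ne_zero _ ht0
    apply mul_left_cancel₀ h8
    rw [mul_zero, ← hK]
    simp only [e5, e4, e3, PL.e2, PL.e1, K1, ev_cons, ev_nil, e0, v0, v1, v2, v3, v4]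
    push_cast
    field_simp
    ring
  refine sys_false (t⁻¹ • e1) (J / t ^ 2) (c / t ^ 2) (Y / t ^ 2) (Z / t ^ 2) (X / t ^ 3)
    ?_ ?_ ?_ ?_ ?_ hv ?_ (div_ne_zero hc (pow_ne_zero _ ht0)) (div_ne_zero hX0 (pow_ne_zero _ ht0))
  · rw [d_scale e1 t J ht0 2, dJ, dt]
    field_simp
    push_cast
    ring
  · rw [d_scale e1 t c ht0 2, hc1, dt]
    field_simp
    push_cast
    ring
  · rw [d_scale e1 t Y ht0 2, dY, dt]
    field_simp
    push_cast
    ring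
  · rw [d_scale e1 t Z ht0 2, dZ, dt]
    field_simp
    push_cast
    ring
  · rw [d_scale e1 t X ht0 3, dX, dt]
    field_simp
    push_cast
    ring
  · have e : (J / t ^ 2 - 1) * (Z / t ^ 2 + 2 * (Y / t ^ 2)) + (Y / t ^ 2) ^ 2
        = ((J - t ^ 2) * (Z + 2 * Y) + Y ^ 2) / t ^ 4 := by
      field_simp
    rw [e, hN]
    refine div_ne_zero (neg_ne_zero.mpr (div_ne_zero (mul_ne_zero (pow_ne_zero _ hw)
      (pow_ne_zero _ heta)) (by norm_num))) (pow_ne_zero _ ht0)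

end Pool.Agent.H99.N2.BC
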