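import Mathlib

/-!
# Surfaces in Euclidean 4-space: the definitions used in the statement

A parametrised surface is a smooth map `X` from an open subset `U` of the plane to `E^4` whose
differential is injective at each point of `U`.
-/

namespace Pool.Agent.H99.N2

open scoped ContDiff

/-- The plane. -/
abbrev E2 := EuclideanSpace ℝ (Fin 2)

/-- Euclidean 4-space. -/
abbrev E4 := EuclideanSpace ℝ (Fin 4)

/-- Partial derivative of a (vector valued) function of two variables. -/
noncomputable def pd {F : Type} [NormedAddCommGroup F] [NormedSpace ℝ F] (i : Fin 2)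
    (f : E2 → F) (x : E2) : F :=
  fderiv ℝ f x (EuclideanSpace.single i 1)

/-- The matrix `g_ij = <X_i, X_j>` of the induced metric in the coordinates of the plane. -/
noncomputable def metric (X : E2 → E4) (x : E2) : Matrix (Fin 2) (Fin 2) ℝ :=
  Matrix.of fun i j => inner ℝ (pd i X x) (pd j X x)

/-- The Laplace operator `Δ = - div grad` of the induced metric,
`Δ f = -(1/√g) Σ_ij ∂_i (√g g^ij ∂_j f)`, acting on vector valued functions. -/
noncomputable def lap (X : E2 → E4) {F : Type} [NormedAddCommGroup F] [NormedSpace ℝ F]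
    (f : E2 → F) (x : E2) : F :=
  -((Real.sqrt (metric X x).det)⁻¹ • ∑ i, pd i (fun y => ∑ j,
    (Real.sqrt (metric X y).det * (metric X y)⁻¹ i j) • pd j f y) x)

/-- The tangent plane of the surface. -/
noncomputable def tangentPlane (X : E2 → E4) (x : E2) : Submodule ℝ E4 :=
  Submodule.span ℝ (Set.range fun i => pd i X x)

/-- The component of a vector orthogonal to the surface. -/
noncomputable def normalPart (X : E2 → E4) (x : E2) (v : E4) : E4 :=
  (tangentPlane X x)ᗮ.starProjection v

/-- The mean curvature vector `H = (1/2) Σ_ij g^ij h_ij`, where `h_ij` is the normal part of the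
second derivative `X_ij` (second fundamental form). -/
noncomputable def meanCurv (X : E2 → E4) (x : E2) : E4 :=
  (1 / 2 : ℝ) • ∑ i, ∑ j, (metric X x)⁻¹ i j • normalPart X x (pd i (pd j X) x)

/-- The normal connection: covariant derivative of a normal field in the direction `i`. -/
noncomputable def nablaPerp (X : E2 → E4) (i : Fin 2) (n : E2 → E4) (x : E2) : E4 :=
  normalPart X x (pd i n x)

/-- `X : U → E^4` is a smooth immersion. -/
def IsSurface (X : E2 → E4) (U : Set E2) : Prop :=
  ContDiffOn ℝ ∞ X U ∧ ∀ x ∈ U, Function.Injective (fderiv ℝ X x)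

/-- The normal bundle is flat: the covariant derivatives of the normal connection in the two
coordinate directions commute on each smooth normal field. -/
def FlatNormalBundle (X : E2 → E4) (U : Set E2) : Prop :=
  ∀ n : E2 → E4, ContDiffOn ℝ ∞ n U → (∀ x ∈ U, n x ∈ (tangentPlane X x)ᗮ) →
    ∀ x ∈ U, nablaPerp X 0 (nablaPerp X 1 n) x = nablaPerp X 1 (nablaPerp X 0 n) x

/-- `X` is of null 2-type: `X = x0 + X1 + X2` with `x0` constant, `X1`, `X2` non-constant,
`Δ X1 = 0`, `Δ X2 = lam X2`, `lam ≠ 0`. -/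
def IsNullTwoType (X : E2 → E4) (U : Set E2) : Prop :=
  ∃ (x0 : E4) (X1 X2 : E2 → E4) (lam : ℝ), lam ≠ 0 ∧ ContDiffOn ℝ ∞ X1 U ∧
    ContDiffOn ℝ ∞ X2 U ∧ (∀ x ∈ U, X x = x0 + X1 x + X2 x) ∧
    (∀ x ∈ U, lap X X1 x = 0) ∧ (∀ x ∈ U, lap X X2 x = lam • X2 x) ∧
    (¬ ∃ v, ∀ x ∈ U, X1 x = v) ∧ (¬ ∃ v, ∀ x ∈ U, X2 x = v)

end Pool.Agent.H99.N2
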