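import Mathlib

/-!
# Null 2-type surfaces: the structure equations in a differential field

`NF K` is the list of the equations of a surface in E^4 with flat normal bundle and
Delta H = c H in a principal frame, read in a differential field `K` of characteristic 0 with
two derivations `e1`, `e2`:
N = w n1 (N = trace of the second fundamental form, W = w^2 = |N|^2),
a1 = h(e1,e1) = (w/2)((1+xi) n1 + eta n2), a2 = h(e2,e2) = (w/2)((1-xi) n1 - eta n2),
nabla_{e1} e1 = p e2, nabla_{e2} e2 = q e1, s_i = normal connection form <e_i n1, n2>.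
-/

namespace Pool.Agent.H99.N2

structure NF (K : Type) [Field K] where
  e1 : Derivation ℤ K K
  e2 : Derivation ℤ K K
  p : K
  q : K
  w : K
  xi : K
  eta : K
  s1 : K
  s2 : K
  c : K
  comm : ∀ f : K, e1 (e2 f) - e2 (e1 f) = -p * e1 f + q * e2 f
  hc1 : e1 c = 0
  hc2 : e2 c = 0
  hc : c ≠ 0
  hw : w ≠ 0
  hrho : xi ^ 2 + eta ^ 2 ≠ 0 ∨ (xi = 0 ∧ eta = 0)
  cod1 : e2 (w * (1 + xi)) = 2 * p * w * xi + w * eta * s2
  cod2 : e2 (w * eta) = 2 * p * w * eta - w * (1 + xi) * s2
  cod3 : e1 (w * (1 - xi)) = -2 * q * w * xi - w * eta * s1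
  cod4 : e1 (w * eta) = 2 * q * w * eta + w * (1 - xi) * s1
  gauss : e1 q + e2 p = w ^ 2 * (1 - xi ^ 2 - eta ^ 2) / 4 + p ^ 2 + q ^ 2
  ricci : e1 s2 - e2 s1 = -p * s1 + q * s2
  tan1 : (2 + xi) * e1 w + eta * w * s1 = 0
  tan2 : (2 - xi) * e2 w - eta * w * s2 = 0
  nor1 : e1 (e1 w) - w * s1 ^ 2 + e2 (e2 w) - w * s2 ^ 2 - p * e2 w - q * e1 w
      = w ^ 3 * (1 + xi ^ 2) / 2 - c * w
  nor2 : 2 * e1 w * s1 + w * e1 s1 + 2 * e2 w * s2 + w * e2 s2 - p * w * s2 - q * w * s1
      = w ^ 3 * xi * eta / 2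
  re1 : (2 + xi) ^ 2 + eta ^ 2 ≠ 0 ∨ (2 + xi = 0 ∧ eta = 0)
  re2 : (2 - xi) ^ 2 + eta ^ 2 ≠ 0 ∨ (2 - xi = 0 ∧ eta = 0)

/-- The equations in the variables `x`, `y` with `s1 = x (2+xi)`, `s2 = y (2-xi)`. -/
structure XY (K : Type) [Field K] where
  e1 : Derivation ℤ K K
  e2 : Derivation ℤ K K
  p : K
  q : K
  w : K
  xi : K
  eta : K
  x : K
  y : K
  c : K
  comm : ∀ f : K, e1 (e2 f) - e2 (e1 f) = -p * e1 f + q * e2 f
  hc1 : e1 c = 0
  hc2 : e2 c = 0
  hc : c ≠ 0
  hw : w ≠ 0
  hrho : xi ^ 2 + eta ^ 2 ≠ 0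
  heta : eta ≠ 0
  e1w : e1 w = -x * eta * w
  e2w : e2 w = y * eta * w
  e1xi : e1 xi = 2 * q * xi + x * eta * (1 + 2 * xi)
  e2xi : e2 xi = 2 * p * xi + y * eta * (1 - 2 * xi)
  e1eta : e1 eta = 2 * q * eta + x * (2 - xi - xi ^ 2 + eta ^ 2)
  e2eta : e2 eta = 2 * p * eta - y * (2 + xi - xi ^ 2 + eta ^ 2)
  e2x : 2 * eta * e2 x = -2 * eta * q * y - x * y * (xi ^ 2 + eta ^ 2 - 2 * xi)
  e1y : 2 * eta * e1 y = -2 * eta * p * x + x * y * (xi ^ 2 + eta ^ 2 + 2 * xi)
  gauss : e1 q + e2 p = w ^ 2 * (1 - xi ^ 2 - eta ^ 2) / 4 + p ^ 2 + q ^ 2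
  m1 : eta * (e1 x - e2 y - p * y + q * x)
      = -(6 * (x ^ 2 + y ^ 2) + 3 * xi * (x ^ 2 - y ^ 2) + w ^ 2 * (1 + xi ^ 2) / 2 - c)
  m2 : (2 + xi) * e1 x + (2 - xi) * e2 y - q * x * (2 - xi) - p * y * (2 + xi)
      = 3 * eta * (x ^ 2 - y ^ 2) + w ^ 2 * xi * eta / 2

variable {K : Type} [Field K]

/-- Exchange of the two principal directions. -/
def NF.swap (D : NF K) : NF K where
  e1 := D.e2
  e2 := D.e1
  p := D.q
  q := D.p
  w := D.w
  xi := -D.xi
  eta := -D.eta
  s1 := D.s2
  s2 := D.s1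
  c := D.c
  comm := fun f => by linear_combination -D.comm f
  hc1 := D.hc2
  hc2 := D.hc1
  hc := D.hc
  hw := D.hw
  hrho := by
    rcases D.hrho with h | ⟨h1, h2⟩
    · left
      intro h'
      apply h
      linear_combination h'
    · right
      exact ⟨by rw [h1, neg_zero], by rw [h2, neg_zero]⟩
  cod1 := by
    have h := D.cod3
    have e : D.w * (1 + -D.xi) = D.w * (1 - D.xi) := by ring
    rw [e, h]
    ring
  cod2 := by
    have h := D.cod4
    have e : D.w * -D.eta = -(D.w * D.eta) := by ring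
    rw [e, map_neg, h]
    ring
  cod3 := by
    have h := D.cod1
    have e : D.w * (1 - -D.xi) = D.w * (1 + D.xi) := by ring
    rw [e, h]
    ring
  cod4 := by
    have h := D.cod2
    have e : D.w * -D.eta = -(D.w * D.eta) := by ring
    rw [e, map_neg, h]
    ring
  gauss := by linear_combination D.gauss
  ricci := by linear_combination -D.ricci
  tan1 := by linear_combination D.tan2
  tan2 := by linear_combination D.tan1
  nor1 := by linear_combination D.nor1
  nor2 := by linear_combination D.nor2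
  re1 := by
    rcases D.re2 with h | ⟨h1, h2⟩
    · left
      intro h'
      apply h
      linear_combination h'
    · right
      exact ⟨by linear_combination h1, by rw [h2, neg_zero]⟩
  re2 := by
    rcases D.re1 with h | ⟨h1, h2⟩
    · left
      intro h'
      apply h
      linear_combination h'
    · right
      exact ⟨by linear_combination h1, by rw [h2, neg_zero]⟩

/-- Exchange of the two principal directions. -/
def XY.swap (D : XY K) : XY K where
  e1 := D.e2
  e2 := D.e1
  p := D.q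
  q := D.p
  w := D.w
  xi := -D.xi
  eta := -D.eta
  x := D.y
  y := D.x
  c := D.c
  comm := fun f => by linear_combination -D.comm f
  hc1 := D.hc2
  hc2 := D.hc1
  hc := D.hc
  hw := D.hw
  hrho := by
    have := D.hrho
    intro h
    apply this
    linear_combination h
  heta := neg_ne_zero.mpr D.heta
  e1w := by linear_combination D.e2w
  e2w := by linear_combination D.e1w
  e1xi := by
    rw [map_neg]
    linear_combination -D.e2xi
  e2xi := by
    rw [map_neg]
    linear_combination -D.e1xi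
  e1eta := by
    rw [map_neg]
    linear_combination -D.e2eta
  e2eta := by
    rw [map_neg]
    linear_combination -D.e1eta
  e2x := by linear_combination -D.e1y
  e1y := by linear_combination -D.e2x
  gauss := by linear_combination D.gauss
  m1 := by linear_combination D.m1
  m2 := by linear_combination D.m2

end Pool.Agent.H99.N2
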