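import Pool.Agent.H99.N2.DF

/-!
# MODULE GFrame: existence of an orthonormal frame, basic formulas in a frame

Proofs. A sum of four squares is a square (`pyth` three times) and vanishes only trivially (`real`).
`exists_ofr`: write x0 = dv (d 0) X, x1 = dv (d 1) X, g_ij = gm D X i j.  g_00 = x0 . x0 ≠ 0, since
otherwise x0 = 0 and gdet = 0.  g_00 = r^2 with r ≠ 0 (sum of four squares).  The vector
y = x1 - (g_01 / g_00) x0 satisfies x0 . y = 0 and y . y = gdet / g_00 ≠ 0, y . y = s^2, s ≠ 0.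
Take a = (1/r, 0), b = (-g_01/(g_00 s), 1/s); then o11, o12, o22 are computations with
x_i . x_j = g_ij.
`gi_eq`: the matrix A = [[a0, a1],[b0, b1]] satisfies A g A^T = 1 (o11, o12, o22 expanded), hence
g = A^{-1} A^{-T}, g^{-1} = A^T A and det A ^ 2 * gdet = 1.
`nor_eq`: expand with `gi_eq`: Σ_ij (a_i a_j + b_i b_j) (x_i . v) x_j = (u1 . v) u1 + (u2 . v) u2.
`tr_eq`: same expansion, norK is linear and kills x_j:
norK (Σ_i a_i d_i (Σ_j a_j x_j)) = Σ_ij a_i a_j norK (d_i x_j).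
-/

namespace Pool.Agent.H99.N2

open Matrix

variable {K : Type} [Field K]

theorem sq4 (D : DF K) (v : Fin 4 → K) : ∃ c, v ⬝ᵥ v = c ^ 2 := by
  obtain ⟨c1, h1⟩ := D.pyth (v 0) (v 1)
  obtain ⟨c2, h2⟩ := D.pyth (v 2) (v 3)
  obtain ⟨c, h3⟩ := D.pyth c1 c2
  refine ⟨c, ?_⟩
  simp only [dotProduct, Fin.sum_univ_four]
  linear_combination h1 + h2 + h3

theorem dot_self_eq_zero (D : DF K) (v : Fin 4 → K) (h : v ⬝ᵥ v = 0) : v = 0 := by
  obtain ⟨c1, h1⟩ := D.pyth (v 0) (v 1)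
  obtain ⟨c2, h2⟩ := D.pyth (v 2) (v 3)
  simp only [dotProduct, Fin.sum_univ_four] at h
  have h12 : c1 ^ 2 + c2 ^ 2 = 0 := by linear_combination h - h1 - h2
  have h21 : c2 ^ 2 + c1 ^ 2 = 0 := by linear_combination h12
  have hc1 : c1 = 0 := D.real _ _ h12
  have hc2 : c2 = 0 := D.real _ _ h21
  have e0 : v 0 = 0 := D.real (v 0) (v 1) (by rw [h1, hc1]; ring)
  have e1 : v 1 = 0 := D.real (v 1) (v 0) (by rw [add_comm, h1, hc1]; ring)
  have e2 : v 2 = 0 := D.real (v 2) (v 3) (by rw [h2, hc2]; ring)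
  have e3 : v 3 = 0 := D.real (v 3) (v 2) (by rw [add_comm, h2, hc2]; ring)
  funext k
  fin_cases k
  · exact e0
  · exact e1
  · exact e2
  · exact e3

private theorem gm_symm (D : DF K) (X : Fin 4 → K) (i j : Fin 2) : gm D X i j = gm D X j i := by
  unfold gm
  exact dotProduct_comm _ _

theorem exists_ofr (D : DF K) (X : Fin 4 → K) (h : gdet D X ≠ 0) : Nonempty (OFr D X) := by
  obtain ⟨r, hr⟩ := sq4 D (dv (D.d 0) X)
  have g00 : gm D X 0 0 = r ^ 2 := hr
  have hr0 : r ≠ 0 := by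
    intro h0
    have hx : dv (D.d 0) X = 0 := by
      apply dot_self_eq_zero D
      rw [hr, h0]
      ring
    apply h
    simp only [gdet, gm, hx, zero_dotProduct]
    ring
  set t : K := gm D X 0 1 / r ^ 2 with ht
  have htr : t * r ^ 2 = gm D X 0 1 := by
    rw [ht]
    field_simp
  obtain ⟨s, hs⟩ := sq4 D (dv (D.d 1) X - t • dv (D.d 0) X)
  have hyy : (dv (D.d 1) X - t • dv (D.d 0) X) ⬝ᵥ (dv (D.d 1) X - t • dv (D.d 0) X)
      = gm D X 1 1 - 2 * t * gm D X 0 1 + t ^ 2 * gm D X 0 0 := by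
    simp only [sub_dotProduct, dotProduct_sub, smul_dotProduct, dotProduct_smul, smul_eq_mul]
    have e : dv (D.d 1) X ⬝ᵥ dv (D.d 0) X = dv (D.d 0) X ⬝ᵥ dv (D.d 1) X := dotProduct_comm _ _
    rw [e]
    unfold gm
    ring
  have hG : gdet D X = r ^ 2 * s ^ 2 := by
    have : s ^ 2 = gm D X 1 1 - 2 * t * gm D X 0 1 + t ^ 2 * gm D X 0 0 := by rw [← hs, hyy]
    unfold gdet
    rw [this, g00, ← htr]
    ring
  have hs0 : s ≠ 0 := by
    intro h0
    apply h
    rw [hG, h0]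
    ring
  refine ⟨⟨![r⁻¹, 0], ![-(t * s⁻¹), s⁻¹], ?_, ?_, ?_⟩⟩
  · simp only [Fin.sum_univ_two, Matrix.cons_val_zero, Matrix.cons_val_one, zero_smul, add_zero,
      smul_dotProduct, dotProduct_smul, smul_eq_mul]
    rw [hr]
    field_simp
  · simp only [Fin.sum_univ_two, Matrix.cons_val_zero, Matrix.cons_val_one, zero_smul, add_zero,
      smul_dotProduct, dotProduct_smul, smul_eq_mul, dotProduct_add]
    have e : dv (D.d 0) X ⬝ᵥ dv (D.d 1) X = t * r ^ 2 := by rw [htr]; rfl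
    rw [hr, e]
    ring
  · simp only [Fin.sum_univ_two, Matrix.cons_val_zero, Matrix.cons_val_one]
    have e : (-(t * s⁻¹)) • dv (D.d 0) X + s⁻¹ • dv (D.d 1) X
        = s⁻¹ • (dv (D.d 1) X - t • dv (D.d 0) X) := by
      ext k
      simp only [Pi.add_apply, Pi.smul_apply, Pi.sub_apply, smul_eq_mul]
      ring
    rw [e]
    simp only [smul_dotProduct, dotProduct_smul, smul_eq_mul]
    rw [hs]
    field_simp

namespace OFr

variable {D : DF K} {X : Fin 4 → K}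

private theorem e1_apply (F : OFr D X) (f : K) : F.e1 f = F.a 0 * D.d 0 f + F.a 1 * D.d 1 f := by
  simp only [e1, Fin.sum_univ_two, Derivation.add_apply, Derivation.smul_apply, smul_eq_mul]

private theorem e2_apply (F : OFr D X) (f : K) : F.e2 f = F.b 0 * D.d 0 f + F.b 1 * D.d 1 f := by
  simp only [e2, Fin.sum_univ_two, Derivation.add_apply, Derivation.smul_apply, smul_eq_mul]

theorem u1_eq (F : OFr D X) : F.u1 = ∑ i, F.a i • dv (D.d i) X := by
  funext k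
  simp only [u1, dv, e1_apply, Fin.sum_univ_two, Pi.add_apply, Pi.smul_apply, smul_eq_mul]

theorem u2_eq (F : OFr D X) : F.u2 = ∑ i, F.b i • dv (D.d i) X := by
  funext k
  simp only [u2, dv, e2_apply, Fin.sum_univ_two, Pi.add_apply, Pi.smul_apply, smul_eq_mul]

private theorem p11 (F : OFr D X) : F.a 0 ^ 2 * gm D X 0 0 + 2 * F.a 0 * F.a 1 * gm D X 0 1
    + F.a 1 ^ 2 * gm D X 1 1 = 1 := by
  have h := F.o11
  simp only [Fin.sum_univ_two, add_dotProduct, dotProduct_add, smul_dotProduct, dotProduct_smul,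
    smul_eq_mul] at h
  have e : dv (D.d 1) X ⬝ᵥ dv (D.d 0) X = dv (D.d 0) X ⬝ᵥ dv (D.d 1) X := dotProduct_comm _ _
  rw [e] at h
  unfold gm
  linear_combination h

private theorem p12 (F : OFr D X) : F.a 0 * F.b 0 * gm D X 0 0
    + (F.a 0 * F.b 1 + F.a 1 * F.b 0) * gm D X 0 1 + F.a 1 * F.b 1 * gm D X 1 1 = 0 := by
  have h := F.o12
  simp only [Fin.sum_univ_two, add_dotProduct, dotProduct_add, smul_dotProduct, dotProduct_smul,
    smul_eq_mul] at h
  have e : dv (D.d 1) X ⬝ᵥ dv (D.d 0) X = dv (D.d 0) X ⬝ᵥ dv (D.d 1) X := dotProduct_comm _ _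
  rw [e] at h
  unfold gm
  linear_combination h

private theorem p22 (F : OFr D X) : F.b 0 ^ 2 * gm D X 0 0 + 2 * F.b 0 * F.b 1 * gm D X 0 1
    + F.b 1 ^ 2 * gm D X 1 1 = 1 := by
  have h := F.o22
  simp only [Fin.sum_univ_two, add_dotProduct, dotProduct_add, smul_dotProduct, dotProduct_smul,
    smul_eq_mul] at h
  have e : dv (D.d 1) X ⬝ᵥ dv (D.d 0) X = dv (D.d 0) X ⬝ᵥ dv (D.d 1) X := dotProduct_comm _ _
  rw [e] at h
  unfold gm
  linear_combination h

theorem det_sq (F : OFr D X) : (F.a 0 * F.b 1 - F.a 1 * F.b 0) ^ 2 * gdet D X = 1 := by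
  have h1 := p11 F
  have h2 := p12 F
  have h3 := p22 F
  unfold gdet
  linear_combination (F.b 0 ^ 2 * gm D X 0 0 + 2 * F.b 0 * F.b 1 * gm D X 0 1
    + F.b 1 ^ 2 * gm D X 1 1) * h1 + h3 - (F.a 0 * F.b 0 * gm D X 0 0
    + (F.a 0 * F.b 1 + F.a 1 * F.b 0) * gm D X 0 1 + F.a 1 * F.b 1 * gm D X 1 1) * h2

private theorem gdet_ne (F : OFr D X) : gdet D X ≠ 0 := by
  intro h
  have := F.det_sq
  rw [h, mul_zero] at this
  exact zero_ne_one this

theorem gi_eq (F : OFr D X) (i j : Fin 2) : gi D X i j = F.a i * F.a j + F.b i * F.b j := by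
  have h1 := p11 F
  have h2 := p12 F
  have h3 := p22 F
  have h4 := F.det_sq
  have h5 := F.gdet_ne
  unfold gi
  rw [div_eq_iff h5]
  have key11 : gm D X 1 1 = (F.a 0 * F.a 0 + F.b 0 * F.b 0) * gdet D X := by
    linear_combination gdet D X * (F.b 0 ^ 2 * h1 - 2 * F.a 0 * F.b 0 * h2 + F.a 0 ^ 2 * h3)
      - gm D X 1 1 * h4
  have key00 : gm D X 0 0 = (F.a 1 * F.a 1 + F.b 1 * F.b 1) * gdet D X := by
    linear_combination gdet D X * (F.b 1 ^ 2 * h1 - 2 * F.a 1 * F.b 1 * h2 + F.a 1 ^ 2 * h3)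
      - gm D X 0 0 * h4
  have key01 : -gm D X 0 1 = (F.a 0 * F.a 1 + F.b 0 * F.b 1) * gdet D X := by
    linear_combination gdet D X * (F.b 0 * F.b 1 * h1 - (F.a 0 * F.b 1 + F.a 1 * F.b 0) * h2
      + F.a 0 * F.a 1 * h3) + gm D X 0 1 * h4
  fin_cases i <;> fin_cases j
  · exact key11
  · exact key01
  · refine Eq.trans key01 ?_
    simp only [Fin.mk_one, Fin.zero_eta]
    ring
  · exact key00

theorem nor_eq (F : OFr D X) (v : Fin 4 → K) :
    norK D X v = v - (F.u1 ⬝ᵥ v) • F.u1 - (F.u2 ⬝ᵥ v) • F.u2 := by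
  rw [u1_eq, u2_eq]
  unfold norK
  simp only [gi_eq F]
  funext k
  simp only [Fin.sum_univ_two, add_dotProduct, smul_dotProduct, smul_eq_mul, Pi.sub_apply,
    Pi.add_apply, Pi.smul_apply]
  ring

private theorem norK_add (v w : Fin 4 → K) : norK D X (v + w) = norK D X v + norK D X w := by
  unfold norK
  funext k
  simp only [Fin.sum_univ_two, dotProduct_add, smul_eq_mul, Pi.sub_apply,
    Pi.add_apply, Pi.smul_apply]
  ring

private theorem norK_smul (c : K) (v : Fin 4 → K) : norK D X (c • v) = c • norK D X v := by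
  unfold norK
  funext k
  simp only [Fin.sum_univ_two, dotProduct_smul, smul_eq_mul, Pi.sub_apply,
    Pi.add_apply, Pi.smul_apply]
  ring

private theorem norK_x (F : OFr D X) (j : Fin 2) : norK D X (dv (D.d j) X) = 0 := by
  have h5 := F.gdet_ne
  funext k
  simp only [norK, Fin.sum_univ_two, smul_eq_mul, Pi.sub_apply, Pi.add_apply, Pi.smul_apply,
    Pi.zero_apply]
  have e00 : gi D X 0 0 = gm D X 1 1 / gdet D X := rfl
  have e01 : gi D X 0 1 = -gm D X 0 1 / gdet D X := rfl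
  have e10 : gi D X 1 0 = -gm D X 0 1 / gdet D X := rfl
  have e11 : gi D X 1 1 = gm D X 0 0 / gdet D X := rfl
  have f : ∀ i j : Fin 2, dv (D.d i) X ⬝ᵥ dv (D.d j) X = gm D X i j := fun _ _ => rfl
  have hG : gdet D X = gm D X 0 0 * gm D X 1 1 - gm D X 0 1 ^ 2 := rfl
  rw [e00, e01, e10, e11, f, f]
  have hs : gm D X 1 0 = gm D X 0 1 := gm_symm D X 1 0
  fin_cases j
  · simp only [Fin.zero_eta]
    rw [hs]
    field_simp
    rw [hG]
    ring
  · simp only [Fin.mk_one]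
    field_simp
    rw [hG]
    ring

private theorem e1_u1 (F : OFr D X) : dv F.e1 F.u1
    = (F.a 0 * D.d 0 (F.a 0) + F.a 1 * D.d 1 (F.a 0)) • dv (D.d 0) X
      + (F.a 0 * D.d 0 (F.a 1) + F.a 1 * D.d 1 (F.a 1)) • dv (D.d 1) X
      + ((F.a 0 * F.a 0) • dv (D.d 0) (dv (D.d 0) X)
      + ((F.a 0 * F.a 1) • dv (D.d 0) (dv (D.d 1) X)
      + ((F.a 1 * F.a 0) • dv (D.d 1) (dv (D.d 0) X)
      + (F.a 1 * F.a 1) • dv (D.d 1) (dv (D.d 1) X)))) := by
  rw [u1_eq]
  funext k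
  simp only [dv, e1_apply, Fin.sum_univ_two, Pi.add_apply, Pi.smul_apply, smul_eq_mul, map_add,
    Derivation.leibniz]
  ring

private theorem e2_u2 (F : OFr D X) : dv F.e2 F.u2
    = (F.b 0 * D.d 0 (F.b 0) + F.b 1 * D.d 1 (F.b 0)) • dv (D.d 0) X
      + (F.b 0 * D.d 0 (F.b 1) + F.b 1 * D.d 1 (F.b 1)) • dv (D.d 1) X
      + ((F.b 0 * F.b 0) • dv (D.d 0) (dv (D.d 0) X)
      + ((F.b 0 * F.b 1) • dv (D.d 0) (dv (D.d 1) X)
      + ((F.b 1 * F.b 0) • dv (D.d 1) (dv (D.d 0) X)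
      + (F.b 1 * F.b 1) • dv (D.d 1) (dv (D.d 1) X)))) := by
  rw [u2_eq]
  funext k
  simp only [dv, e2_apply, Fin.sum_univ_two, Pi.add_apply, Pi.smul_apply, smul_eq_mul, map_add,
    Derivation.leibniz]
  ring

theorem tr_eq (F : OFr D X) :
    trK D X = norK D X (dv F.e1 F.u1) + norK D X (dv F.e2 F.u2) := by
  rw [e1_u1, e2_u2]
  simp only [norK_add, norK_smul, norK_x F, smul_zero, zero_add]
  unfold trK
  simp only [gi_eq F]
  funext k
  simp only [Fin.sum_univ_two, Pi.add_apply, Pi.smul_apply, smul_eq_mul]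
  ring

end OFr

end Pool.Agent.H99.N2
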