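import Pool.Agent.H99.N2.GRot
import Pool.Agent.H99.N2.GBra

/-!
# MODULE GPf: the principal frame as a `PF`

Proof. Take F from `exists_principal`, e1 = F.e1, e2 = F.e2, p = F.p, q = F.q, u1, u2,
a1 = norK (dv e1 u1), a2 = norK (dv e2 u2).  comm = `OFr.comm`.  By `nor_eq`
dv e1 u1 = (u1 . dv e1 u1) u1 + (u2 . dv e1 u1) u2 + a1 with u1 . dv e1 u1 = 0 (derivative of
u1 . u1 = 1, CharZero).  dv e1 u2: u1 . dv e1 u2 = -p, u2 . dv e1 u2 = 0, normal part 0.
dv e2 u1: normal part = that of dv e1 u2 (the difference is dv e1 u2 - dv e2 u1 = -p u1 + q u2 by `comm`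
for f = X k), coefficient along u2: u2 . dv e2 u1 = -q.  lap: `lap_eq` for f = (a1 + a2) k with
`tr_eq`: a1 + a2 = trK, and I.hlap.
-/

namespace Pool.Agent.H99.N2

open Matrix

variable {K : Type} [Field K]

/-- derivative of a dot product -/
private theorem der_dot (D : Derivation ℤ K K) (v w : Fin 4 → K) :
    D (v ⬝ᵥ w) = dv D v ⬝ᵥ w + v ⬝ᵥ dv D w := by
  simp only [dotProduct, dv, map_sum, Derivation.leibniz, smul_eq_mul]
  rw [← Finset.sum_add_distrib]
  exact Finset.sum_congr rfl fun i _ => by ring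

private theorem smul_der {K : Type} [Field K] (D : Fin 2 → Derivation ℤ K K) (a : Fin 2 → K)
    (f : K) : (∑ i, a i • D i) f = a 0 * D 0 f + a 1 * D 1 f := by
  simp [Fin.sum_univ_two]

theorem exists_pf [CharZero K] (I : Imm K) :
    ∃ P : PF K, P.a1 + P.a2 = trK I.D I.X ∧
      (∀ f : K, P.e1 f = 0 → P.e2 f = 0 → ∀ i, I.D.d i f = 0) := by
  have hg : gdet I.D I.X ≠ 0 := by
    rw [← I.hdel]
    exact pow_ne_zero 2 I.hne
  obtain ⟨F, hF⟩ := exists_principal I.D I.X hg I.flat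
  -- orthonormality
  have o11 : F.u1 ⬝ᵥ F.u1 = 1 := by rw [OFr.u1_eq]; exact F.o11
  have o12 : F.u1 ⬝ᵥ F.u2 = 0 := by rw [OFr.u1_eq, OFr.u2_eq]; exact F.o12
  have o22 : F.u2 ⬝ᵥ F.u2 = 1 := by rw [OFr.u2_eq]; exact F.o22
  have o21 : F.u2 ⬝ᵥ F.u1 = 0 := by rw [dotProduct_comm]; exact o12
  -- first derivatives of the frame
  have h2 : (2 : K) ≠ 0 := two_ne_zero
  have self0 : ∀ (D : Derivation ℤ K K) (v : Fin 4 → K), v ⬝ᵥ v = 1 → v ⬝ᵥ dv D v = 0 := by
    intro D v hv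
    have h := der_dot D v v
    rw [hv, Derivation.map_one_eq_zero, dotProduct_comm (dv D v) v] at h
    have h' : 2 * (v ⬝ᵥ dv D v) = 0 := by linear_combination -h
    exact (mul_eq_zero.1 h').resolve_left h2
  have d1u1 : F.u1 ⬝ᵥ dv F.e1 F.u1 = 0 := self0 _ _ o11
  have d1u2 : F.u2 ⬝ᵥ dv F.e1 F.u2 = 0 := self0 _ _ o22
  have d2u2 : F.u2 ⬝ᵥ dv F.e2 F.u2 = 0 := self0 _ _ o22
  have hp : F.u2 ⬝ᵥ dv F.e1 F.u1 = F.p := by rw [dotProduct_comm]; rfl
  have hq : F.u1 ⬝ᵥ dv F.e2 F.u2 = F.q := by rw [dotProduct_comm]; rfl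
  have hp' : F.u1 ⬝ᵥ dv F.e1 F.u2 = -F.p := by
    have h := der_dot F.e1 F.u1 F.u2
    rw [o12, map_zero] at h
    have h3 : dv F.e1 F.u1 ⬝ᵥ F.u2 = F.p := rfl
    rw [h3] at h
    linear_combination -h
  -- normal parts
  have s11 : dv F.e1 F.u1 = F.p • F.u2 + norK I.D I.X (dv F.e1 F.u1) := by
    rw [OFr.nor_eq F, d1u1, hp]
    ext k
    simp only [Pi.add_apply, Pi.sub_apply, Pi.smul_apply, smul_eq_mul]
    ring
  have s22 : dv F.e2 F.u2 = F.q • F.u1 + norK I.D I.X (dv F.e2 F.u2) := by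
    rw [OFr.nor_eq F, d2u2, hq]
    ext k
    simp only [Pi.add_apply, Pi.sub_apply, Pi.smul_apply, smul_eq_mul]
    ring
  have s12 : dv F.e1 F.u2 = -F.p • F.u1 := by
    have h := hF
    rw [OFr.nor_eq F, d1u2, hp'] at h
    ext k
    have hk := congrFun h k
    simp only [Pi.sub_apply, Pi.smul_apply, smul_eq_mul, Pi.zero_apply] at hk
    simp only [Pi.smul_apply, smul_eq_mul]
    linear_combination hk
  have s21 : dv F.e2 F.u1 = -F.q • F.u2 := by
    ext k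
    have hc := OFr.comm F (I.X k)
    have hk := congrFun s12 k
    have e1 : dv F.e1 F.u2 k = F.e1 (F.e2 (I.X k)) := rfl
    have e2 : dv F.e2 F.u1 k = F.e2 (F.e1 (I.X k)) := rfl
    have e3 : F.u1 k = F.e1 (I.X k) := rfl
    have e4 : F.u2 k = F.e2 (I.X k) := rfl
    simp only [Pi.smul_apply, smul_eq_mul] at hk ⊢
    rw [e1, e3] at hk
    rw [e2, e4]
    linear_combination hk - hc
  have n11 : F.u1 ⬝ᵥ norK I.D I.X (dv F.e1 F.u1) = 0 := by
    have h := congrArg (fun v => F.u1 ⬝ᵥ v) s11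
    simp only [dotProduct_add, dotProduct_smul, smul_eq_mul, d1u1, o12] at h
    linear_combination -h
  have n21 : F.u2 ⬝ᵥ norK I.D I.X (dv F.e1 F.u1) = 0 := by
    have h := congrArg (fun v => F.u2 ⬝ᵥ v) s11
    simp only [dotProduct_add, dotProduct_smul, smul_eq_mul, hp, o22] at h
    linear_combination -h
  have n12 : F.u1 ⬝ᵥ norK I.D I.X (dv F.e2 F.u2) = 0 := by
    have h := congrArg (fun v => F.u1 ⬝ᵥ v) s22
    simp only [dotProduct_add, dotProduct_smul, smul_eq_mul, hq, o11] at h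
    linear_combination -h
  have n22 : F.u2 ⬝ᵥ norK I.D I.X (dv F.e2 F.u2) = 0 := by
    have h := congrArg (fun v => F.u2 ⬝ᵥ v) s22
    simp only [dotProduct_add, dotProduct_smul, smul_eq_mul, d2u2, o21] at h
    linear_combination -h
  have htr := OFr.tr_eq F
  have ha1 : ∀ f : K, F.e1 f = F.a 0 * I.D.d 0 f + F.a 1 * I.D.d 1 f := fun f =>
    smul_der I.D.d F.a f
  have ha2 : ∀ f : K, F.e2 f = F.b 0 * I.D.d 0 f + F.b 1 * I.D.d 1 f := fun f =>
    smul_der I.D.d F.b f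
  refine ⟨{ e1 := F.e1, e2 := F.e2, p := F.p, q := F.q, c := I.c, u1 := F.u1, u2 := F.u2,
            a1 := norK I.D I.X (dv F.e1 F.u1), a2 := norK I.D I.X (dv F.e2 F.u2),
            comm := OFr.comm F, sq := I.D.sq, pyth := I.D.pyth, real := I.D.real,
            hc1 := ?_, hc2 := ?_, hc := I.hc, o11 := o11, o12 := o12, o22 := o22,
            n11 := n11, n12 := n12, n21 := n21, n22 := n22,
            s11 := s11, s12 := s12, s21 := s21, s22 := s22, lap := ?_ }, ?_, ?_⟩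
  · rw [ha1, I.hdc, I.hdc]; ring
  · rw [ha2, I.hdc, I.hdc]; ring
  · rw [← htr]
    ext k
    have h1 := OFr.lap_eq F I.del I.hdel (trK I.D I.X k)
    rw [I.hlap k] at h1
    simp only [dv, Pi.add_apply, Pi.sub_apply, Pi.smul_apply, smul_eq_mul]
    linear_combination h1
  · exact htr.symm
  · intro f hf1 hf2 i
    have hd := OFr.det_sq F
    have hdet : F.a 0 * F.b 1 - F.a 1 * F.b 0 ≠ 0 := by
      intro h0
      rw [h0] at hd
      norm_num at hd
    have hf1' : F.a 0 * I.D.d 0 f + F.a 1 * I.D.d 1 f = 0 := by rw [← ha1]; exact hf1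
    have hf2' : F.b 0 * I.D.d 0 f + F.b 1 * I.D.d 1 f = 0 := by rw [← ha2]; exact hf2
    have k0 : (F.a 0 * F.b 1 - F.a 1 * F.b 0) * I.D.d 0 f = 0 := by
      linear_combination F.b 1 * hf1' - F.a 1 * hf2'
    have k1 : (F.a 0 * F.b 1 - F.a 1 * F.b 0) * I.D.d 1 f = 0 := by
      linear_combination F.a 0 * hf2' - F.b 0 * hf1'
    fin_cases i
    · exact (mul_eq_zero.1 k0).resolve_left hdet
    · exact (mul_eq_zero.1 k1).resolve_left hdet

end Pool.Agent.H99.N2
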