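import Pool.Agent.H99.N2.GRic

/-!
# MODULE GRot: the principal frame

Proof. Take any frame F (`exists_ofr`), U = norK (dv e1 u1) - norK (dv e2 u2), V = 2 norK (dv e1 u2).
`half_angle`: for x, y with x^2 + y^2 ≠ 0 put z^2 = x^2 + y^2 (pyth), z ≠ 0 (real), co = x/z, si = y/z,
co^2 + si^2 = 1.  A1 = (1+co)/2, A2 = (1-co)/2, A1 + A2 = 1, 4 A1 A2 = si^2.  By `sq` A1 = C^2 or
A1 = -C^2; in the second case A2 = 1 + C^2 and si^2 + 4 C^2 + 4 C^4 = 0, so C = 0 by pyth and real.
So A1 = C^2 in both cases; in the same way A2 = S^2.  (2 C S)^2 = si^2 so 2 C S = si or -si; change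
the sign of S.  Then C^2 + S^2 = 1, C^2 - S^2 = co, 2 C S = si, so
(C^2 - S^2) * y = 2 C S * x.
`exists_principal`: if U = 0 and V = 0 there is nothing to do.  Otherwise choose m with
(U m, V m) ≠ (0, 0) and take x = U m, y = V m.  By `ricci` U m V = V m U (as vectors), hence
(C^2 - S^2) V = 2 C S U.  The new frame a' = C a + S b, b' = -S a + C b is orthonormal and
norK (dv e1' u2') = -C S norK (dv e1 u1) + C S norK (dv e2 u2) + (C^2 - S^2) norK (dv e1 u2) = 0
(derivatives of C, S give tangential terms killed by norK; norK (dv e2 u1) = norK (dv e1 u2), since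
the difference dv e1 u2 - dv e2 u1 = Σ_i (..)_i x_i is tangential; or express
norK (dv e1 u2) = Σ_ij a_i b_j h_ij with h_ij = norK (dv (d i) (dv (d j) X)) symmetric).
-/

namespace Pool.Agent.H99.N2

open Matrix

variable {K : Type} [Field K]

private theorem sq_aux [CharZero K] (D : DF K) (A B s : K) (h1 : A + B = 1)
    (h2 : 4 * A * B = s ^ 2) : ∃ C, A = C ^ 2 := by
  obtain ⟨C, hC⟩ := D.sq A
  rcases hC with hC | hC
  · exact ⟨C, hC⟩
  · obtain ⟨w, hw⟩ := D.pyth s (2 * C)
    have h3 : w ^ 2 + (2 * C ^ 2) ^ 2 = 0 := by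
      rw [← hw, ← h2, hC, show B = 1 + C ^ 2 by linear_combination h1 - hC]
      ring
    have h4 : (2 * C ^ 2 : K) = 0 := D.real _ w (by rw [add_comm]; exact h3)
    have h5 : C ^ 2 = 0 := (mul_eq_zero.1 h4).resolve_left two_ne_zero
    exact ⟨0, by rw [hC, h5]; ring⟩

theorem half_angle [CharZero K] (D : DF K) (x y : K) (h : x ^ 2 + y ^ 2 ≠ 0) :
    ∃ C S : K, C ^ 2 + S ^ 2 = 1 ∧ (C ^ 2 - S ^ 2) * y = 2 * C * S * x := by
  obtain ⟨z, hz⟩ := D.pyth x y
  have hz0 : z ≠ 0 := by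
    intro h0
    apply h
    rw [hz, h0]
    ring
  have h2 : (2 : K) ≠ 0 := two_ne_zero
  have hcs : (x / z) ^ 2 + (y / z) ^ 2 = 1 := by
    field_simp
    exact hz
  have hA : (1 + x / z) / 2 + (1 - x / z) / 2 = 1 := by ring
  have hB : 4 * ((1 + x / z) / 2) * ((1 - x / z) / 2) = (y / z) ^ 2 := by
    linear_combination (-1 : K) * hcs
  obtain ⟨C, hC⟩ := sq_aux D _ _ _ hA hB
  obtain ⟨S, hS⟩ := sq_aux D ((1 - x / z) / 2) ((1 + x / z) / 2) (y / z)
    (by rw [add_comm]; exact hA) (by rw [← hB]; ring)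
  have h5 : (2 * C * S) ^ 2 = (y / z) ^ 2 := by
    rw [← hB, hC, hS]
    ring
  have h6 : C ^ 2 + S ^ 2 = 1 := by rw [← hC, ← hS, hA]
  have h7 : C ^ 2 - S ^ 2 = x / z := by
    rw [← hC, ← hS]
    ring
  rcases sq_eq_sq_iff_eq_or_eq_neg.1 h5 with h8 | h8
  · refine ⟨C, S, h6, ?_⟩
    rw [h7, h8]
    ring
  · refine ⟨C, -S, by rw [neg_sq]; exact h6, ?_⟩
    rw [neg_sq, h7]
    linear_combination x * h8

section rotation

variable {D : DF K} {X : Fin 4 → K}

private theorem nor_add (F : OFr D X) (v w : Fin 4 → K) :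
    norK D X (v + w) = norK D X v + norK D X w := by
  rw [F.nor_eq, F.nor_eq, F.nor_eq, dotProduct_add, dotProduct_add]
  module

private theorem nor_smul (F : OFr D X) (f : K) (v : Fin 4 → K) :
    norK D X (f • v) = f • norK D X v := by
  rw [F.nor_eq, F.nor_eq, dotProduct_smul, dotProduct_smul, smul_eq_mul, smul_eq_mul]
  module

private theorem u11 (F : OFr D X) : F.u1 ⬝ᵥ F.u1 = 1 := by
  rw [F.u1_eq]
  exact F.o11

private theorem u12 (F : OFr D X) : F.u1 ⬝ᵥ F.u2 = 0 := by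
  rw [F.u1_eq, F.u2_eq]
  exact F.o12

private theorem u22 (F : OFr D X) : F.u2 ⬝ᵥ F.u2 = 1 := by
  rw [F.u2_eq]
  exact F.o22

private theorem nor_u1 (F : OFr D X) : norK D X F.u1 = 0 := by
  rw [F.nor_eq, u11, dotProduct_comm, u12]
  module

private theorem nor_u2 (F : OFr D X) : norK D X F.u2 = 0 := by
  rw [F.nor_eq, u12, u22]
  module

private theorem dv_add' (E : Derivation ℤ K K) (v w : Fin 4 → K) :
    dv E (v + w) = dv E v + dv E w := by
  funext k
  simp [dv]

private theorem dv_smul' (E : Derivation ℤ K K) (f : K) (v : Fin 4 → K) :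
    dv E (f • v) = E f • v + f • dv E v := by
  funext k
  simp only [dv, Pi.smul_apply, Pi.add_apply, smul_eq_mul, Derivation.leibniz]
  ring

private theorem e1_apply (F : OFr D X) (f : K) :
    F.e1 f = F.a 0 * D.d 0 f + F.a 1 * D.d 1 f := by
  simp [OFr.e1, Fin.sum_univ_two]

private theorem e2_apply (F : OFr D X) (f : K) :
    F.e2 f = F.b 0 * D.d 0 f + F.b 1 * D.d 1 f := by
  simp [OFr.e2, Fin.sum_univ_two]

private theorem nor_coord (h : gdet D X ≠ 0) (k : Fin 2) :
    norK D X (dv (D.d k) X) = 0 := by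
  have hs : gm D X 1 0 = gm D X 0 1 := dotProduct_comm _ _
  have hg : gm D X 0 0 * gm D X 1 1 - gm D X 0 1 ^ 2 ≠ 0 := h
  funext n
  have e : ∀ i, dv (D.d i) X ⬝ᵥ dv (D.d k) X = gm D X i k := fun i => rfl
  unfold norK
  simp only [e, Fin.sum_univ_two, gi, gdet, Pi.sub_apply, Pi.add_apply, Pi.smul_apply,
    smul_eq_mul, Pi.zero_apply, Matrix.of_apply, Matrix.cons_val', Matrix.cons_val_zero,
    Matrix.cons_val_one, Matrix.cons_val_fin_one]
  have hi := mul_inv_cancel₀ hg
  fin_cases k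
  · simp only [Fin.zero_eta, Fin.isValue, hs]
    linear_combination (-(dv (D.d 0) X n)) * hi
  · simp only [Fin.mk_one, Fin.isValue]
    linear_combination (-(dv (D.d 1) X n)) * hi

private theorem nor_symm (F : OFr D X) (h : gdet D X ≠ 0) :
    norK D X (dv F.e2 F.u1) = norK D X (dv F.e1 F.u2) := by
  have key : dv F.e1 F.u2 = dv F.e2 F.u1 + ((F.e1 (F.b 0) - F.e2 (F.a 0)) • dv (D.d 0) X
      + (F.e1 (F.b 1) - F.e2 (F.a 1)) • dv (D.d 1) X) := by
    funext k
    simp only [OFr.u1, OFr.u2, dv, Pi.add_apply, Pi.smul_apply, smul_eq_mul, e1_apply, e2_apply,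
      map_add, Derivation.leibniz]
    have hc := D.comm (X k)
    linear_combination (F.a 0 * F.b 1 - F.a 1 * F.b 0) * hc
  rw [key, nor_add F, nor_add F, nor_smul F, nor_smul F, nor_coord h, nor_coord h]
  module

/-- the rotated frame -/
private def rot (F : OFr D X) (C S : K) (h : C ^ 2 + S ^ 2 = 1) : OFr D X where
  a := fun i => C * F.a i + S * F.b i
  b := fun i => -S * F.a i + C * F.b i
  o11 := by
    have e : (∑ i, (C * F.a i + S * F.b i) • dv (D.d i) X) = C • F.u1 + S • F.u2 := by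
      rw [F.u1_eq, F.u2_eq]
      simp only [Fin.sum_univ_two]
      module
    rw [e]
    simp only [dotProduct_add, add_dotProduct, dotProduct_smul, smul_dotProduct, smul_eq_mul,
      u11, u12, u22, dotProduct_comm F.u2 F.u1]
    linear_combination h
  o12 := by
    have e : (∑ i, (C * F.a i + S * F.b i) • dv (D.d i) X) = C • F.u1 + S • F.u2 := by
      rw [F.u1_eq, F.u2_eq]
      simp only [Fin.sum_univ_two]
      module
    have e' : (∑ i, (-S * F.a i + C * F.b i) • dv (D.d i) X) = (-S) • F.u1 + C • F.u2 := by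
      rw [F.u1_eq, F.u2_eq]
      simp only [Fin.sum_univ_two]
      module
    rw [e, e']
    simp only [dotProduct_add, add_dotProduct, dotProduct_smul, smul_dotProduct, smul_eq_mul,
      u11, u12, u22, dotProduct_comm F.u2 F.u1]
    ring
  o22 := by
    have e' : (∑ i, (-S * F.a i + C * F.b i) • dv (D.d i) X) = (-S) • F.u1 + C • F.u2 := by
      rw [F.u1_eq, F.u2_eq]
      simp only [Fin.sum_univ_two]
      module
    rw [e']
    simp only [dotProduct_add, add_dotProduct, dotProduct_smul, smul_dotProduct, smul_eq_mul,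
      u11, u12, u22, dotProduct_comm F.u2 F.u1]
    linear_combination h

private theorem rot_e1 (F : OFr D X) (C S : K) (h : C ^ 2 + S ^ 2 = 1) (v : Fin 4 → K) :
    dv (rot F C S h).e1 v = C • dv F.e1 v + S • dv F.e2 v := by
  funext k
  simp only [dv, Pi.add_apply, Pi.smul_apply, smul_eq_mul, e1_apply, e2_apply, rot]
  ring

private theorem rot_u2 (F : OFr D X) (C S : K) (h : C ^ 2 + S ^ 2 = 1) :
    (rot F C S h).u2 = (-S) • F.u1 + C • F.u2 := by
  rw [OFr.u2_eq, F.u1_eq, F.u2_eq]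
  simp only [Fin.sum_univ_two, rot]
  module

private theorem rot_nor (F : OFr D X) (hg : gdet D X ≠ 0) (C S : K) (h : C ^ 2 + S ^ 2 = 1) :
    norK D X (dv (rot F C S h).e1 (rot F C S h).u2)
      = (C ^ 2 - S ^ 2) • norK D X (dv F.e1 F.u2)
        - (C * S) • (norK D X (dv F.e1 F.u1) - norK D X (dv F.e2 F.u2)) := by
  rw [rot_e1, rot_u2]
  simp only [dv_add', dv_smul', nor_add F, nor_smul F, nor_u1, nor_u2, nor_symm F hg]
  module

end rotation

theorem exists_principal [CharZero K] (D : DF K) (X : Fin 4 → K) (h : gdet D X ≠ 0)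
    (flat : ∀ k : Fin 4,
      norK D X (dv (D.d 0) (norK D X (dv (D.d 1) (norK D X (Pi.single k 1)))))
        = norK D X (dv (D.d 1) (norK D X (dv (D.d 0) (norK D X (Pi.single k 1)))))) :
    ∃ F : OFr D X, norK D X (dv F.e1 F.u2) = 0 := by
  obtain ⟨F⟩ := exists_ofr D X h
  by_cases hV : norK D X (dv F.e1 F.u2) = 0
  · exact ⟨F, hV⟩
  · obtain ⟨m, hm⟩ := Function.ne_iff.1 hV
    have hm' : norK D X (dv F.e1 F.u2) m ≠ 0 := hm
    have h2 : (2 : K) ≠ 0 := two_ne_zero
    have hxy : (norK D X (dv F.e1 F.u1) m - norK D X (dv F.e2 F.u2) m) ^ 2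
        + (2 * norK D X (dv F.e1 F.u2) m) ^ 2 ≠ 0 := by
      intro h0
      rw [add_comm] at h0
      exact (mul_ne_zero h2 hm') (D.real _ _ h0)
    obtain ⟨C, S, hCS, hrot⟩ := half_angle D _ _ hxy
    refine ⟨rot F C S hCS, ?_⟩
    rw [rot_nor F h]
    funext n
    have hr := F.ricci flat m n
    simp only [Pi.sub_apply, Pi.smul_apply, smul_eq_mul, Pi.zero_apply]
    apply (mul_eq_zero.1 ?_).resolve_left (mul_ne_zero h2 hm')
    linear_combination (norK D X (dv F.e1 F.u2) n) * hrot + 2 * (C * S) * hr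

end Pool.Agent.H99.N2
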