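import Pool.Agent.H99.N2.ABel
import Pool.Agent.H99.N2.GPf
import Pool.Agent.H99.N2.GNf
import Pool.Agent.H99.N2.Alg

/-!
# MODULE Main: constant mean curvature

Proofs.
`geo_main`: take P from `exists_pf`; if N . N = 0 then d_i 0 = 0; otherwise D from `exists_nf`,
N . N = w^2, e1 (w^2) = 2 w e1 w = 0 and e2 (w^2) = 0 by `alg`, then the last clause of `exists_pf`.
`main`: put W x = inner (meanCurv X x) (meanCurv X x) = ‖H‖^2, smooth on U.  Claim: pd i W = 0 on U for
i = 0, 1.  Otherwise Om = {x ∈ U | pd i W x ≠ 0} is open and nonempty for some i; hypotheses restrict to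
Om (IsSurface and hH trivially; flatness is used only for the fields normalPart X y v, which are smooth
and normal on U: `contDiffOn_normalPart`, `normalPart_mem`).  Take the bridge of Om and I from
`exists_imm`.  B.ne: B.φ (pd i W) ≠ 0; B.φ (pd i W) = D.d i (B.φ W), B.φ W = Φ H . Φ H and
4 * this = trK . trK by `Φ_meanCurv`, so it is 0 by `geo_main`: contradiction.
So fderiv W = 0 on U (two basis directions) and W is constant on U
(`IsOpen.exists_is_const_of_fderiv_eq_zero`), ‖H‖ = sqrt W.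
-/

namespace Pool.Agent.H99.N2

open scoped ContDiff
open Matrix

theorem geo_main {K : Type} [Field K] [CharZero K] (I : Imm K) (i : Fin 2) :
    I.D.d i (trK I.D I.X ⬝ᵥ trK I.D I.X) = 0 := by
  obtain ⟨P, hP, hd⟩ := exists_pf I
  by_cases h : (P.a1 + P.a2) ⬝ᵥ (P.a1 + P.a2) = 0
  · rw [← hP, h, map_zero]
  · obtain ⟨D, h1, h2, hw⟩ := exists_nf P h
    obtain ⟨k1, k2⟩ := alg D
    rw [← hP, ← hw]
    apply hd
    · rw [← h1, pow_two, Derivation.leibniz, k1]
      simp
    · rw [← h2, pow_two, Derivation.leibniz, k2]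
      simp

theorem main {U : Set E2} (hU : IsOpen U) (hc : IsPreconnected U) {X : E2 → E4}
    (hX : IsSurface X U) (hflat : FlatNormalBundle X U)
    (hH : ∃ c : ℝ, c ≠ 0 ∧ ∀ x ∈ U, lap X (meanCurv X) x = c • meanCurv X x) :
    ∃ C : ℝ, ∀ x ∈ U, ‖meanCurv X x‖ = C := by
  obtain ⟨c, hc0, hH⟩ := hH
  have hsm : ContDiffOn ℝ ∞ (meanCurv X) U := contDiffOn_meanCurv hU hX
  set W : E2 → ℝ := fun x => inner ℝ (meanCurv X x) (meanCurv X x) with hWdef
  have hW : ContDiffOn ℝ ∞ W U := hsm.inner ℝ hsm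
  have key : ∀ i : Fin 2, ∀ x ∈ U, pd i W x = 0 := by
    intro i
    by_contra hcon
    push Not at hcon
    obtain ⟨x0, hx0, hne0⟩ := hcon
    have hpd : ContDiffOn ℝ ∞ (pd i W) U := contDiffOn_pd hU hW i
    set Om : Set E2 := U ∩ pd i W ⁻¹' {0}ᶜ with hOmdef
    have hO : IsOpen Om := hpd.continuousOn.isOpen_inter_preimage hU isOpen_compl_singleton
    have hOU : Om ⊆ U := Set.inter_subset_left
    have hne : Om.Nonempty := ⟨x0, hx0, hne0⟩
    obtain ⟨K, hF, hK, ⟨B⟩⟩ := exists_bridge Om hO hne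
    have hX' : IsSurface X Om := ⟨hX.1.mono hOU, fun x hx => hX.2 x (hOU hx)⟩
    have hflat' : ∀ v : E4, ∀ x ∈ Om,
        nablaPerp X 0 (nablaPerp X 1 (fun y => normalPart X y v)) x
          = nablaPerp X 1 (nablaPerp X 0 (fun y => normalPart X y v)) x := fun v x hx =>
      hflat (fun y => normalPart X y v) (contDiffOn_normalPart hU hX contDiffOn_const)
        (fun y _ => normalPart_mem X y v) x (hOU hx)
    obtain ⟨I, hD, hIX⟩ := exists_imm B hO hne hX' hflat' hc0 fun x hx => hH x (hOU hx)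
    have h1 : B.φ (pd i W) ≠ 0 := B.ne _ (hpd.mono hOU) fun x hx => hx.2
    apply h1
    rw [B.der i W (hW.mono hOU)]
    have h2 : B.φ W = B.Φ (meanCurv X) ⬝ᵥ B.Φ (meanCurv X) :=
      B.φ_inner (hsm.mono hOU) (hsm.mono hOU)
    have h3 := Φ_meanCurv B hO hX'
    have h4 := geo_main I i
    rw [hD, hIX, ← h3, smul_dotProduct, dotProduct_smul, smul_eq_mul, smul_eq_mul, ← h2,
      ← mul_assoc] at h4
    have h5 : ((2 : K) * 2) = ((4 : ℕ) : K) := by norm_num
    rw [h5, ← nsmul_eq_mul, map_nsmul, nsmul_eq_mul] at h4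
    rcases mul_eq_zero.1 h4 with h6 | h6
    · exact absurd h6 (by norm_num)
    · exact h6
  have hf : Set.EqOn (fderiv ℝ W) 0 U := by
    intro x hx
    have hb : ∀ j : Fin 2, fderiv ℝ W x (EuclideanSpace.single j 1) = 0 := fun j => key j x hx
    apply ContinuousLinearMap.coe_injective
    refine (EuclideanSpace.basisFun (Fin 2) ℝ).toBasis.ext fun j => ?_
    simpa using hb j
  obtain ⟨a, ha⟩ := hU.exists_is_const_of_fderiv_eq_zero hc
    (hW.differentiableOn (by simp)) hf
  refine ⟨Real.sqrt a, fun x hx => ?_⟩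
  have h7 : W x = ‖meanCurv X x‖ ^ 2 := real_inner_self_eq_norm_sq _
  rw [← ha x hx, h7, Real.sqrt_sq (norm_nonneg _)]

theorem main_null {U : Set E2} (hU : IsOpen U) (hc : IsPreconnected U) {X : E2 → E4}
    (hX : IsSurface X U) (hflat : FlatNormalBundle X U) (h2 : IsNullTwoType X U) :
    ∃ C : ℝ, ∀ x ∈ U, ‖meanCurv X x‖ = C :=
  main hU hc hX hflat (lapH_of_null hU hX h2)

end Pool.Agent.H99.N2
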