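import Mathlib

/-!
# Polynomials as nested lists, evaluated by the kernel

`ev e v l` is the value at `v` of the polynomial whose coefficients (lowest first) are the values
under `e` of the entries of the list `l`.
-/

namespace Pool.Agent.H99.N2.PL

variable {α : Type} {K : Type} [CommRing K]

/-- value of a polynomial -/
noncomputable def ev (e : α → K) (v : K) (l : List α) : K :=
  List.rec (motive := fun _ => K) 0 (fun a _ ih => e a + v * ih) l

theorem ev_nil (e : α → K) (v : K) : ev e v [] = 0 := rfl

theorem ev_cons (e : α → K) (v : K) (a : α) (l : List α) :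
    ev e v (a :: l) = e a + v * ev e v l := rfl

/-- addition -/
noncomputable def addL (f : α → α → α) (l : List α) : List α → List α :=
  List.rec (motive := fun _ => List α → List α) (fun m => m)
    (fun a l' ih m => List.casesOn (motive := fun _ => List α) m (a :: l')
      (fun b m' => f a b :: ih m')) l

/-- map -/
noncomputable def mapL (f : α → α) (l : List α) : List α :=
  List.rec (motive := fun _ => List α) [] (fun a _ ih => f a :: ih) l

/-- multiplication; `t` recognises (some) zero coefficients -/
noncomputable def mulL (f : α → α → α) (z : α) (g : α → α → α) (t : α → Bool) (l m : List α) :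
    List α :=
  List.rec (motive := fun _ => List α) []
    (fun a _ ih => Bool.casesOn (motive := fun _ => List α) (t a)
      (addL f (mapL (g a) m) (z :: ih)) (z :: ih)) l

/-- derivative with respect to the outer variable -/
noncomputable def dL (f : α → α → α) (z : α) (l : List α) : List α :=
  List.rec (motive := fun _ => List α) [] (fun _ l' ih => addL f l' (z :: ih)) l

/-- is every coefficient zero? -/
noncomputable def iszL (p : α → Bool) (l : List α) : Bool :=
  List.rec (motive := fun _ => Bool) true
    (fun a _ ih => Bool.casesOn (motive := fun _ => Bool) (p a) false ih) l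

/-- is the list empty? -/
noncomputable def nilL (l : List α) : Bool :=
  List.rec (motive := fun _ => Bool) true (fun _ _ _ => false) l

theorem ev_addL {e : α → K} {f : α → α → α} (h : ∀ a b, e (f a b) = e a + e b) (v : K)
    (l m : List α) : ev e v (addL f l m) = ev e v l + ev e v m := by
  induction l generalizing m with
  | nil =>
    have : addL f [] m = m := rfl
    rw [this, ev_nil, zero_add]
  | cons a l ih =>
    cases m with
    | nil =>
      have : addL f (a :: l) [] = a :: l := rfl
      rw [this, ev_nil, add_zero]
    | cons b m =>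
      have : addL f (a :: l) (b :: m) = f a b :: addL f l m := rfl
      rw [this, ev_cons, ev_cons, ev_cons, h, ih]
      ring

theorem ev_mapL_mul {e : α → K} {g : α → α} {c : K} (h : ∀ b, e (g b) = c * e b) (v : K)
    (l : List α) : ev e v (mapL g l) = c * ev e v l := by
  induction l with
  | nil =>
    have : mapL g [] = [] := rfl
    rw [this, ev_nil, mul_zero]
  | cons a l ih =>
    have : mapL g (a :: l) = g a :: mapL g l := rfl
    rw [this, ev_cons, ev_cons, h, ih]
    ring

theorem ev_mulL {e : α → K} {f : α → α → α} {z : α} {g : α → α → α} {t : α → Bool}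
    (hf : ∀ a b, e (f a b) = e a + e b) (hz : e z = 0) (hg : ∀ a b, e (g a b) = e a * e b)
    (ht : ∀ a, t a = true → e a = 0) (v : K) (l m : List α) :
    ev e v (mulL f z g t l m) = ev e v l * ev e v m := by
  induction l with
  | nil =>
    have : mulL f z g t [] m = [] := rfl
    rw [this, ev_nil, zero_mul]
  | cons a l ih =>
    have h1 : mulL f z g t (a :: l) m = Bool.casesOn (motive := fun _ => List α) (t a)
      (addL f (mapL (g a) m) (z :: mulL f z g t l m)) (z :: mulL f z g t l m) := rfl
    rw [h1]
    cases hta : t a with
    | false =>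
      change ev e v (addL f (mapL (g a) m) (z :: mulL f z g t l m)) = _
      rw [ev_addL hf, ev_mapL_mul (hg a), ev_cons, ev_cons, hz, ih]
      ring
    | true =>
      change ev e v (z :: mulL f z g t l m) = _
      rw [ev_cons, ev_cons, hz, ih, ht a hta]
      ring

theorem ev_iszL {e : α → K} {p : α → Bool} (h : ∀ a, p a = true → e a = 0) (v : K)
    (l : List α) (hl : iszL p l = true) : ev e v l = 0 := by
  induction l with
  | nil => rfl
  | cons a l ih =>
    have h1 : iszL p (a :: l) = Bool.casesOn (motive := fun _ => Bool) (p a) false (iszL p l) :=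
      rfl
    rw [h1] at hl
    cases hpa : p a with
    | false =>
      rw [hpa] at hl
      exact absurd hl (by simp)
    | true =>
      rw [hpa] at hl
      rw [ev_cons, h a hpa, ih hl]
      ring

theorem ev_nilL {e : α → K} (v : K) (l : List α) (hl : nilL l = true) : ev e v l = 0 := by
  cases l with
  | nil => rfl
  | cons a l => exact absurd hl (by simp [nilL])

theorem d_ev (d : Derivation ℤ K K) {e : α → K} {f : α → α → α} {z : α}
    (hf : ∀ a b, e (f a b) = e a + e b) (hz : e z = 0) {n : ℕ} (p : ℕ → α → α) (w : ℕ → K)
    (h : ∀ a, d (e a) = ∑ i ∈ Finset.range n, e (p i a) * w i) (v : K) (l : List α) :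
    d (ev e v l) = (∑ i ∈ Finset.range n, ev e v (mapL (p i) l) * w i)
      + ev e v (dL f z l) * d v := by
  induction l with
  | nil =>
    have h1 : ∀ i, mapL (p i) ([] : List α) = [] := fun i => rfl
    have h2 : dL f z ([] : List α) = [] := rfl
    rw [h2]
    simp only [h1, ev_nil, map_zero, zero_mul, Finset.sum_const_zero, add_zero]
  | cons a l ih =>
    have h1 : ∀ i, mapL (p i) (a :: l) = p i a :: mapL (p i) l := fun i => rfl
    have h2 : dL f z (a :: l) = addL f l (z :: dL f z l) := rfl
    rw [h2, ev_addL hf, ev_cons e v z, hz, ev_cons, map_add, Derivation.leibniz, ih, h]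
    simp only [h1, ev_cons, add_mul, Finset.sum_add_distrib, smul_eq_mul, mul_add, zero_add,
      Finset.mul_sum, mul_assoc]
    ring

/-- operations on a type of polynomials -/
structure Lv (α : Type) where
  z : α
  add : α → α → α
  mul : α → α → α
  t : α → Bool
  isz : α → Bool

/-- polynomials in one more variable -/
noncomputable def Lv.up (L : Lv α) : Lv (List α) where
  z := []
  add := addL L.add
  mul := mulL L.add L.z L.mul L.t
  t := nilL
  isz := iszL L.isz

/-- the operations are correct -/
structure Lv.Ok (L : Lv α) (e : α → K) : Prop where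
  z : e L.z = 0
  add : ∀ a b, e (L.add a b) = e a + e b
  mul : ∀ a b, e (L.mul a b) = e a * e b
  t : ∀ a, L.t a = true → e a = 0
  isz : ∀ a, L.isz a = true → e a = 0

theorem Lv.Ok.up {L : Lv α} {e : α → K} (h : L.Ok e) (v : K) : L.up.Ok (ev e v) where
  z := rfl
  add := ev_addL h.add v
  mul := ev_mulL h.add h.z h.mul h.t v
  t := ev_nilL v
  isz := ev_iszL h.isz v

/-- is an integer zero? -/
noncomputable def isz0 (a : Int) : Bool :=
  Int.casesOn (motive := fun _ => Bool) a (fun n => Nat.beq n 0) (fun _ => false)

/-- integers -/
noncomputable def L0 : Lv Int where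
  z := 0
  add := Int.add
  mul := Int.mul
  t := isz0
  isz := isz0

theorem isz0_eq {a : Int} (h : isz0 a = true) : a = 0 := by
  cases a with
  | ofNat n =>
    have : Nat.beq n 0 = true := h
    rw [Nat.eq_of_beq_eq_true this]
    rfl
  | negSucc n => exact absurd h (by simp [isz0])

theorem ok0 : L0.Ok (fun n : Int => (n : K)) where
  z := Int.cast_zero
  add := fun a b => Int.cast_add a b
  mul := fun a b => Int.cast_mul a b
  t := fun a h => by rw [isz0_eq h]; exact Int.cast_zero
  isz := fun a h => by rw [isz0_eq h]; exact Int.cast_zero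

/-- polynomials in five variables -/
abbrev P5 := List (List (List (List (List Int))))

/-- operations in one variable -/
noncomputable def L1 : Lv (List Int) := L0.up
/-- operations in two variables -/
noncomputable def L2 : Lv (List (List Int)) := L1.up
/-- operations in three variables -/
noncomputable def L3 : Lv (List (List (List Int))) := L2.up
/-- operations in four variables -/
noncomputable def L4 : Lv (List (List (List (List Int)))) := L3.up
/-- operations in five variables -/
noncomputable def L5 : Lv P5 := L4.up

/-- value of an integer -/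
def e0 (n : Int) : K := (n : K)
/-- value in one variable -/
noncomputable def e1 (v : ℕ → K) : List Int → K := ev e0 (v 0)
/-- value in two variables -/
noncomputable def e2 (v : ℕ → K) : List (List Int) → K := ev (e1 v) (v 1)
/-- value in three variables -/
noncomputable def e3 (v : ℕ → K) : List (List (List Int)) → K := ev (e2 v) (v 2)
/-- value in four variables -/
noncomputable def e4 (v : ℕ → K) : List (List (List (List Int))) → K := ev (e3 v) (v 3)
/-- value in five variables (variable 0 is the innermost one) -/
noncomputable def e5 (v : ℕ → K) : P5 → K := ev (e4 v) (v 4)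

theorem ok1 (v : ℕ → K) : L1.Ok (e1 v) := (ok0 (K := K)).up (v 0)
theorem ok2 (v : ℕ → K) : L2.Ok (e2 v) := (ok1 v).up (v 1)
theorem ok3 (v : ℕ → K) : L3.Ok (e3 v) := (ok2 v).up (v 2)
theorem ok4 (v : ℕ → K) : L4.Ok (e4 v) := (ok3 v).up (v 3)
theorem ok5 (v : ℕ → K) : L5.Ok (e5 v) := (ok4 v).up (v 4)

/-- partial derivatives in one variable -/
noncomputable def q1 (i : ℕ) : List Int → List Int :=
  match i with
  | 0 => dL L0.add L0.z
  | _ => fun l => l

/-- partial derivatives in two variables -/
noncomputable def q2 (i : ℕ) : List (List Int) → List (List Int) :=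
  match i with
  | 1 => dL L1.add L1.z
  | i => mapL (q1 i)

/-- partial derivatives in three variables -/
noncomputable def q3 (i : ℕ) : List (List (List Int)) → List (List (List Int)) :=
  match i with
  | 2 => dL L2.add L2.z
  | i => mapL (q2 i)

/-- partial derivatives in four variables -/
noncomputable def q4 (i : ℕ) : List (List (List (List Int))) → List (List (List (List Int))) :=
  match i with
  | 3 => dL L3.add L3.z
  | i => mapL (q3 i)

/-- partial derivatives in five variables -/
noncomputable def q5 (i : ℕ) : P5 → P5 :=
  match i with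
  | 4 => dL L4.add L4.z
  | i => mapL (q4 i)

section der

variable (d : Derivation ℤ K K) (v : ℕ → K)

theorem d_e0 (a : Int) : d (e0 a) = ∑ i ∈ Finset.range 0, e0 (K := K) ((fun _ a => a) i a) * d (v i) := by
  simp [e0]

theorem d_e1 (a : List Int) : d (e1 v a) = ∑ i ∈ Finset.range 1, e1 v (q1 i a) * d (v i) := by
  rw [Finset.sum_range_succ]
  exact d_ev d (e := e0) (ok0 (K := K)).add (ok0 (K := K)).z (n := 0) (fun _ a => a)
    (fun i => d (v i)) (d_e0 d v) (v 0) a

theorem d_e2 (a : List (List Int)) :
    d (e2 v a) = ∑ i ∈ Finset.range 2, e2 v (q2 i a) * d (v i) := by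
  rw [Finset.sum_range_succ]
  refine (d_ev d (ok1 v).add (ok1 v).z (n := 1) q1 (fun i => d (v i)) (d_e1 d v) (v 1) a).trans ?_
  congr 1

theorem d_e3 (a : List (List (List Int))) :
    d (e3 v a) = ∑ i ∈ Finset.range 3, e3 v (q3 i a) * d (v i) := by
  rw [Finset.sum_range_succ]
  refine (d_ev d (ok2 v).add (ok2 v).z (n := 2) q2 (fun i => d (v i)) (d_e2 d v) (v 2) a).trans ?_
  congr 1

theorem d_e4 (a : List (List (List (List Int)))) :
    d (e4 v a) = ∑ i ∈ Finset.range 4, e4 v (q4 i a) * d (v i) := by
  rw [Finset.sum_range_succ]
  refine (d_ev d (ok3 v).add (ok3 v).z (n := 3) q3 (fun i => d (v i)) (d_e3 d v) (v 3) a).trans ?_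
  congr 1

theorem d_e5 (a : P5) : d (e5 v a) = ∑ i ∈ Finset.range 5, e5 v (q5 i a) * d (v i) := by
  rw [Finset.sum_range_succ]
  refine (d_ev d (ok4 v).add (ok4 v).z (n := 4) q4 (fun i => d (v i)) (d_e4 d v) (v 4) a).trans ?_
  congr 1

end der

end Pool.Agent.H99.N2.PL
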